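import Mathlib.RingTheory.Derivation.Basic
import Mathlib.Algebra.BigOperators.NatAntidiagonal
import Mathlib.Data.Finset.NatAntidiagonal
import Mathlib.Data.Nat.Choose.Sum
import Mathlib.Algebra.Algebra.Rat
import Mathlib.Algebra.Module.Rat
import Mathlib.Algebra.BigOperators.Group.Finset.Sigma
import Mathlib.Tactic.Ring
import Mathlib.Tactic.FieldSimp
import Mathlib.Tactic.Module

/-! # Commutative rings with two commuting derivations, and the bidifferential operators
of the standard-ordered star product -/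

set_option autoImplicit false
set_option linter.unusedSectionVars false

namespace Pool.Agent.LibStar

open Finset

/-- Derivations of a commutative ring. -/
abbrev Der (A : Type*) [CommRing A] := Derivation ℤ A A

/-- A commutative ring with two commuting derivations. -/
class DD (A : Type*) [CommRing A] where
  /-- the first derivation -/
  D : Der A
  /-- the second derivation -/
  E : Der A
  comm : ∀ a, D (E a) = E (D a)

section

variable {A : Type*} [CommRing A] [Algebra ℚ A] [DD A]

/-- divided powers of a derivation -/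
noncomputable def dp (d : Derivation ℤ A A) (n : ℕ) (a : A) : A :=
  ((n.factorial : ℚ)⁻¹) • (d^[n] a)

lemma iter_add (d : Derivation ℤ A A) (n : ℕ) (a b : A) : d^[n] (a + b) = d^[n] a + d^[n] b := by
  induction n generalizing a b with
  | zero => rfl
  | succ n ih => rw [Function.iterate_succ_apply, map_add, ih, Function.iterate_succ_apply,
      Function.iterate_succ_apply]

lemma iter_zero (d : Derivation ℤ A A) (n : ℕ) : d^[n] (0 : A) = 0 := by
  induction n with
  | zero => rfl
  | succ n ih => rw [Function.iterate_succ_apply, map_zero, ih]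

lemma der_smul (d : Derivation ℤ A A) (q : ℚ) (a : A) : d (q • a) = q • d a := by
  have h := map_rat_smul (d.toLinearMap.toAddMonoidHom) q a
  exact h

lemma iter_smul (d : Derivation ℤ A A) (n : ℕ) (q : ℚ) (a : A) :
    d^[n] (q • a) = q • d^[n] a := by
  induction n generalizing a with
  | zero => rfl
  | succ n ih => rw [Function.iterate_succ_apply, der_smul, ih, Function.iterate_succ_apply]

lemma dp_add (d : Derivation ℤ A A) (n : ℕ) (a b : A) : dp d n (a + b) = dp d n a + dp d n b := by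
  rw [dp, iter_add, smul_add, dp, dp]

lemma dp_zero_arg (d : Derivation ℤ A A) (n : ℕ) : dp d n (0 : A) = 0 := by
  rw [dp, iter_zero, smul_zero]

lemma dp_smul (d : Derivation ℤ A A) (n : ℕ) (q : ℚ) (a : A) : dp d n (q • a) = q • dp d n a := by
  rw [dp, iter_smul, dp, smul_comm]

lemma dp_zero (d : Derivation ℤ A A) (a : A) : dp d 0 a = a := by
  simp [dp]

lemma dp_sum {ι : Type*} (d : Derivation ℤ A A) (n : ℕ) (s : Finset ι) (f : ι → A) :
    dp d n (∑ i ∈ s, f i) = ∑ i ∈ s, dp d n (f i) := by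
  classical
  induction s using Finset.induction_on with
  | empty => simp [dp_zero_arg]
  | insert a s ha ih => rw [sum_insert ha, sum_insert ha, dp_add, ih]

lemma dp_succ (d : Derivation ℤ A A) (n : ℕ) (a : A) :
    (n + 1 : ℚ) • dp d (n + 1) a = d (dp d n a) := by
  rw [dp, dp, der_smul, Function.iterate_succ_apply', smul_smul, Nat.factorial_succ]
  congr 1
  have h1 : ((n.factorial : ℕ) : ℚ) ≠ 0 := by exact_mod_cast n.factorial_ne_zero
  have h2 : (n + 1 : ℚ) ≠ 0 := by positivity
  push_cast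
  field_simp

lemma smul_succ_inj (n : ℕ) {a b : A} (h : (n + 1 : ℚ) • a = (n + 1 : ℚ) • b) : a = b := by
  have h2 : (n + 1 : ℚ) ≠ 0 := by positivity
  have := congrArg (fun z => ((n + 1 : ℚ)⁻¹) • z) h
  simpa only [smul_smul, inv_mul_cancel₀ h2, one_smul] using this

/-- Leibniz rule for divided powers. -/
lemma dp_mul (d : Derivation ℤ A A) (n : ℕ) (a b : A) :
    dp d n (a * b) = ∑ p ∈ antidiagonal n, dp d p.1 a * dp d p.2 b := by
  induction n with
  | zero => simp [dp_zero]
  | succ n ih =>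
    apply smul_succ_inj n
    rw [dp_succ, ih, map_sum]
    have h1 : ∀ p ∈ antidiagonal n, d (dp d p.1 a * dp d p.2 b) =
        (p.2 + 1 : ℚ) • (dp d p.1 a * dp d (p.2 + 1) b) +
        (p.1 + 1 : ℚ) • (dp d (p.1 + 1) a * dp d p.2 b) := by
      intro p _
      rw [Derivation.leibniz, ← dp_succ, ← dp_succ, smul_eq_mul, smul_eq_mul, mul_smul_comm,
        mul_smul_comm, mul_comm (dp d p.2 b)]
    rw [sum_congr rfl h1, sum_add_distrib]
    -- rewrite the right-hand side
    have h2 : (n + 1 : ℚ) • ∑ p ∈ antidiagonal (n + 1), dp d p.1 a * dp d p.2 b =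
        ∑ p ∈ antidiagonal (n + 1), (p.2 : ℚ) • (dp d p.1 a * dp d p.2 b) +
        ∑ p ∈ antidiagonal (n + 1), (p.1 : ℚ) • (dp d p.1 a * dp d p.2 b) := by
      rw [smul_sum, ← sum_add_distrib]
      apply sum_congr rfl
      intro p hp
      rw [mem_antidiagonal] at hp
      rw [← add_smul]
      congr 1
      have : ((p.1 + p.2 : ℕ) : ℚ) = ((n + 1 : ℕ) : ℚ) := by rw [hp]
      push_cast at this
      linarith
    rw [h2]
    congr 1
    · rw [Finset.Nat.sum_antidiagonal_succ']
      simp
    · rw [Finset.Nat.sum_antidiagonal_succ]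
      simp

/-- Composition of divided powers. -/
lemma dp_dp (d : Derivation ℤ A A) (k j : ℕ) (a : A) :
    dp d k (dp d j a) = (((k + j).choose k : ℕ) : ℚ) • dp d (k + j) a := by
  rw [dp, dp, iter_smul, ← Function.iterate_add_apply, dp, smul_smul, smul_smul]
  congr 1
  have h1 : ((k.factorial : ℕ) : ℚ) ≠ 0 := by exact_mod_cast k.factorial_ne_zero
  have h2 : ((j.factorial : ℕ) : ℚ) ≠ 0 := by exact_mod_cast j.factorial_ne_zero
  have h3 : (((k + j).factorial : ℕ) : ℚ) ≠ 0 := by exact_mod_cast (k + j).factorial_ne_zero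
  have h4 : (k + j).choose k * k.factorial * j.factorial = (k + j).factorial := by
    have := Nat.choose_mul_factorial_mul_factorial (Nat.le_add_right k j)
    rwa [Nat.add_sub_cancel_left] at this
  have h5 : (((k + j).choose k : ℕ) : ℚ) * k.factorial * j.factorial = (k + j).factorial := by
    exact_mod_cast h4
  have h6 : (((k + j).choose k : ℕ) : ℚ) = (k + j).factorial / (k.factorial * j.factorial) := by
    rw [eq_div_iff (mul_ne_zero h1 h2), ← mul_assoc]
    exact h5
  rw [h6]
  field_simp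

lemma iter_comm (n m : ℕ) (a : A) :
    (DD.D (A := A))^[n] ((DD.E (A := A))^[m] a) = (DD.E (A := A))^[m] ((DD.D (A := A))^[n] a) := by
  have h : Function.Commute (DD.D (A := A)) (DD.E (A := A)) := fun x => DD.comm x
  exact h.iterate_iterate n m a

lemma dp_comm (n m : ℕ) (a : A) :
    dp DD.D n (dp DD.E m a) = dp DD.E m (dp DD.D n a) := by
  rw [dp, dp, iter_smul, iter_comm, dp, dp, iter_smul, smul_comm]

/-- The bidifferential operators of the star product. -/
noncomputable def bn (n : ℕ) (a b : A) : A :=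
  ((n.factorial : ℕ) : ℚ) • (dp DD.D n a * dp DD.E n b)

lemma bn_zero (a b : A) : bn 0 a b = a * b := by simp [bn, dp_zero]

lemma bn_add_left (n : ℕ) (a b c : A) : bn n (a + b) c = bn n a c + bn n b c := by
  rw [bn, dp_add, add_mul, smul_add]; rfl

lemma bn_add_right (n : ℕ) (a b c : A) : bn n a (b + c) = bn n a b + bn n a c := by
  rw [bn, dp_add, mul_add, smul_add]; rfl

lemma bn_zero_left (n : ℕ) (b : A) : bn n 0 b = 0 := by
  rw [bn, dp_zero_arg, zero_mul, smul_zero]

lemma bn_zero_right (n : ℕ) (a : A) : bn n a 0 = 0 := by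
  rw [bn, dp_zero_arg, mul_zero, smul_zero]

omit [Algebra ℚ A] [DD A] in
/-- Cyclic symmetry of sums over triples of given sum. -/
lemma sum_triple (N : ℕ) (f : ℕ → ℕ → ℕ → A) :
    ∑ p ∈ antidiagonal N, ∑ q ∈ antidiagonal p.1, f q.1 q.2 p.2 =
    ∑ p ∈ antidiagonal N, ∑ q ∈ antidiagonal p.1, f q.2 p.2 q.1 := by
  rw [Finset.sum_sigma', Finset.sum_sigma']
  refine Finset.sum_nbij' (fun x => ⟨(x.1.2 + x.2.1, x.2.2), (x.1.2, x.2.1)⟩)
    (fun x => ⟨(x.2.2 + x.1.2, x.2.1), (x.2.2, x.1.2)⟩) ?_ ?_ ?_ ?_ ?_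
  · rintro ⟨⟨a, j⟩, ⟨k, l⟩⟩ h
    rw [mem_sigma, mem_antidiagonal, mem_antidiagonal] at h
    obtain ⟨h1, h2⟩ := h
    change a + j = N at h1
    change k + l = a at h2
    rw [mem_sigma, mem_antidiagonal, mem_antidiagonal]
    refine ⟨?_, rfl⟩
    show (j + k) + l = N
    omega
  · rintro ⟨⟨a, j⟩, ⟨k, l⟩⟩ h
    rw [mem_sigma, mem_antidiagonal, mem_antidiagonal] at h
    obtain ⟨h1, h2⟩ := h
    change a + j = N at h1
    change k + l = a at h2
    rw [mem_sigma, mem_antidiagonal, mem_antidiagonal]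
    refine ⟨?_, rfl⟩
    show (l + j) + k = N
    omega
  · rintro ⟨⟨a, j⟩, ⟨k, l⟩⟩ h
    simp only [mem_sigma, mem_antidiagonal] at h
    obtain ⟨_, h2⟩ := h
    subst h2
    rfl
  · rintro ⟨⟨a, j⟩, ⟨k, l⟩⟩ h
    simp only [mem_sigma, mem_antidiagonal] at h
    obtain ⟨_, h2⟩ := h
    subst h2
    rfl
  · rintro ⟨⟨a, j⟩, ⟨k, l⟩⟩ h
    rfl

/-- The associativity identity. -/
theorem bn_assoc (N : ℕ) (a b c : A) :
    ∑ p ∈ antidiagonal N, bn p.1 (bn p.2 a b) c = ∑ p ∈ antidiagonal N, bn p.1 a (bn p.2 b c) := by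
  have hL : ∀ i j : ℕ, bn i (bn j a b) c = ∑ q ∈ antidiagonal i,
      (((i.factorial * j.factorial * (q.1 + j).choose q.1 : ℕ) : ℚ)) •
        (dp DD.D (q.1 + j) a * dp DD.D q.2 (dp DD.E j b) * dp DD.E i c) := by
    intro i j
    rw [bn, bn, dp_smul, dp_mul, smul_sum, sum_mul, smul_sum]
    apply sum_congr rfl
    intro q _
    rw [dp_dp]
    push_cast
    simp only [smul_mul_assoc, smul_smul]
    congr 1
    ring
  have hR : ∀ i j : ℕ, bn i a (bn j b c) = ∑ q ∈ antidiagonal i,
      (((i.factorial * j.factorial * (q.2 + j).choose q.2 : ℕ) : ℚ)) •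
        (dp DD.D i a * dp DD.E q.1 (dp DD.D j b) * dp DD.E (q.2 + j) c) := by
    intro i j
    rw [bn, bn, dp_smul, dp_mul, smul_sum, mul_sum, smul_sum]
    apply sum_congr rfl
    intro q _
    rw [dp_dp]
    push_cast
    simp only [mul_smul_comm, smul_smul, mul_assoc]
  simp only [hL, hR]
  -- both sides are sums over triples
  have h1 : ∑ p ∈ antidiagonal N, ∑ q ∈ antidiagonal p.1,
      (((p.1.factorial * p.2.factorial * (q.1 + p.2).choose q.1 : ℕ) : ℚ)) •
        (dp DD.D (q.1 + p.2) a * dp DD.D q.2 (dp DD.E p.2 b) * dp DD.E p.1 c) =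
      ∑ p ∈ antidiagonal N, ∑ q ∈ antidiagonal p.1,
      ((((q.1 + q.2).factorial * p.2.factorial * (q.1 + p.2).choose q.1 : ℕ) : ℚ)) •
        (dp DD.D (q.1 + p.2) a * dp DD.D q.2 (dp DD.E p.2 b) * dp DD.E (q.1 + q.2) c) := by
    apply sum_congr rfl
    intro p _
    apply sum_congr rfl
    intro q hq
    rw [mem_antidiagonal.mp hq]
  have h2 : ∑ p ∈ antidiagonal N, ∑ q ∈ antidiagonal p.1,
      (((p.1.factorial * p.2.factorial * (q.2 + p.2).choose q.2 : ℕ) : ℚ)) •
        (dp DD.D p.1 a * dp DD.E q.1 (dp DD.D p.2 b) * dp DD.E (q.2 + p.2) c) =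
      ∑ p ∈ antidiagonal N, ∑ q ∈ antidiagonal p.1,
      ((((q.1 + q.2).factorial * p.2.factorial * (q.2 + p.2).choose q.2 : ℕ) : ℚ)) •
        (dp DD.D (q.1 + q.2) a * dp DD.E q.1 (dp DD.D p.2 b) * dp DD.E (q.2 + p.2) c) := by
    apply sum_congr rfl
    intro p _
    apply sum_congr rfl
    intro q hq
    rw [mem_antidiagonal.mp hq]
  rw [h1, h2]
  rw [sum_triple N (fun k l j => ((((k + l).factorial * j.factorial * (k + j).choose k : ℕ) : ℚ)) •
        (dp DD.D (k + j) a * dp DD.D l (dp DD.E j b) * dp DD.E (k + l) c))]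
  apply sum_congr rfl
  intro p _
  apply sum_congr rfl
  intro q _
  rw [dp_comm, add_comm q.2 q.1]
  congr 2
  -- factorial bookkeeping
  have e1 : (q.1 + q.2).choose q.2 * q.2.factorial * q.1.factorial = (q.1 + q.2).factorial := by
    have := Nat.choose_mul_factorial_mul_factorial (Nat.le_add_left q.2 q.1)
    rwa [Nat.add_sub_cancel] at this
  have e2 : (q.2 + p.2).choose q.2 * q.2.factorial * p.2.factorial = (q.2 + p.2).factorial := by
    have := Nat.choose_mul_factorial_mul_factorial (Nat.le_add_right q.2 p.2)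
    rwa [Nat.add_sub_cancel_left] at this
  have e3 : 0 < q.2.factorial := Nat.factorial_pos _
  apply Nat.eq_of_mul_eq_mul_right e3
  calc (q.2 + p.2).factorial * q.1.factorial * (q.1 + q.2).choose q.2 * q.2.factorial
      = (q.2 + p.2).factorial * ((q.1 + q.2).choose q.2 * q.2.factorial * q.1.factorial) := by ring
    _ = (q.2 + p.2).factorial * (q.1 + q.2).factorial := by rw [e1]
    _ = ((q.2 + p.2).choose q.2 * q.2.factorial * p.2.factorial) * (q.1 + q.2).factorial := by
        rw [e2]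
    _ = _ := by ring

end

end Pool.Agent.LibStar
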