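import Pool.Agent.Lib_MP_4b1745_al.Zorn
import Mathlib.Algebra.Field.Basic
import Mathlib.Algebra.Ring.Subring.Basic

/-! # `St A` is a division ring, and its centre -/

set_option autoImplicit false
set_option linter.unusedSectionVars false

namespace Pool.Agent.LibStar

open Finset St

section inverse

variable {A : Type*} [Field A] [Algebra ℚ A] [DD A]

theorem exists_right_inv (a : St A) (ha : a ≠ 0) : ∃ x, a * x = 1 := by
  by_contra hcon
  push Not at hcon
  obtain ⟨v, hv1, hv2⟩ := exists_lead ha
  have hne : ∀ x, 1 - a * x ≠ 0 := fun x h => hcon x (sub_eq_zero.mp h).symm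
  let adm : (Unit → St A) → ℚ → Prop := fun x s =>
    VG (1 - a * x ()) (v + s) ∧ co (1 - a * x ()) (v + s) ≠ 0
  have hex : ∀ x, ∃ s, adm x s := by
    intro x
    obtain ⟨w, hw1, hw2⟩ := exists_lead (hne (x ()))
    refine ⟨w - v, ?_, ?_⟩
    · rw [add_sub_cancel]
      exact hw1
    · rw [add_sub_cancel]
      exact hw2
  have hdiff : ∀ x y : Unit → St A, 1 - a * y () = (1 - a * x ()) - a * (y () - x ()) := by
    intro x y
    rw [mul_sub]
    abel
  apply no_improvement (B := A) (ι := Unit) adm
  · obtain ⟨s, hs⟩ := hex (fun _ => 0)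
    exact ⟨fun _ => 0, s, hs⟩
  · intro y
    obtain ⟨t, ht⟩ := hex y
    refine ⟨t, ht, fun x s hx hxy => ?_⟩
    by_contra h
    apply ht.2
    rw [hdiff x y, co_sub, hx.1 _ (by linarith [not_le.mp h]),
      hv1.mul (hxy ()) _ (by linarith [not_le.mp h]), sub_zero]
  · intro x s hx
    let y : Unit → St A := fun _ => x () + mono s (co (1 - a * x ()) (v + s) / co a v)
    obtain ⟨t, ht⟩ := hex y
    have e : ∀ i, y i - x i = mono s (co (1 - a * x ()) (v + s) / co a v) := by
      intro i
      simp only [y]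
      abel
    refine ⟨y, t, ht, ?_, ?_⟩
    · by_contra h
      apply ht.2
      rw [hdiff x y, e, co_sub]
      rcases lt_or_eq_of_le (not_lt.mp h) with h' | h'
      · rw [hx.1 _ (by linarith), hv1.mul (VG_mono s _) _ (by linarith), sub_zero]
      · rw [h', co_mul_lead hv1 (VG_mono s _), co_mono_same, mul_div_cancel₀ _ hv2, sub_self]
    · intro i
      rw [e]
      exact VG_mono s _

/-- the division ring structure -/
noncomputable instance : DivisionRing (St A) :=
  DivisionRing.ofIsUnitOrEqZero (fun a => by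
    by_cases ha : a = 0
    · exact Or.inr ha
    · left
      obtain ⟨x, hx⟩ := exists_right_inv a ha
      have hx0 : x ≠ 0 := by
        rintro rfl
        rw [mul_zero] at hx
        exact zero_ne_one hx
      obtain ⟨y, hy⟩ := exists_right_inv x hx0
      have hay : a = y := by
        calc a = a * (x * y) := by rw [hy, mul_one]
          _ = y := by rw [← mul_assoc, hx, one_mul]
      rw [← hay] at hy
      exact ⟨⟨a, x, hx, hy⟩, rfl⟩)

end inverse

section center

variable {A : Type*} [CommRing A] [Algebra ℚ A] [DD A]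

lemma bn_one (a b : A) : bn 1 a b = DD.D a * DD.E b := by
  simp [bn, dp]

lemma co_mul_mono_next {z : St A} {w : ℚ} (hz : VG z w) (a : A) :
    co (z * mono 0 a) (w + 1) = co z (w + 1) * a + DD.D (co z w) * DD.E a := by
  have h := star_coeff (A := A) (x := toH z) (y := toH (mono 0 a)) hz (VG_mono 0 a) (γ := w + 1)
    (M := 2) (by push_cast; linarith)
  change (star (toH z) (toH (mono 0 a))).coeff (w + 1) = _
  have h0 : ∀ γ, (toH z * toH (mono 0 a)).coeff γ = co z γ * a := by
    intro γ
    exact HahnSeries.coeff_mul_single_zero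
  have h1 : (toH (mono 0 a) : HahnSeries ℚ A) = HahnSeries.single 0 a := rfl
  have h2 : DD.E (HahnSeries.single 0 a : HahnSeries ℚ A) = HahnSeries.single 0 (DD.E a) := by
    ext γ
    rw [E_coeff, HahnSeries.coeff_single, HahnSeries.coeff_single]
    split_ifs
    · rfl
    · exact map_zero _
  rw [h, sum_range_succ, sum_range_one, bn_zero, bn_one, h0, h1, h2, Nat.cast_zero, sub_zero,
    HahnSeries.coeff_mul_single_zero, D_coeff, Nat.cast_one, add_sub_cancel_right]
  rfl

lemma co_mono_mul_next {z : St A} {w : ℚ} (hz : VG z w) (a : A) :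
    co (mono 0 a * z) (w + 1) = a * co z (w + 1) + DD.D a * DD.E (co z w) := by
  have h := star_coeff (A := A) (x := toH (mono 0 a)) (y := toH z) (VG_mono 0 a) hz (γ := w + 1)
    (M := 2) (by push_cast; linarith)
  change (star (toH (mono 0 a)) (toH z)).coeff (w + 1) = _
  have h0 : ∀ γ, (toH (mono 0 a) * toH z).coeff γ = a * co z γ := by
    intro γ
    exact HahnSeries.coeff_single_zero_mul
  have h1 : (toH (mono 0 a) : HahnSeries ℚ A) = HahnSeries.single 0 a := rfl
  have h2 : DD.D (HahnSeries.single 0 a : HahnSeries ℚ A) = HahnSeries.single 0 (DD.D a) := by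
    ext γ
    rw [D_coeff, HahnSeries.coeff_single, HahnSeries.coeff_single]
    split_ifs
    · rfl
    · exact map_zero _
  rw [h, sum_range_succ, sum_range_one, bn_zero, bn_one, h0, h1, h2, Nat.cast_zero, sub_zero,
    HahnSeries.coeff_single_zero_mul, E_coeff, Nat.cast_one, add_sub_cancel_right]
  rfl

/-- coefficients of central elements are constants, under a non-degeneracy assumption -/
theorem const_of_central (hnd : ∀ u : A, (∀ a, DD.D u * DD.E a = DD.D a * DD.E u) →
      DD.D u = 0 ∧ DD.E u = 0) {z : St A} (hz : ∀ x, z * x = x * z) (γ : ℚ) :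
    DD.D (co z γ) = 0 ∧ DD.E (co z γ) = 0 := by
  classical
  by_contra hγ
  have hbad : {γ | ¬(DD.D (co z γ) = 0 ∧ DD.E (co z γ) = 0)}.IsWF := by
    apply (supp_pwo z).isWF.mono
    intro δ hδ h
    apply hδ
    rw [h, map_zero, map_zero]
    exact ⟨rfl, rfl⟩
  have hbadne : {γ | ¬(DD.D (co z γ) = 0 ∧ DD.E (co z γ) = 0)}.Nonempty := ⟨γ, hγ⟩
  obtain ⟨w, hw1, hw2⟩ : ∃ w, ¬(DD.D (co z w) = 0 ∧ DD.E (co z w) = 0) ∧
      ∀ δ < w, DD.D (co z δ) = 0 ∧ DD.E (co z δ) = 0 := by
    refine ⟨hbad.min hbadne, hbad.min_mem hbadne, ?_⟩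
    intro δ hδ
    by_contra h
    exact absurd (hbad.min_le hbadne h) (not_le.mpr hδ)
  let z1 : St A := restr {δ | δ < w} z
  have hz1 : ∀ x, z1 * x = x * z1 := by
    apply central_of_const
    · intro δ
      by_cases h : δ < w
      · rw [co_restr_mem (Ψ := {δ | δ < w}) h]
        exact (hw2 δ h).1
      · rw [co_restr_notMem (Ψ := {δ | δ < w}) h, map_zero]
    · intro δ
      by_cases h : δ < w
      · rw [co_restr_mem (Ψ := {δ | δ < w}) h]
        exact (hw2 δ h).2
      · rw [co_restr_notMem (Ψ := {δ | δ < w}) h, map_zero]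
  have hz2 : ∀ x, (z - z1) * x = x * (z - z1) := by
    intro x
    rw [sub_mul, mul_sub, hz, hz1]
  have hV : VG (z - z1) w := by
    intro δ hδ
    rw [co_sub, co_restr_mem (Ψ := {δ | δ < w}) hδ, sub_self]
  have hc : co (z - z1) w = co z w := by
    rw [co_sub, co_restr_notMem (Ψ := {δ | δ < w}) (lt_irrefl w), sub_zero]
  apply hw1
  apply hnd
  intro a
  have h1 := co_mul_mono_next hV a
  have h2 := co_mono_mul_next hV a
  rw [hz2, h2, hc, mul_comm a] at h1
  exact (add_left_cancel h1).symm

end center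

end Pool.Agent.LibStar
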