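import Pool.Agent.Lib_MP_4b1745_al.Kx
import Mathlib.Algebra.FreeAlgebra
import Mathlib.Algebra.Polynomial.Eval.Degree
import Mathlib.Algebra.Polynomial.Roots

/-! # Evaluation of non-commutative polynomials in `St` rings -/

set_option autoImplicit false
set_option linter.unusedSectionVars false

namespace Pool.Agent.LibStar

open Finset St

/-- non-commutative polynomials with coefficients in `St K`, before imposing relations -/
abbrev FA (K : Type*) [CommRing K] := FreeAlgebra ℤ (St K ⊕ ℕ)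

lemma FA_ext {K : Type*} [CommRing K] {S : Type*} [Ring S] {f g : FA K →+* S}
    (h : ∀ x, f (FreeAlgebra.ι ℤ x) = g (FreeAlgebra.ι ℤ x)) : f = g := by
  apply RingHom.ext
  intro p
  induction p using FreeAlgebra.induction with
  | grade0 r => simp
  | grade1 x => exact h x
  | mul a b ha hb => rw [map_mul, map_mul, ha, hb]
  | add a b ha hb => rw [map_add, map_add, ha, hb]

section ev

variable {K B C : Type*} [CommRing K] [Algebra ℚ K] [DD K] [CommRing B] [Algebra ℚ B] [DD B]
  [CommRing C] [Algebra ℚ C] [DD C]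

/-- evaluation -/
noncomputable def ev (φ : DDHom K B) (x : ℕ → St B) : FA K →+* St B :=
  (FreeAlgebra.lift ℤ (Sum.elim (fun r => St.map φ r) x) : FA K →ₐ[ℤ] St B).toRingHom

@[simp] lemma ev_inl (φ : DDHom K B) (x : ℕ → St B) (r : St K) :
    ev φ x (FreeAlgebra.ι ℤ (Sum.inl r)) = St.map φ r := by
  change FreeAlgebra.lift ℤ _ _ = _
  rw [FreeAlgebra.lift_ι_apply]; rfl

@[simp] lemma ev_inr (φ : DDHom K B) (x : ℕ → St B) (i : ℕ) :
    ev φ x (FreeAlgebra.ι ℤ (Sum.inr i)) = x i := by
  change FreeAlgebra.lift ℤ _ _ = _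
  rw [FreeAlgebra.lift_ι_apply]; rfl

lemma map_ev (ψ : DDHom B C) (φ : DDHom K B) (x : ℕ → St B) (f : FA K) :
    St.map ψ (ev φ x f) = ev (ψ.comp φ) (fun i => St.map ψ (x i)) f := by
  have : (St.map ψ).comp (ev φ x) = ev (ψ.comp φ) (fun i => St.map ψ (x i)) := by
    apply FA_ext
    rintro (r | i)
    · rw [RingHom.comp_apply, ev_inl, ev_inl, St.map_map]
    · rw [RingHom.comp_apply, ev_inr, ev_inr]
  exact congrArg (fun g => g f) this

/-- evaluation along a line -/
noncomputable def evL (φ : DDHom K B) (x y : ℕ → St B) : FA K →+* Polynomial (St B) :=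
  (FreeAlgebra.lift ℤ (Sum.elim (fun r => Polynomial.C (St.map φ r))
    (fun i => Polynomial.C (x i) + Polynomial.C (y i) * Polynomial.X)) :
      FA K →ₐ[ℤ] Polynomial (St B)).toRingHom

@[simp] lemma evL_inl (φ : DDHom K B) (x y : ℕ → St B) (r : St K) :
    evL φ x y (FreeAlgebra.ι ℤ (Sum.inl r)) = Polynomial.C (St.map φ r) := by
  change FreeAlgebra.lift ℤ _ _ = _
  rw [FreeAlgebra.lift_ι_apply]; rfl

@[simp] lemma evL_inr (φ : DDHom K B) (x y : ℕ → St B) (i : ℕ) :
    evL φ x y (FreeAlgebra.ι ℤ (Sum.inr i)) =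
      Polynomial.C (x i) + Polynomial.C (y i) * Polynomial.X := by
  change FreeAlgebra.lift ℤ _ _ = _
  rw [FreeAlgebra.lift_ι_apply]; rfl

/-- specialisation of the line parameter to a central element -/
lemma evL_eval (φ : DDHom K B) (x y : ℕ → St B) (t : St B) (ht : ∀ a, Commute a t) (f : FA K) :
    (evL φ x y f).eval₂ (RingHom.id _) t = ev φ (fun i => x i + y i * t) f := by
  have : (Polynomial.eval₂RingHom' (RingHom.id (St B)) t ht).comp (evL φ x y) =
      ev φ (fun i => x i + y i * t) := by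
    apply FA_ext
    rintro (r | i)
    · rw [RingHom.comp_apply, ev_inl, evL_inl]
      exact Polynomial.eval₂_C _ _
    · rw [RingHom.comp_apply, ev_inr, evL_inr, map_add, map_mul]
      change Polynomial.eval₂ _ _ _ + Polynomial.eval₂ _ _ _ * Polynomial.eval₂ _ _ _ = _
      rw [Polynomial.eval₂_C, Polynomial.eval₂_C, Polynomial.eval₂_X]
      rfl
  exact congrArg (fun g => g f) this

lemma evL_sum (φ : DDHom K B) (x y : ℕ → St B) (t : St B) (ht : ∀ a, Commute a t) (f : FA K)
    {n : ℕ} (hn : (evL φ x y f).natDegree < n) :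
    ev φ (fun i => x i + y i * t) f = ∑ j ∈ range n, (evL φ x y f).coeff j * t ^ j := by
  rw [← evL_eval φ x y t ht, Polynomial.eval₂_eq_sum_range' _ hn]
  rfl

lemma evL_zero (φ : DDHom K B) (x y : ℕ → St B) (f : FA K) :
    ev φ x f = (evL φ x y f).coeff 0 := by
  have h := evL_eval φ x y 0 (fun a => Commute.zero_right a) f
  simp only [mul_zero, add_zero] at h
  rw [← h, Polynomial.eval₂_at_zero]
  rfl

end ev

section vander

/-- Vandermonde argument -/
lemma vander {B : Type*} [CommRing B] [IsDomain B] [CharZero B] {n : ℕ} {c : ℕ → B}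
    (h : ∀ t : ℕ, ∑ j ∈ range n, c j * (t : B) ^ j = 0) : ∀ j < n, c j = 0 := by
  have hp : (∑ j ∈ range n, Polynomial.C (c j) * Polynomial.X ^ j : Polynomial B) = 0 := by
    apply Polynomial.eq_zero_of_infinite_isRoot
    apply Set.infinite_of_injective_forall_mem (f := fun t : ℕ => (t : B)) Nat.cast_injective
    intro t
    change Polynomial.eval _ _ = 0
    rw [Polynomial.eval_finsetSum]
    simpa using h t
  intro j hj
  have h2 := congrArg (fun p : Polynomial B => p.coeff j) hp
  simp only [Polynomial.finsetSum_coeff, Polynomial.coeff_C_mul, Polynomial.coeff_X_pow,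
    Polynomial.coeff_zero] at h2
  rw [sum_eq_single j] at h2
  · simpa using h2
  · intro i _ hi
    rw [if_neg (Ne.symm hi), mul_zero]
  · intro hj2
    exact absurd (mem_range.mpr hj) hj2

end vander

section natparam

variable {B : Type*} [CommRing B] [Algebra ℚ B] [DD B]

lemma co_nsmul (n : ℕ) (x : St B) (γ : ℚ) : co (n • x) γ = n • co x γ :=
  map_nsmul (coHom γ) n x

lemma co_mul_natCast (x : St B) (n : ℕ) (γ : ℚ) : co (x * (n : St B)) γ = co x γ * (n : B) := by
  rw [← (Nat.cast_commute n x).eq, ← nsmul_eq_mul, co_nsmul, nsmul_eq_mul, mul_comm]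

lemma map_natCast_pow (x : St B) (n j : ℕ) (γ : ℚ) :
    co (x * (n : St B) ^ j) γ = co x γ * (n : B) ^ j := by
  rw [← Nat.cast_pow, co_mul_natCast, Nat.cast_pow]

end natparam

section FD

variable {K B : Type*} [CommRing K] [Algebra ℚ K] [DD K] [CommRing B] [Algebra ℚ B] [DD B]

open Classical in
/-- restriction of the support -/
noncomputable def restr (Ψ : Set ℚ) (x : St B) : St B :=
  St.mk (fun γ => if γ ∈ Ψ then co x γ else 0) (by
    apply (supp_pwo x).mono
    intro γ hγ
    rw [Set.mem_ofPred_eq] at hγ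
    intro h
    apply hγ
    split_ifs
    · exact h
    · rfl)

lemma co_restr_mem {Ψ : Set ℚ} {γ : ℚ} (h : γ ∈ Ψ) (x : St B) : co (restr Ψ x) γ = co x γ := by
  rw [restr, co_mk, if_pos h]

lemma co_restr_notMem {Ψ : Set ℚ} {γ : ℚ} (h : γ ∉ Ψ) (x : St B) : co (restr Ψ x) γ = 0 := by
  rw [restr, co_mk, if_neg h]

lemma restr_univ (x : St B) : restr Set.univ x = x := by
  ext γ
  exact co_restr_mem (Set.mem_univ γ) x

lemma restr_empty (x : St B) : restr ∅ x = 0 := by
  ext γ
  rw [co_restr_notMem (Set.notMem_empty γ), co_zero]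

lemma restr_insert {Ψ : Set ℚ} {a : ℚ} (ha : a ∉ Ψ) (x : St B) :
    restr (insert a Ψ) x = restr Ψ x + mono a (co x a) := by
  ext γ
  rw [co_add, co_mono]
  by_cases h : γ = a
  · subst h
    rw [if_pos rfl, co_restr_mem (Set.mem_insert _ _), co_restr_notMem ha, zero_add]
  · rw [if_neg h, add_zero]
    by_cases h' : γ ∈ Ψ
    · rw [co_restr_mem h', co_restr_mem (Set.mem_insert_of_mem _ h')]
    · rw [co_restr_notMem h', co_restr_notMem]
      intro h2
      rcases h2 with h2 | h2
      · exact h h2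
      · exact h' h2

/-- finite dependency -/
theorem FD (φ : DDHom K B) (x δ : ℕ → St B) (f : FA K) :
    ∃ S : Set ℚ, S.IsPWO ∧ (∀ Ψ : Set ℚ, supp (ev φ (fun i => x i + restr Ψ (δ i)) f) ⊆ S) ∧
      ∀ γ, ∃ Φ : Finset ℚ, ∀ Ψ : Set ℚ, (Φ : Set ℚ) ⊆ Ψ →
        co (ev φ (fun i => x i + restr Ψ (δ i)) f) γ =
          co (ev φ (fun i => x i + restr Set.univ (δ i)) f) γ := by
  classical
  induction f using FreeAlgebra.induction with
  | grade0 r =>
    refine ⟨supp ((r : ℤ) : St B), supp_pwo _, ?_, ?_⟩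
    · intro Ψ
      simp
    · intro γ
      refine ⟨∅, fun Ψ _ => ?_⟩
      simp
  | grade1 s =>
    rcases s with r | i
    · refine ⟨supp (St.map φ r), supp_pwo _, ?_, ?_⟩
      · intro Ψ
        rw [ev_inl]
      · intro γ
        refine ⟨∅, fun Ψ _ => ?_⟩
        rw [ev_inl, ev_inl]
    · refine ⟨supp (x i) ∪ supp (δ i), (supp_pwo _).union (supp_pwo _), ?_, ?_⟩
      · intro Ψ γ hγ
        by_contra h
        rw [Set.mem_union, not_or] at h
        apply hγ
        have h1 : co (x i) γ = 0 := not_not.mp h.1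
        have h2 : co (δ i) γ = 0 := not_not.mp h.2
        rw [ev_inr, co_add, h1, zero_add]
        by_cases h' : γ ∈ Ψ
        · rw [co_restr_mem h', h2]
        · rw [co_restr_notMem h']
      · intro γ
        refine ⟨{γ}, fun Ψ hΨ => ?_⟩
        rw [ev_inr, ev_inr, co_add, co_add, co_restr_mem (hΨ (by simp)),
          co_restr_mem (Set.mem_univ _)]
  | mul a b ha hb =>
    obtain ⟨S, hS, h1, h2⟩ := ha
    obtain ⟨T, hT, h3, h4⟩ := hb
    open Pointwise in
    refine ⟨(S + T) + Set.range ((↑) : ℕ → ℚ), (hS.add hT).add isPWO_nat, ?_, ?_⟩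
    · intro Ψ
      rw [map_mul]
      exact supp_mul (h1 Ψ) (h3 Ψ)
    · intro γ
      obtain ⟨P, Q, hPQ⟩ := mul_agree (A := B) hS hT γ
      choose F1 hF1 using h2
      choose F2 hF2 using h4
      refine ⟨P.biUnion F1 ∪ Q.biUnion F2, fun Ψ hΨ => ?_⟩
      rw [map_mul, map_mul]
      apply hPQ _ _ _ _ (h1 _) (h1 _) (h3 _) (h3 _)
      · intro i hi
        apply hF1
        intro z hz
        apply hΨ
        exact mem_coe.mpr (mem_union_left _ (mem_biUnion.mpr ⟨i, hi, hz⟩))
      · intro i hi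
        apply hF2
        intro z hz
        apply hΨ
        exact mem_coe.mpr (mem_union_right _ (mem_biUnion.mpr ⟨i, hi, hz⟩))
  | add a b ha hb =>
    obtain ⟨S, hS, h1, h2⟩ := ha
    obtain ⟨T, hT, h3, h4⟩ := hb
    refine ⟨S ∪ T, hS.union hT, ?_, ?_⟩
    · intro Ψ γ hγ
      rw [map_add] at hγ
      by_contra h
      rw [Set.mem_union, not_or] at h
      apply hγ
      have e1 : co (ev φ (fun i => x i + restr Ψ (δ i)) a) γ = 0 := by
        by_contra e
        exact h.1 (h1 Ψ e)
      have e2 : co (ev φ (fun i => x i + restr Ψ (δ i)) b) γ = 0 := by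
        by_contra e
        exact h.2 (h3 Ψ e)
      rw [co_add, e1, e2, add_zero]
    · intro γ
      obtain ⟨F1, hF1⟩ := h2 γ
      obtain ⟨F2, hF2⟩ := h4 γ
      refine ⟨F1 ∪ F2, fun Ψ hΨ => ?_⟩
      rw [map_add, map_add, co_add, co_add, hF1 Ψ, hF2 Ψ]
      · intro z hz
        exact hΨ (mem_coe.mpr (mem_union_right _ hz))
      · intro z hz
        exact hΨ (mem_coe.mpr (mem_union_left _ hz))

end FD

end Pool.Agent.LibStar
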