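import Pool.Agent.Lib_MP_4b1745_al.KE2

/-!
# Existence of the field: the chain and its limit
-/

namespace Pool.Agent.LibStar.KE

open MvPolynomial

/-- A field of characteristic zero with two commuting derivations. -/
structure DD where
  /-- the field -/
  K : Type
  [fld : Field K]
  [ch : CharZero K]
  /-- first derivation -/
  D : Derivation ℤ K K
  /-- second derivation -/
  E : Derivation ℤ K K
  comm : ∀ a, D (E a) = E (D a)

attribute [instance] DD.fld DD.ch

/-- `T` solves all equations over `S` along `f`. -/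
structure Good (S T : DD) (f : S.K →+* T.K) : Prop where
  hD : ∀ a, T.D (f a) = f (S.D a)
  hE : ∀ a, T.E (f a) = f (S.E a)
  solve : ∀ N : MvPolynomial (ℕ × ℕ) S.K, N ∉ Set.range MvPolynomial.C →
    ∃ u : T.K, eval₂ f (fun ij : ℕ × ℕ => T.D^[ij.1] (T.E^[ij.2] u)) N = 0

theorem charZero_frac (F : Type) [Field F] [CharZero F] :
    CharZero (FractionRing (MvPowerSeries (Fin 2) F)) := by
  have h1 : CharZero (MvPowerSeries (Fin 2) F) :=
    charZero_of_injective_ringHom (f := (MvPowerSeries.C : F →+* MvPowerSeries (Fin 2) F))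
      (RingHom.injective _)
  exact charZero_of_injective_ringHom
    (f := algebraMap (MvPowerSeries (Fin 2) F) (FractionRing (MvPowerSeries (Fin 2) F)))
    (IsFractionRing.injective _ _)

/-- A derivation from a function. -/
def mkDer {A : Type} [CommRing A] (d : A → A) (hadd : ∀ x y, d (x + y) = d x + d y)
    (hmul : ∀ x y, d (x * y) = x * d y + y * d x) : Derivation ℤ A A :=
  Derivation.mk' (AddMonoidHom.toIntLinearMap (AddMonoidHom.mk' d hadd)) hmul

theorem mkDer_apply {A : Type} [CommRing A] (d : A → A) (hadd : ∀ x y, d (x + y) = d x + d y)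
    (hmul : ∀ x y, d (x * y) = x * d y + y * d x) (x : A) : mkDer d hadd hmul x = d x := rfl

/-- Two commuting additive maps with the Leibniz rule extend to the fraction field. -/
theorem exists_frac {A : Type} [CommRing A] {L : Type} [Field L] [Algebra A L]
    [IsFractionRing A L] (d e : A → A) (hd : ∀ x y, d (x + y) = d x + d y)
    (hd' : ∀ x y, d (x * y) = x * d y + y * d x) (he : ∀ x y, e (x + y) = e x + e y)
    (he' : ∀ x y, e (x * y) = x * e y + y * e x) (hde : ∀ x, d (e x) = e (d x)) :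
    ∃ D' E' : Derivation ℤ L L, (∀ a, D' (algebraMap A L a) = algebraMap A L (d a)) ∧
      (∀ a, E' (algebraMap A L a) = algebraMap A L (e a)) ∧ ∀ a, D' (E' a) = E' (D' a) :=
  ⟨fracDer L (mkDer d hd hd'), fracDer L (mkDer e he he'), fracDer_algebraMap _,
    fracDer_algebraMap _, fracDer_comm _ _ hde⟩

theorem exists_next_aux {K F L : Type} [Field K] [CharZero K] [Field F] [CharZero F]
    [IsAlgClosed F] [Algebra K F] {D E : Derivation ℤ K K} (hDE : ∀ a, D (E a) = E (D a))
    [Field L] [Algebra (MvPowerSeries (Fin 2) F) L]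
    [IsFractionRing (MvPowerSeries (Fin 2) F) L] :
    ∃ (D' E' : Derivation ℤ L L) (f : K →+* L), (∀ a, D' (E' a) = E' (D' a)) ∧
      (∀ a, D' (f a) = f (D a)) ∧ (∀ a, E' (f a) = f (E a)) ∧
      ∀ N : MvPolynomial (ℕ × ℕ) K, N ∉ Set.range MvPolynomial.C →
        ∃ u : L, eval₂ f (fun ij : ℕ × ℕ => D'^[ij.1] (E'^[ij.2] u)) N = 0 := by
  obtain ⟨D', E', hD', hE', hcomm⟩ := exists_frac (A := MvPowerSeries (Fin 2) F) (L := L)
    (pd F 0) (pd F 1) (map_add _) (fun x y => (pd F 0).leibniz x y) (map_add _)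
    (fun x y => (pd F 1).leibniz x y) (fun a => pd_comm 0 1 a)
  let φ : MvPowerSeries (Fin 2) F →+* L := algebraMap (MvPowerSeries (Fin 2) F) L
  refine ⟨D', E', φ.comp (taylor (algebraMap K F) hDE), hcomm, ?_, ?_, ?_⟩
  · intro a
    rw [RingHom.comp_apply, RingHom.comp_apply, taylor_apply, taylor_apply,
      ← pd0_taylorFun _ hDE]
    exact hD' _
  · intro a
    rw [RingHom.comp_apply, RingHom.comp_apply, taylor_apply, taylor_apply,
      ← pd1_taylorFun]
    exact hE' _
  · intro N hN
    obtain ⟨u, hu⟩ := exists_solution (F := F) hDE N hN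
    refine ⟨φ u, ?_⟩
    have h1 : (φ.comp (evS (algebraMap K F) hDE u)) =
        eval₂Hom (φ.comp (taylor (algebraMap K F) hDE))
          (fun ij : ℕ × ℕ => D'^[ij.1] (E'^[ij.2] (φ u))) := by
      apply MvPolynomial.ringHom_ext
      · intro a
        rw [RingHom.comp_apply, evS, eval₂Hom_C, eval₂Hom_C]
        rfl
      · rintro ⟨i, j⟩
        rw [RingHom.comp_apply, evS, eval₂Hom_X', eval₂Hom_X']
        have hD : Function.Semiconj φ (pd F 0) D' := fun x => (hD' x).symm
        have hE : Function.Semiconj φ (pd F 1) E' := fun x => (hE' x).symm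
        change φ ((pd F 0)^[i] ((pd F 1)^[j] u)) = _
        rw [(hD.iterate_right i).eq, (hE.iterate_right j).eq]
    have h2 := congrArg (fun g => g N) h1
    simp only [RingHom.comp_apply, hu, map_zero, coe_eval₂Hom] at h2
    exact h2.symm

theorem exists_next (S : DD) : ∃ (T : DD) (f : S.K →+* T.K), Good S T f := by
  obtain ⟨D', E', f, h1, h2, h3, h4⟩ := exists_next_aux (F := AlgebraicClosure S.K)
    (L := FractionRing (MvPowerSeries (Fin 2) (AlgebraicClosure S.K))) S.comm
  have := charZero_frac (AlgebraicClosure S.K)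
  exact ⟨⟨FractionRing (MvPowerSeries (Fin 2) (AlgebraicClosure S.K)), D', E', h1⟩, f,
    ⟨h2, h3, h4⟩⟩

/-- The chain of fields. -/
noncomputable def chain : ℕ → DD
  | 0 => { K := ℚ, D := 0, E := 0, comm := fun a => by simp }
  | n + 1 => (exists_next (chain n)).choose

theorem exists_chain : ∃ (S : ℕ → DD) (f : ∀ n, (S n).K →+* (S (n + 1)).K),
    ∀ n, Good (S n) (S (n + 1)) (f n) :=
  ⟨chain, fun n => (exists_next (chain n)).choose_spec.choose,
    fun n => (exists_next (chain n)).choose_spec.choose_spec⟩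

section Chain

variable {S : ℕ → DD} (f : ∀ n, (S n).K →+* (S (n + 1)).K)

/-- The maps of the chain. -/
noncomputable def cmap (i j : ℕ) (h : i ≤ j) : (S i).K →+* (S j).K :=
  Nat.leRecOn (C := fun k => (S i).K →+* (S k).K) h
    (fun {k} g => (f k).comp g) (RingHom.id _)

theorem cmap_self (i : ℕ) : cmap f i i le_rfl = RingHom.id _ := Nat.leRecOn_self _

theorem cmap_succ (i j : ℕ) (h : i ≤ j) :
    cmap f i (j + 1) (Nat.le_succ_of_le h) = (f j).comp (cmap f i j h) :=
  Nat.leRecOn_succ h _

theorem cmap_trans (i j : ℕ) (h : i ≤ j) : ∀ (k : ℕ) (h' : j ≤ k) (x : (S i).K),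
    cmap f j k h' (cmap f i j h x) = cmap f i k (h.trans h') x := by
  intro k h'
  induction k, h' using Nat.le_induction with
  | base => intro x; rw [cmap_self]; rfl
  | succ k h' ih =>
    intro x
    rw [cmap_succ f j k h', RingHom.comp_apply, ih x, cmap_succ f i k (h.trans h')]
    rfl

instance cmap_directed : DirectedSystem (fun i => (S i).K) (fun i j h => cmap f i j h) where
  map_self i x := by rw [cmap_self]; rfl
  map_map _ _ _ hij hjk x := cmap_trans _ _ _ hij _ hjk x

variable {f}

theorem cmap_D (hf : ∀ n, Good (S n) (S (n + 1)) (f n)) (i j : ℕ) (h : i ≤ j) : ∀ x : (S i).K,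
    cmap f i j h ((S i).D x) = (S j).D (cmap f i j h x) := by
  induction j, h using Nat.le_induction with
  | base => intro x; rw [cmap_self]; rfl
  | succ k h ih =>
    intro x
    rw [cmap_succ f i k h, RingHom.comp_apply, RingHom.comp_apply, ih x]
    exact ((hf k).hD _).symm

theorem cmap_E (hf : ∀ n, Good (S n) (S (n + 1)) (f n)) (i j : ℕ) (h : i ≤ j) : ∀ x : (S i).K,
    cmap f i j h ((S i).E x) = (S j).E (cmap f i j h x) := by
  induction j, h using Nat.le_induction with
  | base => intro x; rw [cmap_self]; rfl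
  | succ k h ih =>
    intro x
    rw [cmap_succ f i k h, RingHom.comp_apply, RingHom.comp_apply, ih x]
    exact ((hf k).hE _).symm

variable (f)

/-- The limit field. -/
abbrev Lim : Type := DirectLimit (fun i => (S i).K) (cmap f)

/-- The embedding of a stage. -/
noncomputable def ofS (i : ℕ) : (S i).K →+* Lim f :=
  DirectLimit.Ring.of (fun i => (S i).K) (cmap f) i

theorem ofS_cmap (i j : ℕ) (h : i ≤ j) (x : (S i).K) :
    ofS f j (cmap f i j h x) = ofS f i x :=
  DirectLimit.mk_apply (F := fun i => (S i).K) (f := cmap f) i j x h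

theorem exists_ofS (x : Lim f) : ∃ i y, ofS f i y = x := by
  obtain ⟨i, y, rfl⟩ := DirectLimit.exists_eq_mk (F := fun i => (S i).K) (cmap f) x
  exact ⟨i, y, rfl⟩

theorem exists_ofS₂ (x y : Lim f) : ∃ i a b, ofS f i a = x ∧ ofS f i b = y := by
  obtain ⟨i, a, b, rfl, rfl⟩ := DirectLimit.exists_eq_mk₂ (F := fun i => (S i).K) (cmap f) x y
  exact ⟨i, a, b, rfl, rfl⟩

theorem charZero_lim : CharZero (Lim f) :=
  charZero_of_injective_ringHom (f := ofS f 0) (RingHom.injective _)

/-- A compatible family of derivations gives one on the limit. -/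
noncomputable def limDer (d : ∀ i, Derivation ℤ (S i).K (S i).K)
    (hd : ∀ i j h x, cmap f i j h (d i x) = d j (cmap f i j h x)) :
    Derivation ℤ (Lim f) (Lim f) :=
  Derivation.mk'
    (AddMonoidHom.toIntLinearMap
      (AddMonoidHom.mk' (DirectLimit.map (cmap f) (cmap f) (fun i => d i) hd) (by
        intro x y
        obtain ⟨i, a, b, rfl, rfl⟩ := exists_ofS₂ f x y
        rw [← map_add]
        change ofS f i (d i (a + b)) = ofS f i (d i a) + ofS f i (d i b)
        rw [map_add, map_add])))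
    (by
      intro x y
      obtain ⟨i, a, b, rfl, rfl⟩ := exists_ofS₂ f x y
      rw [← map_mul]
      change ofS f i (d i (a * b)) = ofS f i a * ofS f i (d i b) + ofS f i b * ofS f i (d i a)
      rw [Derivation.leibniz, map_add, smul_eq_mul, smul_eq_mul, map_mul, map_mul])

theorem limDer_ofS (d : ∀ i, Derivation ℤ (S i).K (S i).K)
    (hd : ∀ i j h x, cmap f i j h (d i x) = d j (cmap f i j h x)) (i : ℕ) (x : (S i).K) :
    limDer f d hd (ofS f i x) = ofS f i (d i x) := rfl

theorem exists_poly (N : MvPolynomial (ℕ × ℕ) (Lim f)) :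
    ∃ (n : ℕ) (N' : MvPolynomial (ℕ × ℕ) (S n).K), map (ofS f n) N' = N := by
  have hlift : ∀ (m n : ℕ) (h : m ≤ n) (P : MvPolynomial (ℕ × ℕ) (S m).K),
      map (ofS f n) (map (cmap f m n h) P) = map (ofS f m) P := by
    intro m n h P
    rw [map_map]
    have h1 : (ofS f n).comp (cmap f m n h) = ofS f m :=
      RingHom.ext (fun x => ofS_cmap f m n h x)
    rw [h1]
  induction N using MvPolynomial.induction_on with
  | C a =>
    obtain ⟨i, y, rfl⟩ := exists_ofS f a
    exact ⟨i, C y, map_C _ _⟩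
  | add p q hp hq =>
    obtain ⟨m, P, rfl⟩ := hp
    obtain ⟨n, Q, rfl⟩ := hq
    refine ⟨max m n, map (cmap f m _ (le_max_left m n)) P +
      map (cmap f n _ (le_max_right m n)) Q, ?_⟩
    rw [map_add, hlift, hlift]
  | mul_X p θ hp =>
    obtain ⟨m, P, rfl⟩ := hp
    exact ⟨m, P * X θ, by rw [map_mul, map_X]⟩

end Chain

theorem exists_K : ∃ (K : Type) (_ : Field K) (_ : CharZero K) (D E : Derivation ℤ K K),
    (∀ a, D (E a) = E (D a)) ∧
    ∀ N : MvPolynomial (ℕ × ℕ) K, N ∉ Set.range MvPolynomial.C →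
      ∃ u : K, MvPolynomial.eval (fun ij : ℕ × ℕ => D^[ij.1] (E^[ij.2] u)) N = 0 := by
  obtain ⟨S, f, hf⟩ := exists_chain
  refine ⟨Lim f, inferInstance, charZero_lim f, limDer f (fun i => (S i).D) (cmap_D hf),
    limDer f (fun i => (S i).E) (cmap_E hf), ?_, ?_⟩
  · intro a
    obtain ⟨i, x, rfl⟩ := exists_ofS f a
    rw [limDer_ofS, limDer_ofS, limDer_ofS, limDer_ofS, (S i).comm]
  · intro N hN
    obtain ⟨n, N', rfl⟩ := exists_poly f N
    have hN' : N' ∉ Set.range MvPolynomial.C := by
      rintro ⟨a, rfl⟩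
      exact hN ⟨ofS f n a, (map_C _ _).symm⟩
    obtain ⟨u, hu⟩ := (hf n).solve N' hN'
    refine ⟨ofS f (n + 1) u, ?_⟩
    rw [eval_map]
    have hD : Function.Semiconj (ofS f (n + 1)) (S (n + 1)).D
        (limDer f (fun i => (S i).D) (cmap_D hf)) :=
      fun x => (limDer_ofS f (fun i => (S i).D) (cmap_D hf) (n + 1) x).symm
    have hE : Function.Semiconj (ofS f (n + 1)) (S (n + 1)).E
        (limDer f (fun i => (S i).E) (cmap_E hf)) :=
      fun x => (limDer_ofS f (fun i => (S i).E) (cmap_E hf) (n + 1) x).symm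
    have h1 : (ofS f (n + 1)).comp (f n) = ofS f n := by
      ext x
      have := ofS_cmap f n (n + 1) (Nat.le_succ_of_le le_rfl) x
      rw [cmap_succ f n n le_rfl, cmap_self] at this
      exact this
    have h2 : (fun ij : ℕ × ℕ => (limDer f (fun i => (S i).D) (cmap_D hf))^[ij.1]
        ((limDer f (fun i => (S i).E) (cmap_E hf))^[ij.2] (ofS f (n + 1) u))) =
        (ofS f (n + 1)) ∘ (fun ij : ℕ × ℕ => (S (n + 1)).D^[ij.1] ((S (n + 1)).E^[ij.2] u)) := by
      funext ij
      rw [Function.comp_apply, (hD.iterate_right ij.1).eq, (hE.iterate_right ij.2).eq]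
    rw [h2, ← h1]
    have h3 := congrArg (ofS f (n + 1)) hu
    rw [map_zero, eval₂_comp_left] at h3
    exact h3

end Pool.Agent.LibStar.KE
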