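import Pool.Agent.Lib_MP_4b1745_al.Main
import Pool.Agent.Lib_MP_4b1745_al.KExists

/-! # Algebraically closed associative algebras exist

`FP P R` is the free product `R * P⟨x₀, x₁, …⟩` of `P`-algebras, `inc P R` the inclusion of `R`
and `var P R i` the unknown `xᵢ`. The theorem below produces a field `P` and a nonzero
`P`-algebra `R` over which every equation `f = 0` with `f ∈ (R * P⟨x₀, x₁, …⟩) \ R` has a
solution in `R`. -/

set_option autoImplicit false

namespace Pool.Agent.LibStar.ExistsOld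

open Pool.Agent.LibStar

theorem result : ∃ (P : Type) (_ : Field P) (R : Type) (_ : Ring R) (_ : Algebra P R),
    Nontrivial R ∧ ∀ f : FP P R, (∀ a : R, f ≠ inc P R a) →
      ∃ (r : ℕ → R) (φ : FP P R →ₐ[P] R), (∀ a : R, φ (inc P R a) = a) ∧
        (∀ i, φ (var P R i) = r i) ∧ φ f = 0 := by
  obtain ⟨K, hF, hC, D, E, hDE, hK⟩ := KE.exists_K
  let hdd : DD K := ⟨D, E, hDE⟩
  have hcl : Fact (Closed K) := ⟨closed_of_one hK⟩
  refine ⟨PK K, inferInstance, St K, inferInstance, inferInstance, inferInstance, ?_⟩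
  intro f hf
  obtain ⟨x, hx⟩ := solvable f hf
  exact ⟨x, fpLift (AlgHom.id (PK K) (St K)) x, fun a => fpLift_inc _ _ a,
    fun i => fpLift_var _ _ i, hx⟩

end Pool.Agent.LibStar.ExistsOld
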