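import Mathlib.Algebra.FreeAlgebra
import Mathlib.Algebra.RingQuot

/-! # The free product of an algebra with a free algebra on countably many generators

`FP P R` is the free product `R * P⟨x₀, x₁, …⟩` in the category of unital associative
`P`-algebras; its universal property is `fpLift` together with `fpLift_inc`, `fpLift_var` and
`fp_hom_ext`. -/

set_option autoImplicit false
set_option linter.unusedSectionVars false

namespace Pool.Agent.LibStar

/-- The relations making `R` a unital subalgebra. -/
inductive FPRel (P R : Type) [Field P] [Ring R] [Algebra P R] :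
    FreeAlgebra P (R ⊕ ℕ) → FreeAlgebra P (R ⊕ ℕ) → Prop
  | add (r s : R) : FPRel P R (FreeAlgebra.ι P (Sum.inl (r + s)))
      (FreeAlgebra.ι P (Sum.inl r) + FreeAlgebra.ι P (Sum.inl s))
  | mul (r s : R) : FPRel P R (FreeAlgebra.ι P (Sum.inl (r * s)))
      (FreeAlgebra.ι P (Sum.inl r) * FreeAlgebra.ι P (Sum.inl s))
  | scalar (c : P) : FPRel P R (FreeAlgebra.ι P (Sum.inl (algebraMap P R c)))
      (algebraMap P (FreeAlgebra P (R ⊕ ℕ)) c)

/-- The free product `R * P⟨x₀, x₁, …⟩` of `P`-algebras. -/
abbrev FP (P R : Type) [Field P] [Ring R] [Algebra P R] : Type := RingQuot (FPRel P R)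

section

variable {P R : Type} [Field P] [Ring R] [Algebra P R]

/-- the inclusion of `R` -/
noncomputable def inc (P R : Type) [Field P] [Ring R] [Algebra P R] : R →ₐ[P] FP P R where
  toFun r := RingQuot.mkAlgHom P (FPRel P R) (FreeAlgebra.ι P (Sum.inl r))
  map_one' := by
    have h := RingQuot.mkAlgHom_rel P (FPRel.scalar (P := P) (R := R) 1)
    rw [map_one, map_one, map_one] at h
    exact h
  map_mul' r s := by
    rw [RingQuot.mkAlgHom_rel P (FPRel.mul r s), map_mul]
  map_zero' := by
    have h := RingQuot.mkAlgHom_rel P (FPRel.scalar (P := P) (R := R) 0)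
    rw [map_zero, map_zero, map_zero] at h
    exact h
  map_add' r s := by
    rw [RingQuot.mkAlgHom_rel P (FPRel.add r s), map_add]
  commutes' c := by
    rw [RingQuot.mkAlgHom_rel P (FPRel.scalar (P := P) (R := R) c), AlgHom.commutes]

/-- the unknowns -/
noncomputable def var (P R : Type) [Field P] [Ring R] [Algebra P R] (i : ℕ) : FP P R :=
  RingQuot.mkAlgHom P (FPRel P R) (FreeAlgebra.ι P (Sum.inr i))

variable {C : Type*} [Ring C] [Algebra P C]

/-- the universal property -/
noncomputable def fpLift (g : R →ₐ[P] C) (x : ℕ → C) : FP P R →ₐ[P] C :=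
  RingQuot.liftAlgHom P ⟨FreeAlgebra.lift P (Sum.elim g x), by
    intro a b h
    induction h with
    | add r s => simp [FreeAlgebra.lift_ι_apply]
    | mul r s => simp [FreeAlgebra.lift_ι_apply]
    | scalar c => simp [FreeAlgebra.lift_ι_apply]⟩

@[simp] lemma fpLift_inc (g : R →ₐ[P] C) (x : ℕ → C) (r : R) : fpLift g x (inc P R r) = g r := by
  change RingQuot.liftAlgHom P _ (RingQuot.mkAlgHom P (FPRel P R) _) = _
  rw [RingQuot.liftAlgHom_mkAlgHom_apply, FreeAlgebra.lift_ι_apply]
  rfl

@[simp] lemma fpLift_var (g : R →ₐ[P] C) (x : ℕ → C) (i : ℕ) :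
    fpLift g x (var P R i) = x i := by
  change RingQuot.liftAlgHom P _ (RingQuot.mkAlgHom P (FPRel P R) _) = _
  rw [RingQuot.liftAlgHom_mkAlgHom_apply, FreeAlgebra.lift_ι_apply]
  rfl

lemma fp_hom_ext {f g : FP P R →ₐ[P] C} (h1 : ∀ r, f (inc P R r) = g (inc P R r))
    (h2 : ∀ i, f (var P R i) = g (var P R i)) : f = g := by
  apply RingQuot.ringQuot_ext'
  apply FreeAlgebra.hom_ext
  funext x
  rcases x with r | i
  · exact h1 r
  · exact h2 i

end

end Pool.Agent.LibStar
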