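import Pool.Agent.Lib_MP_4b1745_al.DivRing
import Mathlib.RingTheory.Localization.FractionRing
import Mathlib.RingTheory.Polynomial.UniqueFactorization
import Mathlib.RingTheory.Localization.NumDen
import Mathlib.Algebra.MvPolynomial.PDeriv
import Mathlib.Algebra.MvPolynomial.NoZeroDivisors

/-! # The fraction field of the ring of differential polynomials, and its constants -/

set_option autoImplicit false
set_option linter.unusedSectionVars false

namespace Pool.Agent.LibStar

open Finset

section fder

variable {A F : Type*} [CommRing A] [IsDomain A] [Field F] [Algebra A F] [IsFractionRing A F]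

/-- auxiliary map to dual numbers -/
noncomputable def fdual (F : Type*) [Field F] [Algebra A F] (d : Der A) : A →+* DualNumber F where
  toFun a := TrivSqZeroExt.inl (algebraMap A F a) + TrivSqZeroExt.inr (algebraMap A F (d a))
  map_one' := by simp
  map_mul' a b := by
    apply TrivSqZeroExt.ext
    · simp
    · simp only [TrivSqZeroExt.snd_mul, TrivSqZeroExt.snd_add, TrivSqZeroExt.snd_inl,
        TrivSqZeroExt.snd_inr, TrivSqZeroExt.fst_add, TrivSqZeroExt.fst_inl,
        TrivSqZeroExt.fst_inr, add_zero, zero_add, MulOpposite.smul_eq_mul_unop,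
        MulOpposite.unop_op, Derivation.leibniz, map_add, map_mul, smul_eq_mul]
      ring
  map_zero' := by simp
  map_add' a b := by
    apply TrivSqZeroExt.ext
    · simp
    · simp only [TrivSqZeroExt.snd_add, TrivSqZeroExt.snd_inl, TrivSqZeroExt.snd_inr, zero_add,
        map_add]

lemma fdual_unit (d : Der A) (y : nonZeroDivisors A) : IsUnit (fdual F d y) := by
  rw [TrivSqZeroExt.isUnit_iff_isUnit_fst]
  have : (fdual F d y).fst = algebraMap A F y := by simp [fdual]
  rw [this]
  exact (IsFractionRing.to_map_ne_zero_of_mem_nonZeroDivisors y.2).isUnit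

/-- auxiliary map to dual numbers on the fraction field -/
noncomputable def fdualF (F : Type*) [Field F] [Algebra A F] [IsFractionRing A F] (d : Der A) :
    F →+* DualNumber F :=
  IsLocalization.lift (M := nonZeroDivisors A) (g := fdual F d) (fdual_unit d)

lemma fdualF_alg (d : Der A) (a : A) : fdualF F d (algebraMap A F a) = fdual F d a :=
  IsLocalization.lift_eq _ _

lemma fdualF_fst (d : Der A) (z : F) : (fdualF F d z).fst = z := by
  have h : ((TrivSqZeroExt.fstHom ℤ F F).toRingHom).comp (fdualF F d) = RingHom.id _ := by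
    apply IsLocalization.ringHom_ext (nonZeroDivisors A)
    apply RingHom.ext
    intro a
    change (fdualF F d (algebraMap A F a)).fst = algebraMap A F a
    rw [fdualF_alg]
    simp [fdual]
  exact congrArg (fun f => f z) h

/-- extension of a derivation to the fraction field -/
noncomputable def fder (F : Type*) [Field F] [Algebra A F] [IsFractionRing A F] (d : Der A) :
    Der F :=
  Derivation.mk'
    (({ toFun := fun p => (fdualF F d p).snd
        map_zero' := by simp
        map_add' := fun p q => by simp } : F →+ F).toIntLinearMap)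
    (fun p q => by
      change (fdualF F d (p * q)).snd = p • (fdualF F d q).snd + q • (fdualF F d p).snd
      rw [map_mul, TrivSqZeroExt.snd_mul, fdualF_fst, fdualF_fst]
      simp [mul_comm])

lemma fder_alg (d : Der A) (a : A) : fder F d (algebraMap A F a) = algebraMap A F (d a) := by
  change (fdualF F d (algebraMap A F a)).snd = _
  rw [fdualF_alg]
  change (TrivSqZeroExt.inl (algebraMap A F a) +
    TrivSqZeroExt.inr (algebraMap A F (d a)) : TrivSqZeroExt F F).snd = _
  rw [TrivSqZeroExt.snd_add, TrivSqZeroExt.snd_inl, TrivSqZeroExt.snd_inr, zero_add]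

/-- a derivation of the fraction field is determined on the ring -/
lemma der_frac_eq {δ : F → F} (hadd : ∀ x y, δ (x * y) = x * δ y + y * δ x)
    (h0 : ∀ a : A, δ (algebraMap A F a) = 0) (z : F) : δ z = 0 := by
  obtain ⟨a, b, hb, rfl⟩ := IsFractionRing.div_surjective (A := A) z
  have hb' : algebraMap A F b ≠ 0 := IsFractionRing.to_map_ne_zero_of_mem_nonZeroDivisors hb
  have h1 := hadd (algebraMap A F b) (algebraMap A F a / algebraMap A F b)
  rw [mul_div_cancel₀ _ hb', h0, h0, mul_zero, add_zero] at h1
  exact (mul_eq_zero.mp h1.symm).resolve_left hb'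

end fder

section DDfrac

variable {A : Type*} [CommRing A] [IsDomain A] [DD A]

noncomputable instance : DD (FractionRing A) where
  D := fder (FractionRing A) DD.D
  E := fder (FractionRing A) DD.E
  comm z := by
    rw [← sub_eq_zero]
    refine der_frac_eq (A := A) (F := FractionRing A)
      (δ := fun z => fder (FractionRing A) (DD.D (A := A)) (fder (FractionRing A) (DD.E (A := A)) z)
        - fder (FractionRing A) (DD.E (A := A)) (fder (FractionRing A) (DD.D (A := A)) z)) ?_ ?_ z
    · intro x y
      simp only [Derivation.leibniz, map_add, smul_eq_mul]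
      ring
    · intro a
      simp only [fder_alg, DD.comm, sub_self]

/-- the inclusion into the fraction field -/
noncomputable def FF (A : Type*) [CommRing A] [IsDomain A] [DD A] : DDHom A (FractionRing A) where
  toRingHom := algebraMap A (FractionRing A)
  map_D _ := (fder_alg _ _).symm
  map_E _ := (fder_alg _ _).symm

lemma FF_inj : Function.Injective (FF A).toRingHom := IsFractionRing.injective A (FractionRing A)

end DDfrac

section constants

variable {K : Type*} [Field K] [CharZero K] [DD K]

open MvPolynomial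

lemma pderiv_D (i m n : ℕ) (p : Kx K) :
    pderiv (i, m + 1, n) (DD.D p) = DD.D (pderiv (i, m + 1, n) p) + pderiv (i, m, n) p := by
  classical
  induction p using MvPolynomial.induction_on with
  | C a => rw [D_C, pderiv_C, pderiv_C, pderiv_C, map_zero, add_zero]
  | add p q hp hq =>
    simp only [map_add, hp, hq]
    ring
  | mul_X p t hp =>
    have h1 : pderiv (i, m + 1, n) (DD.D (X t : Kx K)) = pderiv (i, m, n) (X t : Kx K) := by
      obtain ⟨a, b, c⟩ := t
      rw [D_X, pderiv_X, pderiv_X]
      by_cases h : (a, b, c) = (i, m, n)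
      · have e : ((i, m + 1, n) : ℕ × ℕ × ℕ) = ((a, b, c).1, (a, b, c).2.1 + 1, (a, b, c).2.2) := by
          rw [h]
        have e2 : ((i, m, n) : ℕ × ℕ × ℕ) = (a, b, c) := h.symm
        rw [e2, ← e, Pi.single_eq_same, Pi.single_eq_same]
      · rw [Pi.single_eq_of_ne, Pi.single_eq_of_ne]
        · exact h
        · intro e
          apply h
          simp only [Prod.mk.injEq, Nat.add_right_cancel_iff] at e ⊢
          exact e
    have h2 : DD.D (pderiv (i, m + 1, n) (X t : Kx K)) = 0 := by
      rw [pderiv_X]
      by_cases h : t = (i, m + 1, n)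
      · rw [h, Pi.single_eq_same, Derivation.map_one_eq_zero]
      · rw [Pi.single_eq_of_ne h, map_zero]
    simp only [Derivation.leibniz, map_add, smul_eq_mul, hp, h1, h2]
    ring

lemma totalDegree_pderiv_lt (t : ℕ × ℕ × ℕ) (p : Kx K) (h : pderiv t p ≠ 0) :
    (pderiv t p).totalDegree < p.totalDegree := by
  classical
  have h1 : ∀ m ∈ (pderiv t p).support, m.sum (fun _ e => e) < p.totalDegree := by
    intro m hm
    rw [mem_support_iff, coeff_pderiv] at hm
    have h2 : m + Finsupp.single t 1 ∈ p.support := by
      rw [mem_support_iff]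
      exact left_ne_zero_of_mul hm
    have h3 := le_totalDegree h2
    rw [Finsupp.sum_add_index' (fun _ => rfl) (fun _ _ _ => rfl),
      Finsupp.sum_single_index rfl] at h3
    omega
  obtain ⟨m, hm⟩ := support_nonempty.mpr h
  rw [totalDegree, Finset.sup_lt_iff (lt_of_le_of_lt (Nat.zero_le _) (h1 m hm))]
  exact h1

lemma pderiv_ne_zero_of_mem_vars (t : ℕ × ℕ × ℕ) (p : Kx K) (h : t ∈ p.vars) :
    pderiv t p ≠ 0 := by
  classical
  rw [mem_vars_iff_mem_support] at h
  obtain ⟨m, hm, hmt⟩ := h
  intro h0
  have h1 := coeff_pderiv (i := t) p (m - Finsupp.single t 1)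
  rw [Finsupp.mem_support_iff] at hmt
  have h2 : m - Finsupp.single t 1 + Finsupp.single t 1 = m := by
    apply tsub_add_cancel_of_le
    rw [Finsupp.single_le_iff]
    omega
  rw [h0, coeff_zero, h2] at h1
  have h3 : (((m - Finsupp.single t 1 : (ℕ × ℕ × ℕ) →₀ ℕ) t + 1 : ℕ) : K) ≠ 0 := Nat.cast_ne_zero.mpr (by omega)
  push_cast at h3
  exact mul_ne_zero (mem_support_iff.mp hm) h3 h1.symm

/-- a non-zero differential polynomial dividing its derivative is constant -/
lemma const_of_dvd_D (v : Kx K) (hv : v ≠ 0) (h : v ∣ DD.D v) :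
    v ∈ Set.range (C : K → Kx K) := by
  classical
  by_contra hc
  have hvars : v.vars.Nonempty := by
    rw [Finset.nonempty_iff_ne_empty]
    intro he
    apply hc
    rw [vars_eq_empty_iff_eq_C] at he
    exact ⟨_, he.symm⟩
  obtain ⟨⟨i, m, n⟩, ht, hmax⟩ := exists_max_image v.vars (fun t => t.2.1) hvars
  have hnot : ((i, m + 1, n) : ℕ × ℕ × ℕ) ∉ v.vars := by
    intro h1
    have := hmax _ h1
    simp at this
  obtain ⟨q, hq⟩ := h
  have h1 := pderiv_D i m n v
  rw [pderiv_eq_zero_of_notMem_vars hnot, map_zero, zero_add, hq, pderiv_mul,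
    pderiv_eq_zero_of_notMem_vars hnot, zero_mul, zero_add] at h1
  have h2 := pderiv_ne_zero_of_mem_vars _ _ ht
  have h3 := totalDegree_pderiv_lt _ _ h2
  rw [← h1] at h2 h3
  rw [totalDegree_mul_of_isDomain hv (right_ne_zero_of_mul h2)] at h3
  omega

/-- constants of the fraction field of the differential polynomial ring -/
theorem const_frac (z : FractionRing (Kx K)) (hD : DD.D z = 0) :
    ∃ c : K, z = algebraMap (Kx K) (FractionRing (Kx K)) (C c) := by
  classical
  obtain ⟨u, v, hco, hz⟩ := IsFractionRing.exists_reduced_fraction (A := Kx K) z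
  have hv0 : (v : Kx K) ≠ 0 := nonZeroDivisors.ne_zero v.2
  have hv' : algebraMap (Kx K) (FractionRing (Kx K)) v ≠ 0 :=
    IsFractionRing.to_map_ne_zero_of_mem_nonZeroDivisors v.2
  have hmul : z * algebraMap (Kx K) (FractionRing (Kx K)) v =
      algebraMap (Kx K) (FractionRing (Kx K)) u := by
    rw [← hz, IsFractionRing.mk'_eq_div, div_mul_cancel₀ _ hv']
  have h1 : z * algebraMap (Kx K) (FractionRing (Kx K)) (DD.D (v : Kx K)) =
      algebraMap (Kx K) (FractionRing (Kx K)) (DD.D u) := by
    have h2 := congrArg (fun y => DD.D y) hmul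
    simp only [Derivation.leibniz, hD, smul_eq_mul, mul_zero, add_zero] at h2
    have h3 : DD.D (algebraMap (Kx K) (FractionRing (Kx K)) (v : Kx K)) =
        algebraMap (Kx K) (FractionRing (Kx K)) (DD.D (v : Kx K)) := fder_alg _ _
    have h4 : DD.D (algebraMap (Kx K) (FractionRing (Kx K)) u) =
        algebraMap (Kx K) (FractionRing (Kx K)) (DD.D u) := fder_alg _ _
    rw [h3, h4] at h2
    exact h2
  have h5 : u * DD.D (v : Kx K) = (v : Kx K) * DD.D u := by
    apply IsFractionRing.injective (Kx K) (FractionRing (Kx K))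
    rw [map_mul, map_mul, ← h1, ← hmul]
    ring
  have hvD : (v : Kx K) ∣ DD.D (v : Kx K) :=
    hco.symm.dvd_of_dvd_mul_left ⟨_, h5⟩
  obtain ⟨b, hb⟩ := const_of_dvd_D _ hv0 hvD
  by_cases hu : u = 0
  · refine ⟨0, ?_⟩
    rw [hu, map_zero] at hmul
    rw [map_zero, map_zero]
    exact (mul_eq_zero.mp hmul).resolve_right hv'
  · have huD : u ∣ DD.D u := hco.dvd_of_dvd_mul_left ⟨_, h5.symm⟩
    obtain ⟨a, ha⟩ := const_of_dvd_D _ hu huD
    have hb0 : b ≠ 0 := by
      rintro rfl
      rw [map_zero] at hb
      exact hv0 hb.symm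
    refine ⟨a / b, ?_⟩
    apply mul_right_cancel₀ hv'
    rw [hmul, ← ha, ← hb, ← map_mul, ← map_mul, div_mul_cancel₀ _ hb0]

end constants

end Pool.Agent.LibStar
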