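import Pool.Agent.Lib_MP_4b1745_al.FPDef
import Mathlib.LinearAlgebra.Finsupp.Pi
import Mathlib.LinearAlgebra.Finsupp.LSum
import Mathlib.LinearAlgebra.Basis.VectorSpace
import Mathlib.Algebra.Algebra.Bilinear

/-! # The filtration of the free product by the number of unknowns -/

set_option autoImplicit false
set_option linter.unusedSectionVars false

namespace Pool.Agent.LibStar

open Finset

section

variable {P R : Type} [Field P] [Ring R] [Algebra P R]

/-- induction principle -/
lemma fp_induction {motive : FP P R → Prop} (hinc : ∀ r, motive (inc P R r))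
    (hvar : ∀ i, motive (var P R i)) (hmul : ∀ a b, motive a → motive b → motive (a * b))
    (hadd : ∀ a b, motive a → motive b → motive (a + b)) (f : FP P R) : motive f := by
  obtain ⟨f, rfl⟩ := RingQuot.mkAlgHom_surjective P (FPRel P R) f
  induction f using FreeAlgebra.induction with
  | grade0 c =>
    rw [AlgHom.commutes, ← AlgHom.commutes (inc P R) c]
    exact hinc _
  | grade1 x =>
    rcases x with r | i
    · exact hinc r
    · exact hvar i
  | mul a b ha hb =>
    rw [map_mul]
    exact hmul _ _ ha hb
  | add a b ha hb =>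
    rw [map_add]
    exact hadd _ _ ha hb

/-- index type of a basis of `R` -/
abbrev BI (P R : Type) [Field P] [Ring R] [Algebra P R] := Module.Basis.ofVectorSpaceIndex P R

/-- a basis of `R` -/
noncomputable def bas (P R : Type) [Field P] [Ring R] [Algebra P R] :
    Module.Basis (BI P R) P R := Module.Basis.ofVectorSpace P R

/-- the map assembling the next layer -/
noncomputable def layer (P R : Type) [Field P] [Ring R] [Algebra P R] :
    ((ℕ × BI P R) →₀ FP P R) →ₗ[P] FP P R :=
  Finsupp.lsum P (fun t => LinearMap.mulLeft P (inc P R (bas P R t.2) * var P R t.1))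

lemma layer_apply (g : (ℕ × BI P R) →₀ FP P R) :
    layer P R g = g.sum (fun t a => inc P R (bas P R t.2) * var P R t.1 * a) := by
  rw [layer, Finsupp.lsum_apply]
  rfl

/-- the filtration by the number of unknowns -/
noncomputable def fil (P R : Type) [Field P] [Ring R] [Algebra P R] : ℕ → Submodule P (FP P R)
  | 0 => LinearMap.range (inc P R).toLinearMap
  | d + 1 => LinearMap.range (inc P R).toLinearMap ⊔
      (Finsupp.submodule (fun _ : ℕ × BI P R => fil P R d)).map (layer P R)

lemma inc_mem_fil (d : ℕ) (r : R) : inc P R r ∈ fil P R d := by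
  cases d with
  | zero => exact ⟨r, rfl⟩
  | succ d => exact Submodule.mem_sup_left ⟨r, rfl⟩

lemma fil_gen (d : ℕ) (r : R) (i : ℕ) {g : FP P R} (hg : g ∈ fil P R d) :
    inc P R r * var P R i * g ∈ fil P R (d + 1) := by
  classical
  have h1 : inc P R r * var P R i * g = ∑ j ∈ ((bas P R).repr r).support,
      inc P R (bas P R j) * var P R i * (((bas P R).repr r) j • g) := by
    conv_lhs => rw [← (bas P R).linearCombination_repr r, Finsupp.linearCombination_apply,
      Finsupp.sum, map_sum, sum_mul, sum_mul]
    apply sum_congr rfl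
    intro j _
    rw [map_smul, smul_mul_assoc, smul_mul_assoc, mul_smul_comm]
  rw [h1]
  apply Submodule.sum_mem
  intro j _
  apply Submodule.mem_sup_right
  refine ⟨Finsupp.single (i, j) (((bas P R).repr r) j • g), ?_, ?_⟩
  · intro t
    by_cases ht : t = (i, j)
    · rw [ht, Finsupp.single_eq_same]
      exact Submodule.smul_mem _ _ hg
    · rw [Finsupp.single_eq_of_ne ht]
      exact Submodule.zero_mem _
  · rw [layer_apply, Finsupp.sum_single_index (by rw [mul_zero])]

lemma fil_mono_succ (d : ℕ) : fil P R d ≤ fil P R (d + 1) := by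
  induction d with
  | zero =>
    rintro _ ⟨r, rfl⟩
    exact inc_mem_fil 1 r
  | succ d ih =>
    apply sup_le
    · rintro _ ⟨r, rfl⟩
      exact inc_mem_fil _ r
    · rintro _ ⟨g, hg, rfl⟩
      rw [layer_apply]
      apply Submodule.sum_mem
      intro t _
      exact fil_gen (d + 1) _ _ (ih (hg t))

lemma fil_mono {d e : ℕ} (h : d ≤ e) : fil P R d ≤ fil P R e :=
  monotone_nat_of_le_succ fil_mono_succ h

lemma inc_mul_mem (d : ℕ) (s : R) {x : FP P R} (hx : x ∈ fil P R d) :
    inc P R s * x ∈ fil P R d := by
  cases d with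
  | zero =>
    obtain ⟨r, rfl⟩ := hx
    refine ⟨s * r, ?_⟩
    exact map_mul (inc P R) s r
  | succ d =>
    obtain ⟨_, ⟨r, rfl⟩, _, ⟨g, hg, rfl⟩, rfl⟩ := Submodule.mem_sup.mp hx
    rw [mul_add]
    apply Submodule.add_mem
    · have : inc P R s * (inc P R).toLinearMap r = inc P R (s * r) := (map_mul _ _ _).symm
      rw [this]
      exact inc_mem_fil _ _
    · rw [layer_apply, Finsupp.mul_sum]
      apply Submodule.sum_mem
      intro t _
      dsimp only
      rw [← mul_assoc, ← mul_assoc, ← map_mul]
      exact fil_gen d _ _ (hg t)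

lemma var_mul_mem (d : ℕ) (i : ℕ) {x : FP P R} (hx : x ∈ fil P R d) :
    var P R i * x ∈ fil P R (d + 1) := by
  have := fil_gen d (1 : R) i hx
  rwa [map_one, one_mul] at this

/-- the filtration is exhaustive -/
theorem exists_fil (f : FP P R) : ∃ d, f ∈ fil P R d := by
  have key : ∀ f : FP P R, ∀ d, ∀ x ∈ fil P R d, ∃ e, f * x ∈ fil P R e := by
    intro f
    induction f using fp_induction with
    | hinc r => exact fun d x hx => ⟨d, inc_mul_mem d r hx⟩
    | hvar i => exact fun d x hx => ⟨d + 1, var_mul_mem d i hx⟩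
    | hmul a b ha hb =>
      intro d x hx
      obtain ⟨e, he⟩ := hb d x hx
      obtain ⟨e', he'⟩ := ha e _ he
      exact ⟨e', by rwa [mul_assoc]⟩
    | hadd a b ha hb =>
      intro d x hx
      obtain ⟨e, he⟩ := ha d x hx
      obtain ⟨e', he'⟩ := hb d x hx
      refine ⟨max e e', ?_⟩
      rw [add_mul]
      exact Submodule.add_mem _ (fil_mono (le_max_left _ _) he) (fil_mono (le_max_right _ _) he')
  obtain ⟨e, he⟩ := key f 0 1 (by
    have := inc_mem_fil (P := P) (R := R) 0 1
    rwa [map_one] at this)
  exact ⟨e, by rwa [mul_one] at he⟩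

end

end Pool.Agent.LibStar
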