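import Mathlib.LinearAlgebra.Basis.VectorSpace
import Mathlib.Algebra.Algebra.Basic
import Mathlib.Algebra.Field.Basic

/-! # Linear generalised identities over division rings -/

set_option autoImplicit false
set_option linter.unusedSectionVars false

namespace Pool.Agent.LibStar

open Finset

section minimal

variable {P Δ : Type*} [Field P] [DivisionRing Δ] [Algebra P Δ]

lemma minimal_support
    (hc : ∀ z : Δ, (∀ x, z * x = x * z) → z ∈ Set.range (algebraMap P Δ))
    {ι : Type*} (e : ι → Δ) (he : LinearIndependent P e) :
    ∀ (n : ℕ) (A : ι →₀ Δ), A.support.card ≤ n →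
      (∀ y, A.sum (fun k a => a * (y * e k)) = 0) → A = 0 := by
  classical
  intro n
  induction n with
  | zero =>
    intro A hA _
    exact Finsupp.support_eq_empty.mp (Finset.card_eq_zero.mp (Nat.le_zero.mp hA))
  | succ n ih =>
    intro A hA h
    by_contra hA0
    obtain ⟨k0, hk0⟩ := Finsupp.support_nonempty_iff.mpr hA0
    have ha0 : A k0 ≠ 0 := Finsupp.mem_support_iff.mp hk0
    let B : ι →₀ Δ := A.mapRange (fun a => (A k0)⁻¹ * a) (mul_zero _)
    have hBk0 : B k0 = 1 := by
      rw [Finsupp.mapRange_apply]
      exact inv_mul_cancel₀ ha0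
    have hBsupp : B.support ⊆ A.support := Finsupp.support_mapRange
    have hB : ∀ y, B.sum (fun k a => a * (y * e k)) = 0 := by
      intro y
      rw [Finsupp.sum_mapRange_index (fun k => by rw [zero_mul])]
      have h1 := congrArg (fun z => (A k0)⁻¹ * z) (h y)
      simp only [Finsupp.mul_sum, mul_zero] at h1
      rw [← h1]
      apply Finsupp.sum_congr
      intro k _
      rw [mul_assoc]
    have hcomm : ∀ k z, B k * z = z * B k := by
      intro k z
      let C : ι →₀ Δ := B.mapRange (fun b => z * b - b * z) (by rw [mul_zero, zero_mul, sub_zero])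
      have hCsupp : C.support ⊆ A.support.erase k0 := by
        intro j hj
        rw [Finset.mem_erase]
        refine ⟨?_, hBsupp (Finsupp.support_mapRange hj)⟩
        rintro rfl
        rw [Finsupp.mem_support_iff, Finsupp.mapRange_apply, hBk0, mul_one, one_mul, sub_self] at hj
        exact hj rfl
      have hCcard : C.support.card ≤ n := by
        have := Finset.card_le_card hCsupp
        rw [Finset.card_erase_of_mem hk0] at this
        omega
      have hCsum : ∀ y, C.sum (fun k a => a * (y * e k)) = 0 := by
        intro y
        rw [Finsupp.sum_mapRange_index (fun k => by rw [zero_mul])]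
        have h1 := congrArg (fun w => z * w) (hB y)
        have h2 := hB (z * y)
        simp only [Finsupp.mul_sum, mul_zero] at h1
        have h3 : (B.sum fun a b => (z * b - b * z) * (y * e a)) =
            (B.sum fun a b => z * (b * (y * e a))) - B.sum fun a b => b * (z * y * e a) := by
          rw [← Finsupp.sum_sub]
          apply Finsupp.sum_congr
          intro j _
          rw [sub_mul, mul_assoc, mul_assoc, mul_assoc]
        rw [h3, h1, h2, sub_zero]
      have hC0 := ih C hCcard hCsum
      have h1 : C k = 0 := by rw [hC0]; rfl
      rw [Finsupp.mapRange_apply, sub_eq_zero] at h1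
      exact h1.symm
    have hrange : ∀ k, ∃ p : P, algebraMap P Δ p = B k := fun k => hc (B k) (hcomm k)
    choose p hp using hrange
    have h1 := hB 1
    rw [linearIndependent_iff'] at he
    have h2 : ∑ k ∈ B.support, p k • e k = 0 := by
      rw [← h1, Finsupp.sum]
      apply sum_congr rfl
      intro k _
      rw [one_mul, ← hp, Algebra.smul_def]
    have h3 := he B.support p h2 k0 (by rw [Finsupp.mem_support_iff, hBk0]; exact one_ne_zero)
    have h4 := hp k0
    rw [h3, map_zero, hBk0] at h4
    exact zero_ne_one h4

/-- linear generalised identities are trivial, tested against functionals -/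
theorem functional_identity
    (hc : ∀ z : Δ, (∀ x, z * x = x * z) → z ∈ Set.range (algebraMap P Δ))
    (L : List (Δ × Δ)) (h : ∀ y, (L.map (fun ab => ab.1 * (y * ab.2))).sum = 0)
    (l : Δ →ₗ[P] P) : (L.map (fun ab => ab.1 * algebraMap P Δ (l ab.2))).sum = 0 := by
  classical
  let b := Module.Basis.ofVectorSpace P Δ
  let T : List (Δ × Δ) → (Module.Basis.ofVectorSpaceIndex P Δ →₀ Δ) := fun L =>
    (L.map (fun ab => (b.repr ab.2).mapRange (fun c => ab.1 * algebraMap P Δ c)
      (by rw [map_zero, mul_zero]))).sum
  have key : ∀ (c : Module.Basis.ofVectorSpaceIndex P Δ → Δ) (L : List (Δ × Δ)),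
      (T L).sum (fun k a => a * c k) =
        (L.map (fun ab => ab.1 * (b.repr ab.2).sum (fun k r => algebraMap P Δ r * c k))).sum := by
    intro c L
    induction L with
    | nil => simp [T]
    | cons x L ih =>
      have e : T (x :: L) = (b.repr x.2).mapRange (fun c => x.1 * algebraMap P Δ c)
          (by rw [map_zero, mul_zero]) + T L := by
        simp [T]
      rw [e, Finsupp.sum_add_index' (fun k => by rw [zero_mul]) (fun k a b => by rw [add_mul]), ih,
        List.map_cons, List.sum_cons, Finsupp.sum_mapRange_index (fun k => by rw [zero_mul])]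
      congr 1
      rw [Finsupp.mul_sum]
      apply Finsupp.sum_congr
      intro k _
      rw [mul_assoc]
  have hT : T L = 0 := by
    apply minimal_support hc b b.linearIndependent _ (T L) (le_refl _)
    intro y
    rw [key (fun k => y * b k), ← h y]
    congr 1
    apply List.map_congr_left
    intro ab _
    congr 1
    conv_rhs => rw [← b.linearCombination_repr ab.2, Finsupp.linearCombination_apply,
      Finsupp.mul_sum]
    apply Finsupp.sum_congr
    intro k _
    rw [← mul_assoc, Algebra.commutes, mul_assoc, Algebra.smul_def]
  have h2 := key (fun k => algebraMap P Δ (l (b k))) L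
  rw [hT, Finsupp.sum_zero_index] at h2
  rw [h2]
  congr 1
  apply List.map_congr_left
  intro ab _
  congr 1
  conv_lhs => rw [← b.linearCombination_repr ab.2, Finsupp.linearCombination_apply,
    Finsupp.sum, map_sum, map_sum]
  rw [Finsupp.sum]
  apply sum_congr rfl
  intro k _
  rw [map_smul, smul_eq_mul, map_mul]

end minimal

end Pool.Agent.LibStar
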