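import Pool.Agent.Lib_MP_4b1745_al.FracK
import Pool.Agent.Lib_MP_4b1745_al.Minimal
import Pool.Agent.Lib_MP_4b1745_al.FreeProd
import Mathlib.Tactic.LinearCombination

/-! # No generalised polynomial is constant at the generic point -/

set_option autoImplicit false
set_option linter.unusedSectionVars false

namespace Pool.Agent.LibStar

open Finset St

section dermap

variable {A B : Type*} [CommRing A] [Algebra ℚ A] [DD A] [CommRing B] [Algebra ℚ B] [DD B]

/-- derivations along a homomorphism commuting with the given derivations -/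
structure DDer (φ : DDHom A B) where
  /-- the underlying additive map -/
  fn : A →+ B
  leib : ∀ a b, fn (a * b) = φ.toRingHom a * fn b + fn a * φ.toRingHom b
  map_D : ∀ a, fn (DD.D a) = DD.D (fn a)
  map_E : ∀ a, fn (DD.E a) = DD.E (fn a)

variable {φ : DDHom A B}

lemma DDer.iter_D (δ : DDer φ) (n : ℕ) (a : A) :
    δ.fn ((DD.D (A := A))^[n] a) = (DD.D (A := B))^[n] (δ.fn a) := by
  induction n generalizing a with
  | zero => rfl
  | succ n ih => rw [Function.iterate_succ_apply, ih, δ.map_D, Function.iterate_succ_apply]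

lemma DDer.iter_E (δ : DDer φ) (n : ℕ) (a : A) :
    δ.fn ((DD.E (A := A))^[n] a) = (DD.E (A := B))^[n] (δ.fn a) := by
  induction n generalizing a with
  | zero => rfl
  | succ n ih => rw [Function.iterate_succ_apply, ih, δ.map_E, Function.iterate_succ_apply]

lemma DDer.bn (δ : DDer φ) (n : ℕ) (a b : A) :
    δ.fn (LibStar.bn n a b) = LibStar.bn n (φ.toRingHom a) (δ.fn b) +
      LibStar.bn n (δ.fn a) (φ.toRingHom b) := by
  rw [LibStar.bn, map_rat_smul, δ.leib, LibStar.bn, LibStar.bn, ← smul_add]
  simp only [dp, map_rat_smul, δ.iter_D, δ.iter_E, map_iter_D, map_iter_E]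

/-- coefficientwise extension -/
noncomputable def DDer.ext (δ : DDer φ) : St A →+ St B where
  toFun x := ofH (cmap δ.fn (toH x))
  map_zero' := map_zero (cmap δ.fn)
  map_add' x y := map_add (cmap δ.fn) (toH x) (toH y)

@[simp] lemma DDer.co_ext (δ : DDer φ) (x : St A) (γ : ℚ) : co (δ.ext x) γ = δ.fn (co x γ) := rfl

lemma DDer.ext_mul (δ : DDer φ) (x y : St A) :
    δ.ext (x * y) = St.map φ x * δ.ext y + δ.ext x * St.map φ y := by
  ext γ
  obtain ⟨w, hw⟩ := pwo_bdd (supp_pwo x)
  obtain ⟨w', hw'⟩ := pwo_bdd (supp_pwo y)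
  obtain ⟨M, hM⟩ := exists_level γ (w + w')
  rw [← add_assoc] at hM
  have h1 : supp (St.map φ x) ⊆ supp x := cmap_support _ _
  have h2 : supp (St.map φ y) ⊆ supp y := cmap_support _ _
  have h3 : supp (δ.ext x) ⊆ supp x := cmap_support _ _
  have h4 : supp (δ.ext y) ⊆ supp y := cmap_support _ _
  rw [co_ext, co_add,
    co_mul_pwo (supp_pwo x) (supp_pwo y) hw hw' (le_refl _) (le_refl _) hM,
    co_mul_pwo (supp_pwo x) (supp_pwo y) hw hw' h1 h4 hM,
    co_mul_pwo (supp_pwo x) (supp_pwo y) hw hw' h3 h2 hM, map_sum, ← sum_add_distrib]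
  apply sum_congr rfl
  intro n _
  rw [map_sum, ← sum_add_distrib]
  apply sum_congr rfl
  intro ij _
  rw [δ.bn]
  rfl

lemma DDer.ext_mono (δ : DDer φ) (s : ℚ) (a : A) : δ.ext (mono s a) = mono s (δ.fn a) := by
  ext γ
  rw [co_ext, co_mono, co_mono]
  split_ifs
  · rfl
  · exact map_zero _

end dermap

section nondeg

variable {K : Type} [Field K] [CharZero K] [Algebra ℚ K] [DD K]

open MvPolynomial in
lemma nondeg_K (hK : Closed K) (u : K) (h : ∀ a : K, DD.D u * DD.E a = DD.D a * DD.E u) :
    DD.D u = 0 ∧ DD.E u = 0 := by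
  classical
  by_contra hcon
  have hF : (C (DD.D u) * X (0, 0, 1) - C (DD.E u) * X (0, 1, 0) - 1 : Kx K) ∉
      Set.range (C : K → Kx K) := by
    rintro ⟨c, hc⟩
    apply hcon
    constructor
    · have h1 := congrArg (fun p => pderiv (0, 0, 1) p) hc
      simp only [map_sub, pderiv_C_mul, pderiv_X_self, pderiv_C, pderiv_one] at h1
      rw [pderiv_X_of_ne (by decide), mul_one, mul_zero, sub_zero, sub_zero] at h1
      exact C_injective _ _ (h1.symm.trans (map_zero C).symm)
    · have h1 := congrArg (fun p => pderiv (0, 1, 0) p) hc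
      simp only [map_sub, pderiv_C_mul, pderiv_X_self, pderiv_C, pderiv_one] at h1
      rw [pderiv_X_of_ne (by decide), mul_one, mul_zero, sub_zero, zero_sub] at h1
      have h2 : C (DD.E u) = (0 : Kx K) := by
        rw [← neg_eq_zero]
        exact h1.symm
      exact C_injective _ _ (h2.trans (map_zero C).symm)
  obtain ⟨c, hc⟩ := hK _ hF
  rw [map_sub, map_sub, map_mul, map_mul, map_one, subst_C, subst_C, subst_X, subst_X] at hc
  have h1 := h (c 0)
  have h2 : DD.D u * DD.E (c 0) - DD.E u * DD.D (c 0) - 1 = 0 := hc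
  rw [h1, mul_comm, sub_self, zero_sub, neg_eq_zero] at h2
  exact one_ne_zero h2

open MvPolynomial in
lemma nondeg_K1 (u : FractionRing (Kx K))
    (h : ∀ a : FractionRing (Kx K), DD.D u * DD.E a = DD.D a * DD.E u) :
    DD.D u = 0 ∧ DD.E u = 0 := by
  classical
  have hX : ∀ i, DD.D u * algebraMap (Kx K) (FractionRing (Kx K)) (X (i, 0, 1)) =
      algebraMap (Kx K) (FractionRing (Kx K)) (X (i, 1, 0)) * DD.E u := by
    intro i
    have h1 := h (algebraMap (Kx K) (FractionRing (Kx K)) (X (i, 0, 0)))
    have h2 : DD.D (algebraMap (Kx K) (FractionRing (Kx K)) (X (i, 0, 0))) =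
        algebraMap (Kx K) (FractionRing (Kx K)) (X (i, 1, 0)) := by
      have := (FF (Kx K)).map_D (X (i, 0, 0))
      rw [D_X] at this
      exact this.symm
    have h3 : DD.E (algebraMap (Kx K) (FractionRing (Kx K)) (X (i, 0, 0))) =
        algebraMap (Kx K) (FractionRing (Kx K)) (X (i, 0, 1)) := by
      have := (FF (Kx K)).map_E (X (i, 0, 0))
      rw [E_X] at this
      exact this.symm
    rw [h2, h3] at h1
    exact h1
  have hinj := IsFractionRing.injective (Kx K) (FractionRing (Kx K))
  have hX0 : algebraMap (Kx K) (FractionRing (Kx K)) (X (0, 1, 0)) ≠ 0 := by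
    intro h0
    exact X_ne_zero _ (hinj (h0.trans (map_zero _).symm))
  have hdet : algebraMap (Kx K) (FractionRing (Kx K))
      (X (0, 0, 1) * X (1, 1, 0) - X (0, 1, 0) * X (1, 0, 1)) ≠ 0 := by
    intro h0
    have h1 : (X (0, 0, 1) * X (1, 1, 0) - X (0, 1, 0) * X (1, 0, 1) : Kx K) = 0 :=
      hinj (h0.trans (map_zero _).symm)
    have h2 := congrArg (fun p => MvPolynomial.eval
      (fun t : ℕ × ℕ × ℕ => if t = (0, 0, 1) ∨ t = (1, 1, 0) then (1 : K) else 0) p) h1
    simp at h2
  have hD : DD.D u = 0 := by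
    have h0 := hX 0
    have h1 := hX 1
    have h2 : DD.D u * algebraMap (Kx K) (FractionRing (Kx K))
        (X (0, 0, 1) * X (1, 1, 0) - X (0, 1, 0) * X (1, 0, 1)) = 0 := by
      rw [map_sub, map_mul, map_mul]
      linear_combination
        (algebraMap (Kx K) (FractionRing (Kx K)) (X (1, 1, 0))) * h0 -
        (algebraMap (Kx K) (FractionRing (Kx K)) (X (0, 1, 0))) * h1
    exact (mul_eq_zero.mp h2).resolve_right hdet
  refine ⟨hD, ?_⟩
  have h0 := hX 0
  rw [hD, zero_mul] at h0
  exact (mul_eq_zero.mp h0.symm).resolve_left hX0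

end nondeg

section center1

variable {K : Type} [Field K] [CharZero K] [Algebra ℚ K] [DD K]

/-- the embedding of `K` in the fraction field -/
noncomputable def F1 (K : Type) [Field K] [CharZero K] [DD K] :
    DDHom K (FractionRing (Kx K)) := (FF (Kx K)).comp (CC K)

lemma F1_inj : Function.Injective (F1 K).toRingHom :=
  (FF_inj (A := Kx K)).comp (MvPolynomial.C_injective _ _)

/-- central elements of `St K` stay central -/
lemma central_map (hK : Closed K) {B : Type*} [CommRing B] [Algebra ℚ B] [DD B] (φ : DDHom K B)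
    {z : St K} (hz : ∀ x, z * x = x * z) (y : St B) : St.map φ z * y = y * St.map φ z := by
  have h := const_of_central (nondeg_K hK) hz
  apply central_of_const
  · intro γ
    rw [co_map, ← φ.map_D, (h γ).1, map_zero]
  · intro γ
    rw [co_map, ← φ.map_E, (h γ).2, map_zero]

/-- the centre of `St` of the fraction field comes from the centre of `St K` -/
lemma center_K1 {z : St (FractionRing (Kx K))} (hz : ∀ x, z * x = x * z) :
    ∃ z0 : St K, (∀ x, z0 * x = x * z0) ∧ z = St.map (F1 K) z0 := by
  have h := const_of_central (nondeg_K1 (K := K)) hz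
  have hc : ∀ γ, ∃ c : K, co z γ = (F1 K).toRingHom c := fun γ => const_frac (co z γ) (h γ).1
  choose c hc using hc
  have hpwo : {γ | c γ ≠ 0}.IsPWO := by
    apply (supp_pwo z).mono
    intro γ hγ h0
    rw [hc] at h0
    exact hγ (F1_inj (h0.trans (map_zero _).symm))
  refine ⟨St.mk c hpwo, ?_, ?_⟩
  · apply central_of_const
    · intro γ
      apply F1_inj (K := K)
      rw [co_mk, (F1 K).map_D, ← hc, (h γ).1, map_zero]
    · intro γ
      apply F1_inj (K := K)
      rw [co_mk, (F1 K).map_E, ← hc, (h γ).2, map_zero]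
  · ext γ
    rw [co_map, co_mk, hc]

/-- the ground field -/
abbrev PK (K : Type) [Field K] [CharZero K] [Algebra ℚ K] [DD K] : Type :=
  Subring.center (St K)

variable [hK : Fact (Closed K)]

noncomputable instance algKx : Algebra (PK K) (St (Kx K)) :=
  RingHom.toAlgebra' ((St.map (CC K)).comp (Subring.center (St K)).subtype) (fun c x => by
    exact central_map hK.out (CC K) (fun y => (Subring.mem_center_iff.mp c.2 y).symm) x)

noncomputable instance algK1 : Algebra (PK K) (St (FractionRing (Kx K))) :=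
  RingHom.toAlgebra' ((St.map (F1 K)).comp (Subring.center (St K)).subtype) (fun c x => by
    exact central_map hK.out (F1 K) (fun y => (Subring.mem_center_iff.mp c.2 y).symm) x)

lemma algKx_map (c : PK K) : algebraMap (PK K) (St (Kx K)) c = St.map (CC K) (c : St K) := rfl

lemma algK1_map (c : PK K) :
    algebraMap (PK K) (St (FractionRing (Kx K))) c = St.map (F1 K) (c : St K) := rfl

lemma center_cond (z : St (FractionRing (Kx K))) (hz : ∀ x, z * x = x * z) :
    z ∈ Set.range (algebraMap (PK K) (St (FractionRing (Kx K)))) := by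
  obtain ⟨z0, h1, h2⟩ := center_K1 hz
  exact ⟨⟨z0, Subring.mem_center_iff.mpr (fun y => (h1 y).symm)⟩, h2.symm⟩

/-- the inclusion of `St K` -/
noncomputable def inclS (K : Type) [Field K] [CharZero K] [Algebra ℚ K] [DD K]
    [Fact (Closed K)] : St K →ₐ[PK K] St (Kx K) :=
  { St.map (CC K) with commutes' := fun _ => rfl }

/-- the inclusion in the division ring -/
noncomputable def incl1 (K : Type) [Field K] [CharZero K] [Algebra ℚ K] [DD K]
    [Fact (Closed K)] : St (Kx K) →ₐ[PK K] St (FractionRing (Kx K)) :=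
  { St.map (FF (Kx K)) with commutes' := fun _ => rfl }

/-- specialisation at zero -/
noncomputable def eps (K : Type) [Field K] [CharZero K] [Algebra ℚ K] [DD K]
    [Fact (Closed K)] : St (Kx K) →ₐ[PK K] St K :=
  { St.map (subst (DDHom.id K) (fun _ => 0)) with
    commutes' := fun c => by
      change St.map (subst (DDHom.id K) (fun _ => 0)) (St.map (CC K) (c : St K)) = c
      rw [St.map_map, subst_comp_CC]
      rfl }

lemma inclS_apply (x : St K) : inclS K x = St.map (CC K) x := rfl
lemma incl1_apply (x : St (Kx K)) : incl1 K x = St.map (FF (Kx K)) x := rfl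

lemma eps_inclS (x : St K) : eps K (inclS K x) = x := by
  change St.map (subst (DDHom.id K) (fun _ => 0)) (St.map (CC K) x) = x
  rw [St.map_map, subst_comp_CC]
  rfl

lemma eps_xi (i : ℕ) : eps K (mono 0 (xi K i)) = 0 := by
  change St.map (subst (DDHom.id K) (fun _ => 0)) (mono 0 (xi K i)) = 0
  rw [St.map_mono, subst_xi, mono_zero]

lemma incl1_inj : Function.Injective (incl1 K) := St.map_injective FF_inj

end center1

end Pool.Agent.LibStar
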