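import Mathlib

/-!
# Existence of a field with two commuting derivations in which every nonconstant differential
polynomial in one variable has a zero
-/

namespace Pool.Agent.LibStar.KE

open MvPolynomial

/-! ### Derivations and dual numbers -/

/-- A ring homomorphism to the dual numbers over the identity gives a derivation. -/
def derOfHom {R : Type} [CommRing R] (g : R →+* TrivSqZeroExt R R) (h : ∀ x, (g x).fst = x) :
    Derivation ℤ R R :=
  Derivation.mk'
    (AddMonoidHom.toIntLinearMap
      { toFun := fun x => (g x).snd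
        map_zero' := by simp
        map_add' := fun x y => by simp })
    (by
      intro a b
      change (g (a * b)).snd = a • (g b).snd + b • (g a).snd
      rw [map_mul, TrivSqZeroExt.snd_mul, h, h]
      simp [mul_comm])

@[simp] theorem derOfHom_apply {R : Type} [CommRing R] (g : R →+* TrivSqZeroExt R R)
    (h : ∀ x, (g x).fst = x) (x : R) : derOfHom g h x = (g x).snd := rfl

/-- A derivation and a ring homomorphism give a ring homomorphism into the dual numbers. -/
def homOfDer {R S : Type} [CommRing R] [CommRing S] (ι : R →+* S) (d : Derivation ℤ R R) :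
    R →+* TrivSqZeroExt S S where
  toFun x := TrivSqZeroExt.inl (ι x) + TrivSqZeroExt.inr (ι (d x))
  map_one' := by simp
  map_zero' := by simp
  map_add' x y := by
    ext <;> simp
  map_mul' x y := by
    ext
    · simp
    · simp [mul_comm]

@[simp] theorem homOfDer_fst {R S : Type} [CommRing R] [CommRing S] (ι : R →+* S)
    (d : Derivation ℤ R R) (x : R) : (homOfDer ι d x).fst = ι x := by
  simp [homOfDer]

@[simp] theorem homOfDer_snd {R S : Type} [CommRing R] [CommRing S] (ι : R →+* S)
    (d : Derivation ℤ R R) (x : R) : (homOfDer ι d x).snd = ι (d x) := by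
  simp [homOfDer]

/-! ### Extending derivations to the fraction field -/

section Frac

variable {A : Type} [CommRing A] {L : Type} [Field L] [Algebra A L] [IsFractionRing A L]

/-- The ring homomorphism from the fraction field to the dual numbers over it. -/
noncomputable def fracHom (L : Type) [Field L] [Algebra A L] [IsFractionRing A L]
    (d : Derivation ℤ A A) : L →+* TrivSqZeroExt L L :=
  IsLocalization.lift (M := nonZeroDivisors A) (g := homOfDer (algebraMap A L) d) (by
      intro y
      rw [TrivSqZeroExt.isUnit_iff_isUnit_fst, homOfDer_fst]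
      exact IsLocalization.map_units L y)

theorem fracHom_algebraMap (d : Derivation ℤ A A) (a : A) :
    fracHom L d (algebraMap A L a) = homOfDer (algebraMap A L) d a :=
  IsLocalization.lift_eq _ a

theorem fracHom_fst (d : Derivation ℤ A A) (x : L) : (fracHom L d x).fst = x := by
  have h : (TrivSqZeroExt.fstHom L L L).toRingHom.comp (fracHom L d) = RingHom.id _ := by
    apply IsLocalization.ringHom_ext (nonZeroDivisors A)
    ext a
    simp only [RingHom.comp_apply, fracHom_algebraMap]
    simp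
  have := congrArg (fun g => g x) h
  simpa using this

/-- The extension of a derivation to the fraction field. -/
noncomputable def fracDer (L : Type) [Field L] [Algebra A L] [IsFractionRing A L]
    (d : Derivation ℤ A A) : Derivation ℤ L L :=
  derOfHom (fracHom L d) (fracHom_fst d)

theorem fracDer_algebraMap (d : Derivation ℤ A A) (a : A) :
    fracDer L d (algebraMap A L a) = algebraMap A L (d a) := by
  rw [fracDer, derOfHom_apply, fracHom_algebraMap, homOfDer_snd]

theorem fracDer_comm (d e : Derivation ℤ A A) (h : ∀ a, d (e a) = e (d a))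
    (x : L) : fracDer L d (fracDer L e x) = fracDer L e (fracDer L d x) := by
  have key : ∀ x, ⁅fracDer L d, fracDer L e⁆ x = 0 := by
    intro x
    obtain ⟨a, b, hb, rfl⟩ := IsFractionRing.div_surjective (A := A) x
    rw [Derivation.leibniz_div]
    have hz : ∀ c : A, ⁅fracDer L d, fracDer L e⁆ (algebraMap A L c) = 0 := by
      intro c
      rw [Derivation.commutator_apply, fracDer_algebraMap, fracDer_algebraMap,
        fracDer_algebraMap, fracDer_algebraMap, h, sub_self]
    rw [hz, hz]
    simp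
  have := key x
  rw [Derivation.commutator_apply, sub_eq_zero] at this
  exact this

end Frac

/-! ### Power series in two variables -/

section Jets

variable {F : Type} [Field F] [CharZero F]

/-- The two partial derivatives, as `ℤ`-derivations. -/
noncomputable def pd (F : Type) [Field F] (i : Fin 2) :
    Derivation ℤ (MvPowerSeries (Fin 2) F) (MvPowerSeries (Fin 2) F) :=
  (MvPowerSeries.pderiv F i).restrictScalars ℤ

theorem coeff_pd (i : Fin 2) (f : MvPowerSeries (Fin 2) F) (n : Fin 2 →₀ ℕ) :
    MvPowerSeries.coeff n (pd F i f) = MvPowerSeries.coeff (n + Finsupp.single i 1) f * (n i + 1) :=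
  MvPowerSeries.coeff_pderiv f n

theorem pd_comm (i j : Fin 2) (f : MvPowerSeries (Fin 2) F) :
    pd F i (pd F j f) = pd F j (pd F i f) := by
  by_cases hij : i = j
  · rw [hij]
  · ext n
    rw [coeff_pd, coeff_pd, coeff_pd, coeff_pd]
    have h1 : n + Finsupp.single i 1 + Finsupp.single j 1 =
        n + Finsupp.single j 1 + Finsupp.single i 1 := by
      rw [add_assoc, add_assoc, add_comm (Finsupp.single i 1)]
    rw [h1]
    simp [Finsupp.single_apply, hij, Ne.symm hij]
    ring

theorem coeff_iter_pd (i : Fin 2) (k : ℕ) : ∀ (f : MvPowerSeries (Fin 2) F) (n : Fin 2 →₀ ℕ)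
    (_ : n i = 0), MvPowerSeries.coeff n ((pd F i)^[k] f) =
      MvPowerSeries.coeff (n + Finsupp.single i k) f * (k.factorial : F) := by
  induction k with
  | zero => intro f n _; simp
  | succ k ih =>
    intro f n hn
    rw [Function.iterate_succ_apply, ih _ n hn, coeff_pd]
    have h1 : n + Finsupp.single i k + Finsupp.single i 1 = n + Finsupp.single i (k + 1) := by
      rw [add_assoc, ← Finsupp.single_add]
    rw [h1]
    simp [hn, Nat.factorial_succ]
    ring

/-- The jet of a power series. -/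
theorem jet_eq (f : MvPowerSeries (Fin 2) F) (i j : ℕ) :
    MvPowerSeries.constantCoeff ((pd F 0)^[i] ((pd F 1)^[j] f)) =
      MvPowerSeries.coeff (Finsupp.single 0 i + Finsupp.single 1 j) f *
        ((i.factorial : F) * (j.factorial : F)) := by
  rw [← MvPowerSeries.coeff_zero_eq_constantCoeff_apply, coeff_iter_pd 0 i _ 0 rfl,
    coeff_iter_pd 1 j _ _ (by simp)]
  rw [zero_add]
  ring

theorem eq_single_add (n : Fin 2 →₀ ℕ) :
    n = Finsupp.single 0 (n 0) + Finsupp.single 1 (n 1) := by
  ext k
  fin_cases k <;> simp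

theorem jet_sep (f : MvPowerSeries (Fin 2) F)
    (h : ∀ i j, MvPowerSeries.constantCoeff ((pd F 0)^[i] ((pd F 1)^[j] f)) = 0) : f = 0 := by
  ext n
  have := h (n 0) (n 1)
  rw [jet_eq, ← eq_single_add] at this
  have h2 : ((n 0).factorial : F) * ((n 1).factorial : F) ≠ 0 :=
    mul_ne_zero (by exact_mod_cast Nat.factorial_ne_zero _) (by exact_mod_cast Nat.factorial_ne_zero _)
  rcases mul_eq_zero.1 this with h3 | h3
  · rw [h3]; simp
  · exact absurd h3 h2

/-- The power series with given jet. -/
def ofJet (c : ℕ × ℕ → F) : MvPowerSeries (Fin 2) F :=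
  fun n => c (n 0, n 1) / ((n 0).factorial * (n 1).factorial)

theorem jet_ofJet (c : ℕ × ℕ → F) (i j : ℕ) :
    MvPowerSeries.constantCoeff ((pd F 0)^[i] ((pd F 1)^[j] (ofJet c))) = c (i, j) := by
  rw [jet_eq]
  have h2 : ((i.factorial : F) * (j.factorial : F)) ≠ 0 :=
    mul_ne_zero (by exact_mod_cast Nat.factorial_ne_zero _) (by exact_mod_cast Nat.factorial_ne_zero _)
  have h3 : MvPowerSeries.coeff (Finsupp.single 0 i + Finsupp.single 1 j) (ofJet c) =
      c (i, j) / ((i.factorial : F) * (j.factorial : F)) := by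
    change c _ / _ = _
    simp
  rw [h3, div_mul_cancel₀ _ h2]

end Jets

/-! ### Taylor homomorphism -/

section Taylor

variable {F : Type} [Field F] [CharZero F]

/-- The `(i,j)` jet coordinate. -/
noncomputable def jet (i j : ℕ) (f : MvPowerSeries (Fin 2) F) : F :=
  MvPowerSeries.constantCoeff ((pd F 0)^[i] ((pd F 1)^[j] f))

omit [CharZero F] in
theorem jet_add (i j : ℕ) (f g : MvPowerSeries (Fin 2) F) :
    jet i j (f + g) = jet i j f + jet i j g := by
  unfold jet
  rw [iterate_map_add, iterate_map_add, map_add]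

omit [CharZero F] in
theorem jet_sub (i j : ℕ) (f g : MvPowerSeries (Fin 2) F) :
    jet i j (f - g) = jet i j f - jet i j g := by
  unfold jet
  rw [iterate_map_sub, iterate_map_sub, map_sub]

theorem jet_ext {f g : MvPowerSeries (Fin 2) F} (h : ∀ i j, jet i j f = jet i j g) : f = g := by
  rw [← sub_eq_zero]
  apply jet_sep
  intro i j
  have := jet_sub i j f g
  rw [h i j, sub_self] at this
  exact this

theorem jet_pd0 (i j : ℕ) (f : MvPowerSeries (Fin 2) F) :
    jet i j (pd F 0 f) = jet (i + 1) j f := by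
  unfold jet
  have h : Function.Commute (pd F 1) (pd F 0) := fun f => pd_comm 1 0 f
  rw [(h.iterate_left j).eq f, ← Function.iterate_succ_apply]

omit [CharZero F] in
theorem jet_pd1 (i j : ℕ) (f : MvPowerSeries (Fin 2) F) :
    jet i j (pd F 1 f) = jet i (j + 1) f := by
  unfold jet
  rw [← Function.iterate_succ_apply]

theorem jet_ofJet' (c : ℕ × ℕ → F) (i j : ℕ) : jet i j (ofJet c) = c (i, j) := jet_ofJet c i j

variable {K : Type} [Field K] (ι : K →+* F) (D E : Derivation ℤ K K)

/-- The Taylor expansion. -/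
noncomputable def taylorFun (a : K) : MvPowerSeries (Fin 2) F :=
  ofJet (fun ij => ι (D^[ij.1] (E^[ij.2] a)))

theorem jet_taylorFun (a : K) (i j : ℕ) :
    jet i j (taylorFun ι D E a) = ι (D^[i] (E^[j] a)) := jet_ofJet' _ i j

theorem taylorFun_add (a b : K) :
    taylorFun ι D E (a + b) = taylorFun ι D E a + taylorFun ι D E b := by
  apply jet_ext
  intro i j
  rw [jet_add, jet_taylorFun, jet_taylorFun, jet_taylorFun, iterate_map_add, iterate_map_add,
    map_add]

variable {D E}

theorem pd0_taylorFun (hDE : ∀ a, D (E a) = E (D a)) (a : K) :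
    pd F 0 (taylorFun ι D E a) = taylorFun ι D E (D a) := by
  apply jet_ext
  intro i j
  have h : Function.Commute E D := fun a => (hDE a).symm
  rw [jet_pd0, jet_taylorFun, jet_taylorFun, (h.iterate_left j).eq a,
    ← Function.iterate_succ_apply]

theorem pd1_taylorFun (a : K) :
    pd F 1 (taylorFun ι D E a) = taylorFun ι D E (E a) := by
  apply jet_ext
  intro i j
  rw [jet_pd1, jet_taylorFun, jet_taylorFun, ← Function.iterate_succ_apply]

theorem taylorFun_mul_aux (hDE : ∀ a, D (E a) = E (D a)) (n : ℕ) : ∀ (i j : ℕ), i + j = n →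
    ∀ a b : K, jet i j (taylorFun ι D E (a * b) - taylorFun ι D E a * taylorFun ι D E b) = 0 := by
  induction n with
  | zero =>
    intro i j hij a b
    obtain ⟨rfl, rfl⟩ : i = 0 ∧ j = 0 := by omega
    have h1 := jet_taylorFun ι D E (a * b) 0 0
    have h2 := jet_taylorFun ι D E a 0 0
    have h3 := jet_taylorFun ι D E b 0 0
    simp only [jet, Function.iterate_zero, id] at h1 h2 h3 ⊢
    rw [map_sub, map_mul, h1, h2, h3, map_mul, sub_self]
  | succ n ih =>
    intro i j hij a b
    rcases i with _ | i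
    · obtain ⟨j, rfl⟩ : ∃ j', j = j' + 1 := ⟨j - 1, by omega⟩
      rw [← jet_pd1]
      have h1 : pd F 1 (taylorFun ι D E (a * b) - taylorFun ι D E a * taylorFun ι D E b) =
          (taylorFun ι D E (a * E b) - taylorFun ι D E a * taylorFun ι D E (E b)) +
          (taylorFun ι D E (b * E a) - taylorFun ι D E b * taylorFun ι D E (E a)) := by
        rw [map_sub, Derivation.leibniz, pd1_taylorFun, pd1_taylorFun, pd1_taylorFun,
          Derivation.leibniz, taylorFun_add]
        simp only [smul_eq_mul]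
        ring
      rw [h1, jet_add, ih 0 j (by omega), ih 0 j (by omega), add_zero]
    · rw [← jet_pd0]
      have h1 : pd F 0 (taylorFun ι D E (a * b) - taylorFun ι D E a * taylorFun ι D E b) =
          (taylorFun ι D E (a * D b) - taylorFun ι D E a * taylorFun ι D E (D b)) +
          (taylorFun ι D E (b * D a) - taylorFun ι D E b * taylorFun ι D E (D a)) := by
        rw [map_sub, Derivation.leibniz, pd0_taylorFun ι hDE, pd0_taylorFun ι hDE,
          pd0_taylorFun ι hDE, Derivation.leibniz, taylorFun_add]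
        simp only [smul_eq_mul]
        ring
      rw [h1, jet_add, ih i j (by omega), ih i j (by omega), add_zero]

theorem taylorFun_mul (hDE : ∀ a, D (E a) = E (D a)) (a b : K) :
    taylorFun ι D E (a * b) = taylorFun ι D E a * taylorFun ι D E b := by
  rw [← sub_eq_zero]
  apply jet_sep
  intro i j
  exact taylorFun_mul_aux ι hDE (i + j) i j rfl a b

theorem taylorFun_one (hDE : ∀ a, D (E a) = E (D a)) :
    taylorFun ι D E 1 = (1 : MvPowerSeries (Fin 2) F) := by
  have h1 : taylorFun ι D E 1 * taylorFun ι D E 1 = taylorFun ι D E 1 := by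
    rw [← taylorFun_mul ι hDE, mul_one]
  have h2 : taylorFun ι D E 1 ≠ 0 := by
    intro h
    have := jet_taylorFun ι D E 1 0 0
    rw [h] at this
    simp [jet] at this
  exact mul_left_cancel₀ h2 (by rw [h1, mul_one])

/-- The Taylor homomorphism. -/
noncomputable def taylor (hDE : ∀ a, D (E a) = E (D a)) : K →+* MvPowerSeries (Fin 2) F where
  toFun := taylorFun ι D E
  map_one' := taylorFun_one ι hDE
  map_mul' := taylorFun_mul ι hDE
  map_add' := taylorFun_add ι D E
  map_zero' := by
    have := taylorFun_add ι D E 0 0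
    rw [add_zero] at this
    exact left_eq_add.1 this

theorem taylor_apply (hDE : ∀ a, D (E a) = E (D a)) (a : K) :
    taylor ι hDE a = taylorFun ι D E a := rfl

end Taylor

/-! ### Differential polynomials -/

section DiffPoly

variable {K : Type} [Field K]

/-- The ring homomorphism to the dual numbers giving the total derivation. -/
noncomputable def totHom (d : Derivation ℤ K K) (e : ℕ × ℕ) : MvPolynomial (ℕ × ℕ) K →+*
    TrivSqZeroExt (MvPolynomial (ℕ × ℕ) K) (MvPolynomial (ℕ × ℕ) K) :=
  eval₂Hom (homOfDer (C : K →+* MvPolynomial (ℕ × ℕ) K) d)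
    (fun θ => TrivSqZeroExt.inl (X θ) + TrivSqZeroExt.inr (X (θ + e)))

theorem totHom_fst (d : Derivation ℤ K K) (e : ℕ × ℕ) (x : MvPolynomial (ℕ × ℕ) K) :
    (totHom d e x).fst = x := by
  have h : (TrivSqZeroExt.fstHom (MvPolynomial (ℕ × ℕ) K) (MvPolynomial (ℕ × ℕ) K)
      (MvPolynomial (ℕ × ℕ) K)).toRingHom.comp (totHom d e) = RingHom.id _ := by
    apply MvPolynomial.ringHom_ext
    · intro a; simp [totHom]
    · intro θ; simp [totHom]
  exact congrArg (fun g => g x) h

/-- The total derivation of differential polynomials over a derivation `d` of the coefficients,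
with `X θ ↦ X (θ + e)`. -/
noncomputable def tot (d : Derivation ℤ K K) (e : ℕ × ℕ) :
    Derivation ℤ (MvPolynomial (ℕ × ℕ) K) (MvPolynomial (ℕ × ℕ) K) :=
  derOfHom (totHom d e) (totHom_fst d e)

theorem tot_C (d : Derivation ℤ K K) (e : ℕ × ℕ) (a : K) : tot d e (C a) = C (d a) := by
  change (totHom d e (C a)).snd = _
  simp [totHom]

theorem tot_X (d : Derivation ℤ K K) (e : ℕ × ℕ) (θ : ℕ × ℕ) : tot d e (X θ) = X (θ + e) := by
  change (totHom d e (X θ)).snd = _
  simp [totHom]

variable {F : Type} [Field F] [CharZero F] (ι : K →+* F) {D E : Derivation ℤ K K}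
  (hDE : ∀ a, D (E a) = E (D a))

/-- Evaluation of differential polynomials at a power series. -/
noncomputable def evS (u : MvPowerSeries (Fin 2) F) :
    MvPolynomial (ℕ × ℕ) K →+* MvPowerSeries (Fin 2) F :=
  eval₂Hom (taylor ι hDE) (fun θ => (pd F 0)^[θ.1] ((pd F 1)^[θ.2] u))

theorem evS_tot0 (u : MvPowerSeries (Fin 2) F) (P : MvPolynomial (ℕ × ℕ) K) :
    evS ι hDE u (tot D (1, 0) P) = pd F 0 (evS ι hDE u P) := by
  induction P using MvPolynomial.induction_on with
  | C a =>
    rw [tot_C, evS, eval₂Hom_C, eval₂Hom_C, taylor_apply, taylor_apply, pd0_taylorFun ι hDE]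
  | add p q hp hq => rw [map_add, map_add, map_add, map_add, hp, hq]
  | mul_X p θ hp =>
    rw [Derivation.leibniz, map_mul, Derivation.leibniz, tot_X]
    simp only [smul_eq_mul, map_add, map_mul, hp]
    congr 2
    simp only [evS, eval₂Hom_X']
    change (pd F 0)^[θ.1 + 1] ((pd F 1)^[θ.2] u) = _
    rw [Function.iterate_succ_apply']

theorem evS_tot1 (u : MvPowerSeries (Fin 2) F) (P : MvPolynomial (ℕ × ℕ) K) :
    evS ι hDE u (tot E (0, 1) P) = pd F 1 (evS ι hDE u P) := by
  induction P using MvPolynomial.induction_on with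
  | C a =>
    rw [tot_C, evS, eval₂Hom_C, eval₂Hom_C, taylor_apply, taylor_apply, pd1_taylorFun ι]
  | add p q hp hq => rw [map_add, map_add, map_add, map_add, hp, hq]
  | mul_X p θ hp =>
    rw [Derivation.leibniz, map_mul, Derivation.leibniz, tot_X]
    simp only [smul_eq_mul, map_add, map_mul, hp]
    congr 2
    simp only [evS, eval₂Hom_X']
    have h : Function.Commute (pd F 0) (pd F 1) := fun f => pd_comm 0 1 f
    change (pd F 0)^[θ.1] ((pd F 1)^[θ.2 + 1] u) = _
    rw [Function.iterate_succ_apply', (h.iterate_left θ.1).eq]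

theorem jet_evS (u : MvPowerSeries (Fin 2) F) (c : ℕ × ℕ → F) (hu : ∀ i j, jet i j u = c (i, j))
    (P : MvPolynomial (ℕ × ℕ) K) (m n : ℕ) :
    jet m n (evS ι hDE u P) = eval₂ ι c ((tot D (1, 0))^[m] ((tot E (0, 1))^[n] P)) := by
  have h0 : Function.Semiconj (evS ι hDE u) (tot D (1, 0)) (pd F 0) := evS_tot0 ι hDE u
  have h1 : Function.Semiconj (evS ι hDE u) (tot E (0, 1)) (pd F 1) := evS_tot1 ι hDE u
  unfold jet
  rw [← (h1.iterate_right n).eq, ← (h0.iterate_right m).eq]
  have h2 : ((MvPowerSeries.constantCoeff (σ := Fin 2) (R := F)).comp (evS ι hDE u)) =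
      eval₂Hom ι c := by
    apply MvPolynomial.ringHom_ext
    · intro a
      rw [RingHom.comp_apply, evS, eval₂Hom_C, eval₂Hom_C, taylor_apply]
      exact jet_taylorFun ι D E a 0 0
    · rintro ⟨i, j⟩
      rw [RingHom.comp_apply, evS, eval₂Hom_X', eval₂Hom_X']
      exact hu i j
  have := congrArg (fun g => g ((tot D (1, 0))^[m] ((tot E (0, 1))^[n] P))) h2
  simpa using this

end DiffPoly

/-! ### Lexicographic order and supports -/

/-- The lexicographic order on indices. -/
abbrev lx (a : ℕ × ℕ) : ℕ ×ₗ ℕ := toLex a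

theorem lx_lt_iff {a b : ℕ × ℕ} : lx a < lx b ↔ a.1 < b.1 ∨ (a.1 = b.1 ∧ a.2 < b.2) := by
  rw [Prod.Lex.lt_iff]
  simp

theorem lx_add_lt {a b : ℕ × ℕ} (e : ℕ × ℕ) (h : lx a < lx b) : lx (a + e) < lx (b + e) := by
  rw [lx_lt_iff] at h ⊢
  simp only [Prod.fst_add, Prod.snd_add]
  omega

theorem lx_lt_add {a e : ℕ × ℕ} (he : e ≠ 0) : lx a < lx (a + e) := by
  rw [lx_lt_iff]
  simp only [Prod.fst_add, Prod.snd_add]
  have : ¬ (e.1 = 0 ∧ e.2 = 0) := fun h => he (Prod.ext h.1 h.2)
  omega

theorem lx_le_add (a e : ℕ × ℕ) : lx a ≤ lx (a + e) := by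
  by_cases he : e = 0
  · rw [he, add_zero]
  · exact (lx_lt_add he).le

section Supp

variable {K : Type} [Field K]

/-- Differential polynomials of order below `w`. -/
noncomputable def slt (K : Type) [Field K] (w : ℕ × ℕ) : Subalgebra K (MvPolynomial (ℕ × ℕ) K) :=
  supported K {θ | lx θ < lx w}

/-- Differential polynomials of order at most `w`. -/
noncomputable def sle (K : Type) [Field K] (w : ℕ × ℕ) : Subalgebra K (MvPolynomial (ℕ × ℕ) K) :=
  supported K {θ | lx θ ≤ lx w}

theorem slt_mono {a b : ℕ × ℕ} (h : lx a ≤ lx b) : slt K a ≤ slt K b :=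
  supported_mono (fun _ hθ => lt_of_lt_of_le hθ h)

theorem sle_le_slt {a b : ℕ × ℕ} (h : lx a < lx b) : sle K a ≤ slt K b :=
  supported_mono (fun _ hθ => lt_of_le_of_lt hθ h)

theorem X_mem_slt {a w : ℕ × ℕ} (h : lx a < lx w) : (X a : MvPolynomial (ℕ × ℕ) K) ∈ slt K w :=
  X_mem_supported.2 h

theorem C_mem (S : Subalgebra K (MvPolynomial (ℕ × ℕ) K)) (a : K) : C a ∈ S :=
  S.algebraMap_mem a

theorem tot_mem_slt (d : Derivation ℤ K K) (e : ℕ × ℕ) {w : ℕ × ℕ}
    {P : MvPolynomial (ℕ × ℕ) K} (hP : P ∈ slt K w) : tot d e P ∈ slt K (w + e) := by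
  have hmono : slt K w ≤ slt K (w + e) := slt_mono (lx_le_add w e)
  refine Algebra.adjoin_induction (p := fun P _ => tot d e P ∈ slt K (w + e)) ?_ ?_ ?_ ?_ hP
  · rintro _ ⟨θ, hθ, rfl⟩
    rw [tot_X]
    exact X_mem_slt (lx_add_lt e hθ)
  · intro r
    rw [MvPolynomial.algebraMap_eq, tot_C]
    exact C_mem _ _
  · intro x y _ _ hx hy
    rw [map_add]
    exact add_mem hx hy
  · intro x y hx' hy' hx hy
    rw [Derivation.leibniz]
    exact add_mem (mul_mem (hmono hx') hy) (mul_mem (hmono hy') hx)

theorem tot_sub_mem (d : Derivation ℤ K K) {e : ℕ × ℕ} (he : e ≠ 0) {v : ℕ × ℕ}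
    {P : MvPolynomial (ℕ × ℕ) K} (hP : P ∈ sle K v) :
    tot d e P - pderiv v P * X (v + e) ∈ slt K (v + e) := by
  have hmono : sle K v ≤ slt K (v + e) := sle_le_slt (lx_lt_add he)
  refine Algebra.adjoin_induction (p := fun P _ => tot d e P - pderiv v P * X (v + e) ∈
    slt K (v + e)) ?_ ?_ ?_ ?_ hP
  · rintro _ ⟨θ, hθ, rfl⟩
    rw [tot_X]
    by_cases hv : θ = v
    · rw [hv, pderiv_X_self, one_mul, sub_self]
      exact zero_mem _
    · rw [pderiv_X_of_ne hv, zero_mul, sub_zero]
      apply X_mem_slt (lx_add_lt e _)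
      exact lt_of_le_of_ne hθ (fun h => hv (toLex.injective h))
  · intro r
    rw [MvPolynomial.algebraMap_eq, tot_C, pderiv_C, zero_mul, sub_zero]
    exact C_mem _ _
  · intro x y _ _ hx hy
    have : tot d e (x + y) - pderiv v (x + y) * X (v + e) =
        (tot d e x - pderiv v x * X (v + e)) + (tot d e y - pderiv v y * X (v + e)) := by
      rw [map_add, map_add]; ring
    rw [this]
    exact add_mem hx hy
  · intro x y hx' hy' hx hy
    have : tot d e (x * y) - pderiv v (x * y) * X (v + e) =
        x * (tot d e y - pderiv v y * X (v + e)) + y * (tot d e x - pderiv v x * X (v + e)) := by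
      rw [Derivation.leibniz, Derivation.leibniz]
      simp only [smul_eq_mul]
      ring
    rw [this]
    exact add_mem (mul_mem (hmono hx') hx |> fun _ => mul_mem (hmono hx') hy)
      (mul_mem (hmono hy') hx)

theorem pderiv_mem_sle {v : ℕ × ℕ} {P : MvPolynomial (ℕ × ℕ) K} (hP : P ∈ sle K v) :
    pderiv v P ∈ sle K v := by
  refine Algebra.adjoin_induction (p := fun P _ => pderiv v P ∈ sle K v) ?_ ?_ ?_ ?_ hP
  · rintro _ ⟨θ, hθ, rfl⟩
    by_cases hv : θ = v
    · rw [hv, pderiv_X_self]; exact one_mem _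
    · rw [pderiv_X_of_ne hv]; exact zero_mem _
  · intro r
    rw [MvPolynomial.algebraMap_eq, pderiv_C]; exact zero_mem _
  · intro x y _ _ hx hy
    rw [map_add]; exact add_mem hx hy
  · intro x y hx' hy' hx hy
    rw [Derivation.leibniz]
    exact add_mem (mul_mem hx' hy) (mul_mem hy' hx)

theorem step_mem (d : Derivation ℤ K K) {e : ℕ × ℕ} (he : e ≠ 0) {v η : ℕ × ℕ} (hη : η ≠ 0)
    {P Q : MvPolynomial (ℕ × ℕ) K} (hP : P ∈ sle K v)
    (hQ : Q - pderiv v P * X (v + η) ∈ slt K (v + η)) :
    tot d e Q - pderiv v P * X (v + η + e) ∈ slt K (v + η + e) := by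
  have h1 : tot d e Q - pderiv v P * X (v + η + e) =
      tot d e (Q - pderiv v P * X (v + η)) + X (v + η) * tot d e (pderiv v P) := by
    rw [map_sub, Derivation.leibniz, tot_X]
    simp only [smul_eq_mul]
    ring
  rw [h1]
  refine add_mem (tot_mem_slt d e hQ) (mul_mem (X_mem_slt (lx_lt_add he)) ?_)
  exact tot_mem_slt d e (sle_le_slt (lx_lt_add hη) (pderiv_mem_sle hP))

variable (D E : Derivation ℤ K K)

/-- The derivatives of a differential polynomial. -/
noncomputable def dv (P : MvPolynomial (ℕ × ℕ) K) (η : ℕ × ℕ) : MvPolynomial (ℕ × ℕ) K :=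
  (tot D (1, 0))^[η.1] ((tot E (0, 1))^[η.2] P)

theorem dv_zero (P : MvPolynomial (ℕ × ℕ) K) : dv D E P (0, 0) = P := by
  unfold dv
  simp only [Function.iterate_zero, id]

theorem dv_succ_right (P : MvPolynomial (ℕ × ℕ) K) (n : ℕ) :
    dv D E P (0, n + 1) = tot E (0, 1) (dv D E P (0, n)) := by
  unfold dv
  simp only [Function.iterate_zero, id, Function.iterate_succ_apply']

theorem dv_succ_left (P : MvPolynomial (ℕ × ℕ) K) (m n : ℕ) :
    dv D E P (m + 1, n) = tot D (1, 0) (dv D E P (m, n)) := by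
  unfold dv
  simp only [Function.iterate_succ_apply']

theorem dv_mem {v : ℕ × ℕ} {P : MvPolynomial (ℕ × ℕ) K} (hP : P ∈ sle K v) :
    ∀ η : ℕ × ℕ, η ≠ 0 → dv D E P η - pderiv v P * X (v + η) ∈ slt K (v + η) := by
  have h01 : ((0, 1) : ℕ × ℕ) ≠ 0 := by simp
  have h10 : ((1, 0) : ℕ × ℕ) ≠ 0 := by simp
  have h1 : ∀ n, dv D E P (0, n + 1) - pderiv v P * X (v + (0, n + 1)) ∈
      slt K (v + (0, n + 1)) := by
    intro n
    induction n with
    | zero =>
      rw [dv_succ_right, dv_zero]
      exact tot_sub_mem E h01 hP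
    | succ n ih =>
      have hne : ((0, n + 1) : ℕ × ℕ) ≠ 0 := by simp
      have h := step_mem E h01 hne hP ih
      have e1 : v + (0, n + 1) + (0, 1) = v + (0, n + 1 + 1) := by
        ext <;> simp [add_assoc]
      rw [e1] at h
      rw [dv_succ_right]
      exact h
  have h2 : ∀ m n, (m, n) ≠ ((0, 0) : ℕ × ℕ) →
      dv D E P (m, n) - pderiv v P * X (v + (m, n)) ∈ slt K (v + (m, n)) := by
    intro m n
    induction m with
    | zero =>
      intro hne
      rcases n with _ | n
      · exact absurd rfl hne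
      · exact h1 n
    | succ m ih =>
      intro _
      have e1 : v + (m, n) + (1, 0) = v + (m + 1, n) := by
        ext <;> simp [add_assoc]
      rw [dv_succ_left]
      by_cases hmn : (m, n) = ((0, 0) : ℕ × ℕ)
      · obtain ⟨rfl, rfl⟩ : m = 0 ∧ n = 0 := by simpa using hmn
        rw [dv_zero]
        exact tot_sub_mem D h10 hP
      · have h := step_mem D h10 (η := (m, n)) hmn hP (ih hmn)
        rw [e1] at h
        exact h
  exact fun η hη => h2 η.1 η.2 hη

end Supp

/-! ### The recursive solution -/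

section Solve

variable {K F : Type} [Field K] [Field F] (ι : K →+* F)

theorem eval₂_congr_supported {s : Set (ℕ × ℕ)} {f g : ℕ × ℕ → F} (hfg : ∀ θ ∈ s, f θ = g θ)
    {P : MvPolynomial (ℕ × ℕ) K} (hP : P ∈ supported K s) : eval₂ ι f P = eval₂ ι g P := by
  refine Algebra.adjoin_induction (p := fun P _ => eval₂ ι f P = eval₂ ι g P) ?_ ?_ ?_ ?_ hP
  · rintro _ ⟨θ, hθ, rfl⟩
    rw [eval₂_X, eval₂_X, hfg θ hθ]
  · intro r
    rw [MvPolynomial.algebraMap_eq, eval₂_C, eval₂_C]
  · intro x y _ _ hx hy
    rw [eval₂_add, eval₂_add, hx, hy]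
  · intro x y _ _ hx hy
    rw [eval₂_mul, eval₂_mul, hx, hy]

variable (T : ℕ × ℕ → MvPolynomial (ℕ × ℕ) K) (v : ℕ × ℕ) (s₀ : F) (init : ℕ × ℕ → F)

open Classical in
/-- Recursive construction of the jet of the solution. -/
noncomputable def sol : ℕ × ℕ → F :=
  WellFounded.fix (C := fun _ => F) (InvImage.wf lx (wellFounded_lt (α := ℕ ×ₗ ℕ)))
    (fun θ rec => if v ≤ θ ∧ θ ≠ v then
      - eval₂ ι (fun θ' => if h : lx θ' < lx θ then rec θ' h else 0) (T (θ - v)) / s₀
      else init θ)

open Classical in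
theorem sol_eq (θ : ℕ × ℕ) : sol ι T v s₀ init θ = if v ≤ θ ∧ θ ≠ v then
      - eval₂ ι (fun θ' => if _h : lx θ' < lx θ then sol ι T v s₀ init θ' else 0) (T (θ - v)) / s₀
      else init θ := by
  unfold sol
  rw [WellFounded.fix_eq]

theorem sol_init {θ : ℕ × ℕ} (h : lx θ ≤ lx v) : sol ι T v s₀ init θ = init θ := by
  classical
  rw [sol_eq, if_neg]
  rintro ⟨h1, h2⟩
  have h3 : θ = v + (θ - v) := by
    ext
    · have := h1.1; simp; omega
    · have := h1.2; simp; omega
  have h4 : θ - v ≠ 0 := by
    intro h5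
    rw [h5, add_zero] at h3
    exact h2 h3
  have h5 := lx_lt_add (a := v) h4
  rw [← h3] at h5
  exact absurd h (not_le.2 h5)

theorem sol_step {η : ℕ × ℕ} (hη : η ≠ 0) (hT : T η ∈ slt K (v + η)) :
    sol ι T v s₀ init (v + η) = - eval₂ ι (sol ι T v s₀ init) (T η) / s₀ := by
  classical
  rw [sol_eq, if_pos ⟨le_self_add, by simpa using hη⟩, add_tsub_cancel_left]
  congr 2
  apply eval₂_congr_supported ι _ hT
  intro θ hθ
  have h : lx θ < lx (v + η) := hθ
  rw [dif_pos h]

end Solve

end Pool.Agent.LibStar.KE
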