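import Pool.Agent.Lib_MP_4b1745_al.KE1

namespace Pool.Agent.LibStar.KE

open MvPolynomial

/-! ### Initial data -/

section Init

variable {K F : Type} [Field K] [CharZero K] [Field F] [IsAlgClosed F] [Algebra K F]

omit [CharZero K] in
theorem totalDegree_pderiv_lt {σ : Type} {v : σ} {P : MvPolynomial σ K}
    (hne : pderiv v P ≠ 0) : (pderiv v P).totalDegree < P.totalDegree := by
  have hcomb : ∀ m : σ →₀ ℕ, (m.sum fun _ e => e) = m.degree := fun m => rfl
  have key : ∀ m ∈ (pderiv v P).support, m.degree + 1 ≤ P.totalDegree := by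
    intro m hm
    have h2 : coeff (m + Finsupp.single v 1) P ≠ 0 := by
      intro h
      rw [mem_support_iff, coeff_pderiv, h] at hm
      simp at hm
    have h3 := le_totalDegree (mem_support_iff.2 h2)
    rw [hcomb, map_add, Finsupp.degree_single] at h3
    exact h3
  obtain ⟨m, hm⟩ := support_nonempty.2 hne
  have hpos : 0 < P.totalDegree := by have := key m hm; omega
  rw [totalDegree, Finset.sup_lt_iff hpos]
  intro m hm
  have := key m hm
  rw [hcomb]
  omega

theorem pderiv_ne_zero {σ : Type} {v : σ} {P : MvPolynomial σ K} (hv : v ∈ P.vars) :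
    pderiv v P ≠ 0 := by
  classical
  obtain ⟨m, hm, hmv⟩ := (mem_vars_iff_mem_support v).1 hv
  intro h
  have h1 : coeff (m - Finsupp.single v 1) (pderiv v P) = 0 := by rw [h]; simp
  rw [coeff_pderiv] at h1
  have h2 : m - Finsupp.single v 1 + Finsupp.single v 1 = m := by
    apply tsub_add_cancel_of_le
    rw [Finsupp.single_le_iff]
    exact Nat.one_le_iff_ne_zero.2 (Finsupp.mem_support_iff.1 hmv)
  rw [h2] at h1
  rcases mul_eq_zero.1 h1 with h3 | h3
  · exact mem_support_iff.1 hm h3
  · have h4 : ((((m - Finsupp.single v 1 : σ →₀ ℕ) v + 1 : ℕ)) : K) = 0 := by push_cast; exact h3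
    exact absurd (Nat.cast_eq_zero.1 h4) (by omega)

theorem exists_init (N : MvPolynomial (ℕ × ℕ) K) (hN : N ∉ Set.range MvPolynomial.C) :
    ∃ (M : MvPolynomial (ℕ × ℕ) K) (v : ℕ × ℕ) (init : ℕ × ℕ → F), M ∣ N ∧ M ∈ sle K v ∧
      eval₂ (algebraMap K F) init M = 0 ∧ eval₂ (algebraMap K F) init (pderiv v M) ≠ 0 := by
  classical
  have h1 := mem_supported_vars N
  rw [supported_eq_range_rename] at h1
  obtain ⟨N', hN'⟩ := h1
  have hN'' : rename Subtype.val N' = N := hN'
  have hnC : ∀ a, N' ≠ C a := by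
    rintro a rfl
    apply hN
    exact ⟨a, by rw [← hN'', rename_C]⟩
  have hunit : ¬ IsUnit N' := by
    rw [isUnit_iff_eq_C_of_isReduced]
    rintro ⟨r, _, hr⟩
    exact hnC r hr
  have hzero : N' ≠ 0 := by
    intro h
    exact hnC 0 (by rw [h, C_0])
  obtain ⟨M', hirr, hdvd⟩ := WfDvdMonoid.exists_irreducible_factor hunit hzero
  have hvars : M'.vars.Nonempty := by
    rw [Finset.nonempty_iff_ne_empty]
    intro h
    have h2 := vars_eq_empty_iff_eq_C.1 h
    by_cases h3 : coeff 0 M' = 0
    · rw [h3, C_0] at h2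
      exact hirr.ne_zero h2
    · apply hirr.not_isUnit
      rw [h2]
      exact (isUnit_iff_ne_zero.2 h3).map C
  obtain ⟨v, hv, hmax⟩ := Finset.exists_max_image M'.vars (fun θ => lx θ.val) hvars
  have hS : pderiv v M' ≠ 0 := pderiv_ne_zero hv
  have hnd : ¬ M' ∣ pderiv v M' := by
    rintro ⟨Q, hQ⟩
    have hQ0 : Q ≠ 0 := by
      rintro rfl
      rw [mul_zero] at hQ
      exact hS hQ
    have h2 := totalDegree_pderiv_lt hS
    have h3 := totalDegree_mul_of_isDomain hirr.ne_zero hQ0
    rw [← hQ] at h3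
    omega
  have hprime : (Ideal.span {M'}).IsPrime :=
    (Ideal.span_singleton_prime hirr.ne_zero).2 hirr.prime
  have hnotin : pderiv v M' ∉ Ideal.span {M'} := by
    rw [Ideal.mem_span_singleton]
    exact hnd
  rw [← IsPrime.vanishingIdeal_zeroLocus (K := F) (Ideal.span {M'}),
    mem_vanishingIdeal_iff] at hnotin
  push Not at hnotin
  obtain ⟨x, hx, hxS⟩ := hnotin
  have hxM : aeval x M' = 0 := hx M' (Ideal.mem_span_singleton_self M')
  refine ⟨rename Subtype.val M', v.val, fun θ => if h : θ ∈ N.vars then x ⟨θ, h⟩ else 0,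
    ?_, ?_, ?_, ?_⟩
  · obtain ⟨Q, hQ⟩ := hdvd
    refine ⟨rename Subtype.val Q, ?_⟩
    rw [← map_mul, ← hQ]
    exact hN''.symm
  · unfold sle
    rw [mem_supported]
    intro θ hθ
    have h2 := vars_rename (Subtype.val) M' hθ
    rw [Finset.mem_image] at h2
    obtain ⟨θ', hθ', rfl⟩ := h2
    exact hmax θ' hθ'
  · rw [eval₂_rename]
    rw [aeval_def] at hxM
    rw [← hxM]
    congr 1
    funext θ
    simp
  · rw [pderiv_rename Subtype.val_injective, eval₂_rename]
    rw [aeval_def] at hxS
    intro h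
    apply hxS
    rw [← h]
    congr 1
    funext θ
    simp

end Init

/-! ### Solving one differential polynomial -/

theorem exists_solution {K F : Type} [Field K] [CharZero K] [Field F] [CharZero F]
    [IsAlgClosed F] [Algebra K F] {D E : Derivation ℤ K K} (hDE : ∀ a, D (E a) = E (D a))
    (N : MvPolynomial (ℕ × ℕ) K) (hN : N ∉ Set.range MvPolynomial.C) :
    ∃ u : MvPowerSeries (Fin 2) F, evS (algebraMap K F) hDE u N = 0 := by
  obtain ⟨M, v, init, ⟨Q, hQ⟩, hM, hM0, hS0⟩ := exists_init (F := F) N hN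
  set s₀ := eval₂ (algebraMap K F) init (pderiv v M) with hs₀
  let T : ℕ × ℕ → MvPolynomial (ℕ × ℕ) K := fun η => dv D E M η - pderiv v M * X (v + η)
  let c := sol (algebraMap K F) T v s₀ init
  have hc : ∀ θ, lx θ ≤ lx v → c θ = init θ := fun θ hθ => sol_init _ _ _ _ _ hθ
  have hcM : eval₂ (algebraMap K F) c M = 0 := by
    rw [eval₂_congr_supported (algebraMap K F) (s := {θ | lx θ ≤ lx v}) (g := init) hc hM]
    exact hM0
  have hcS : eval₂ (algebraMap K F) c (pderiv v M) = s₀ :=
    eval₂_congr_supported (algebraMap K F) (s := {θ | lx θ ≤ lx v}) (g := init) hc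
      (pderiv_mem_sle hM)
  have hcη : ∀ η, eval₂ (algebraMap K F) c (dv D E M η) = 0 := by
    intro η
    by_cases hη : η = 0
    · rw [hη]
      have : dv D E M 0 = M := dv_zero D E M
      rw [this]
      exact hcM
    · have h1 := dv_mem D E hM η hη
      have h2 : dv D E M η = T η + pderiv v M * X (v + η) := by
        simp only [T]; ring
      have h3 : c (v + η) = - eval₂ (algebraMap K F) c (T η) / s₀ :=
        sol_step _ _ _ _ _ hη h1
      rw [h2, eval₂_add, eval₂_mul, eval₂_X, hcS, h3]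
      rw [mul_div_cancel₀ _ hS0]
      ring
  refine ⟨ofJet c, ?_⟩
  rw [hQ, map_mul]
  have : evS (algebraMap K F) hDE (ofJet c) M = 0 := by
    apply jet_sep
    intro i j
    change jet i j _ = 0
    rw [jet_evS (algebraMap K F) hDE (ofJet c) c (jet_ofJet' c)]
    exact hcη (i, j)
  rw [this, zero_mul]

end Pool.Agent.LibStar.KE
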