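import Pool.Agent.Lib_MP_4b1745_al.StRing
import Mathlib.Algebra.MvPolynomial.Eval
import Mathlib.Algebra.MvPolynomial.CommRing
import Mathlib.Algebra.DualNumber
import Mathlib.Algebra.MvPolynomial.Basic
import Mathlib.RingTheory.MvPolynomial.Basic

/-! # Differential polynomials -/

set_option autoImplicit false
set_option linter.unusedSectionVars false

namespace Pool.Agent.LibStar

open Finset MvPolynomial

section ext

variable {K : Type*} [CommRing K] {σ : Type*}

/-- the ring hom into dual numbers describing the derivation -/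
noncomputable def dualHom (d : Der K) (v : σ → MvPolynomial σ K) :
    MvPolynomial σ K →+* DualNumber (MvPolynomial σ K) :=
  eval₂Hom
    ({ toFun := fun a => TrivSqZeroExt.inl (C a) + TrivSqZeroExt.inr (C (d a))
       map_one' := by simp
       map_mul' := fun a b => by
        ext
        · simp
        · simp [Derivation.leibniz, mul_comm]
       map_zero' := by simp
       map_add' := fun a b => by
        ext
        · simp
        · simp } : K →+* DualNumber (MvPolynomial σ K))
    (fun i => TrivSqZeroExt.inl (X i) + TrivSqZeroExt.inr (v i))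

lemma dualHom_fst (d : Der K) (v : σ → MvPolynomial σ K) (p : MvPolynomial σ K) :
    (dualHom d v p).fst = p := by
  have h : ((TrivSqZeroExt.fstHom ℤ (MvPolynomial σ K) (MvPolynomial σ K)).toRingHom).comp
      (dualHom d v) = RingHom.id _ := by
    apply MvPolynomial.ringHom_ext
    · intro a
      simp [dualHom]
    · intro i
      simp [dualHom]
  exact congrArg (fun f => f p) h

/-- extension of a derivation to a polynomial ring, with prescribed values on the variables -/
noncomputable def extDer (d : Der K) (v : σ → MvPolynomial σ K) :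
    Der (MvPolynomial σ K) :=
  Derivation.mk'
    (({ toFun := fun p => (dualHom d v p).snd
        map_zero' := by simp
        map_add' := fun p q => by simp } :
        MvPolynomial σ K →+ MvPolynomial σ K).toIntLinearMap)
    (fun p q => by
      change (dualHom d v (p * q)).snd = p • (dualHom d v q).snd + q • (dualHom d v p).snd
      rw [map_mul, TrivSqZeroExt.snd_mul, dualHom_fst, dualHom_fst]
      simp [mul_comm])

lemma extDer_C (d : Der K) (v : σ → MvPolynomial σ K) (a : K) :
    extDer d v (C a) = C (d a) := by
  change (dualHom d v (C a)).snd = _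
  simp [dualHom]

lemma extDer_X (d : Der K) (v : σ → MvPolynomial σ K) (i : σ) :
    extDer d v (X i) = v i := by
  change (dualHom d v (X i)).snd = _
  simp [dualHom]

end ext

/-- differential polynomials in countably many differential unknowns -/
abbrev Kx (K : Type*) [CommRing K] := MvPolynomial (ℕ × ℕ × ℕ) K

section Kx

variable {K : Type*} [CommRing K] [DD K]

noncomputable instance : DD (Kx K) where
  D := extDer DD.D (fun t => X (t.1, t.2.1 + 1, t.2.2))
  E := extDer DD.E (fun t => X (t.1, t.2.1, t.2.2 + 1))
  comm p := by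
    induction p using MvPolynomial.induction_on with
    | C a => rw [extDer_C, extDer_C, extDer_C, extDer_C, DD.comm]
    | add p q hp hq => simp only [map_add, hp, hq]
    | mul_X p t hp =>
      simp only [Derivation.leibniz, map_add, hp, extDer_X, smul_eq_mul]
      ring

lemma D_C (a : K) : DD.D (C a : Kx K) = C (DD.D a) := extDer_C _ _ _
lemma E_C (a : K) : DD.E (C a : Kx K) = C (DD.E a) := extDer_C _ _ _
lemma D_X (t : ℕ × ℕ × ℕ) : DD.D (X t : Kx K) = X (t.1, t.2.1 + 1, t.2.2) := extDer_X _ _ _
lemma E_X (t : ℕ × ℕ × ℕ) : DD.E (X t : Kx K) = X (t.1, t.2.1, t.2.2 + 1) := extDer_X _ _ _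

/-- constants -/
noncomputable def CC (K : Type*) [CommRing K] [DD K] : DDHom K (Kx K) where
  toRingHom := C
  map_D a := (D_C a).symm
  map_E a := (E_C a).symm

variable {B : Type*} [CommRing B] [DD B]

/-- mixed iterated derivative -/
def DE (m n : ℕ) (b : B) : B := (DD.D (A := B))^[m] ((DD.E (A := B))^[n] b)

lemma DE_D (m n : ℕ) (b : B) : DE (m + 1) n b = DD.D (DE m n b) := by
  rw [DE, Function.iterate_succ_apply']; rfl

lemma iter_comm' (n m : ℕ) (a : B) :
    (DD.D (A := B))^[n] ((DD.E (A := B))^[m] a) = (DD.E (A := B))^[m] ((DD.D (A := B))^[n] a) := by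
  have h : Function.Commute (DD.D (A := B)) (DD.E (A := B)) := fun x => DD.comm x
  exact h.iterate_iterate n m a

lemma DE_E (m n : ℕ) (b : B) : DE m (n + 1) b = DD.E (DE m n b) := by
  rw [DE, iter_comm', Function.iterate_succ_apply', ← iter_comm']; rfl

/-- substitution of elements for the differential unknowns -/
noncomputable def subst (φ : DDHom K B) (b : ℕ → B) : DDHom (Kx K) B where
  toRingHom := eval₂Hom φ.toRingHom (fun t => DE t.2.1 t.2.2 (b t.1))
  map_D p := by
    induction p using MvPolynomial.induction_on with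
    | C a => rw [D_C, eval₂Hom_C, eval₂Hom_C, φ.map_D]
    | add p q hp hq => simp only [map_add, hp, hq]
    | mul_X p t hp =>
      simp only [Derivation.leibniz, map_add, map_mul, hp, D_X, smul_eq_mul, eval₂Hom_X', DE_D]
  map_E p := by
    induction p using MvPolynomial.induction_on with
    | C a => rw [E_C, eval₂Hom_C, eval₂Hom_C, φ.map_E]
    | add p q hp hq => simp only [map_add, hp, hq]
    | mul_X p t hp =>
      simp only [Derivation.leibniz, map_add, map_mul, hp, E_X, smul_eq_mul, eval₂Hom_X', DE_E]

@[simp] lemma subst_C (φ : DDHom K B) (b : ℕ → B) (a : K) :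
    (subst φ b).toRingHom (C a) = φ.toRingHom a := eval₂Hom_C _ _ _

@[simp] lemma subst_X (φ : DDHom K B) (b : ℕ → B) (t : ℕ × ℕ × ℕ) :
    (subst φ b).toRingHom (X t) = DE t.2.1 t.2.2 (b t.1) := eval₂Hom_X' _ _ _

/-- the generic unknown -/
noncomputable def xi (K : Type*) [CommRing K] (i : ℕ) : Kx K := X (i, 0, 0)

@[simp] lemma subst_xi (φ : DDHom K B) (b : ℕ → B) (i : ℕ) :
    (subst φ b).toRingHom (xi K i) = b i := by
  rw [xi, subst_X]; rfl

lemma DE_xi (m n i : ℕ) : DE m n (xi K i) = X (i, m, n) := by
  induction m with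
  | zero =>
    induction n with
    | zero => rfl
    | succ n ih => rw [DE_E, ih, E_X]
  | succ m ih => rw [DE_D, ih, D_X]

variable {C' : Type*} [CommRing C'] [DD C']

lemma map_DE (φ : DDHom B C') (m n : ℕ) (b : B) :
    φ.toRingHom (DE m n b) = DE m n (φ.toRingHom b) := by
  induction m with
  | zero =>
    induction n with
    | zero => rfl
    | succ n ih => rw [DE_E, φ.map_E, ih, DE_E]
  | succ m ih => rw [DE_D, φ.map_D, ih, DE_D]

@[ext] lemma DDHom.ext' {φ ψ : DDHom B C'} (h : ∀ b, φ.toRingHom b = ψ.toRingHom b) : φ = ψ := by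
  cases φ with
  | mk f _ _ =>
    cases ψ with
    | mk g _ _ =>
      have : f = g := RingHom.ext h
      subst this
      rfl

/-- two substitutions agreeing on constants and unknowns are equal -/
lemma Kx_hom_ext {φ ψ : DDHom (Kx K) B} (h1 : ∀ a, φ.toRingHom (C a) = ψ.toRingHom (C a))
    (h2 : ∀ i, φ.toRingHom (xi K i) = ψ.toRingHom (xi K i)) : φ = ψ := by
  apply DDHom.ext'
  intro p
  have : φ.toRingHom = ψ.toRingHom := by
    apply MvPolynomial.ringHom_ext h1
    rintro ⟨i, m, n⟩
    rw [← DE_xi, map_DE, map_DE, h2]
  rw [this]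

end Kx

end Pool.Agent.LibStar
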