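import Pool.Agent.Lib_MP_4b1745_al.ThmB

/-! # Every equation over `St K` is solvable -/

set_option autoImplicit false
set_option linter.unusedSectionVars false

namespace Pool.Agent.LibStar

open Finset St

section main

variable {K : Type} [Field K] [CharZero K] [Algebra ℚ K] [DD K]

/-- the canonical map from the free ring -/
noncomputable def qm (K : Type) [Field K] [CharZero K] [Algebra ℚ K] [DD K] :
    FA K →+* FP (PK K) (St K) :=
  (FreeAlgebra.lift ℤ (Sum.elim (fun r => inc (PK K) (St K) r) (fun i => var (PK K) (St K) i)) :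
    FA K →ₐ[ℤ] FP (PK K) (St K)).toRingHom

lemma qm_inl (r : St K) : qm K (FreeAlgebra.ι ℤ (Sum.inl r)) = inc (PK K) (St K) r := by
  change FreeAlgebra.lift ℤ _ _ = _
  rw [FreeAlgebra.lift_ι_apply]; rfl

lemma qm_inr (i : ℕ) : qm K (FreeAlgebra.ι ℤ (Sum.inr i)) = var (PK K) (St K) i := by
  change FreeAlgebra.lift ℤ _ _ = _
  rw [FreeAlgebra.lift_ι_apply]; rfl

lemma qm_surj (f : FP (PK K) (St K)) : ∃ g, qm K g = f := by
  induction f using fp_induction with
  | hinc r => exact ⟨_, qm_inl r⟩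
  | hvar i => exact ⟨_, qm_inr i⟩
  | hmul a b ha hb =>
    obtain ⟨a', rfl⟩ := ha
    obtain ⟨b', rfl⟩ := hb
    exact ⟨a' * b', map_mul _ _ _⟩
  | hadd a b ha hb =>
    obtain ⟨a', rfl⟩ := ha
    obtain ⟨b', rfl⟩ := hb
    exact ⟨a' + b', map_add _ _ _⟩

lemma ev_qm (x : ℕ → St K) (g : FA K) :
    ev (DDHom.id K) x g = fpLift (AlgHom.id (PK K) (St K)) x (qm K g) := by
  have : ev (DDHom.id K) x =
      ((fpLift (AlgHom.id (PK K) (St K)) x : FP (PK K) (St K) →ₐ[PK K] St K) :
        FP (PK K) (St K) →+* St K).comp (qm K) := by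
    apply FA_ext
    rintro (r | i)
    · rw [ev_inl, RingHom.comp_apply, qm_inl]
      exact (fpLift_inc (AlgHom.id (PK K) (St K)) x r).symm
    · rw [ev_inr, RingHom.comp_apply, qm_inr]
      exact (fpLift_var (AlgHom.id (PK K) (St K)) x i).symm
  exact congrArg (fun h => h g) this

variable [hK : Fact (Closed K)]

/-- translation of the unknowns -/
noncomputable def tr' (x : ℕ → St K) : FP (PK K) (St K) →ₐ[PK K] FP (PK K) (St K) :=
  fpLift (inc (PK K) (St K)) (fun i => var (PK K) (St K) i + inc (PK K) (St K) (x i))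

lemma tr'_inc (x : ℕ → St K) (r : St K) :
    tr' x (inc (PK K) (St K) r) = inc (PK K) (St K) r := fpLift_inc _ _ _

lemma tr'_var (x : ℕ → St K) (i : ℕ) :
    tr' x (var (PK K) (St K) i) = var (PK K) (St K) i + inc (PK K) (St K) (x i) :=
  fpLift_var _ _ _

lemma tr'_tr' (x : ℕ → St K) (f : FP (PK K) (St K)) : tr' (fun i => - x i) (tr' x f) = f := by
  have : (tr' (fun i => - x i)).comp (tr' x) = AlgHom.id (PK K) (FP (PK K) (St K)) := by
    apply fp_hom_ext
    · intro r
      rw [AlgHom.comp_apply, tr'_inc, tr'_inc]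
      rfl
    · intro i
      rw [AlgHom.comp_apply, tr'_var, map_add, tr'_inc, tr'_var, map_neg,
        neg_add_cancel_right]
      rfl
  exact congrArg (fun h => h f) this

lemma G_qm (x : ℕ → St K) (g : FA K) : G g x 0 = evx K (tr' x (qm K g)) := by
  have : ev (CC K) (fun i => St.map (CC K) (x i) + mono 0 (xi K i)) =
      (((evx K).comp (tr' x) : FP (PK K) (St K) →ₐ[PK K] St (Kx K)) :
        FP (PK K) (St K) →+* St (Kx K)).comp (qm K) := by
    apply FA_ext
    rintro (r | i)
    · rw [ev_inl, RingHom.comp_apply, qm_inl]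
      change _ = evx K (tr' x (inc (PK K) (St K) r))
      rw [tr'_inc, evx_inc]
      rfl
    · rw [ev_inr, RingHom.comp_apply, qm_inr]
      change _ = evx K (tr' x (var (PK K) (St K) i))
      rw [tr'_var, map_add, evx_inc, evx_var, add_comm]
      rfl
  exact congrArg (fun h => h g) this

/-- every equation over `St K` has a solution -/
theorem solvable (f : FP (PK K) (St K)) (hf : ∀ r, f ≠ inc (PK K) (St K) r) :
    ∃ x : ℕ → St K, fpLift (AlgHom.id (PK K) (St K)) x f = 0 := by
  obtain ⟨g, rfl⟩ := qm_surj f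
  obtain ⟨x, hx⟩ := exists_root hK.out g (by
    intro y
    by_contra hcon
    push Not at hcon
    have h1 : G g y 0 = cmp g y 0 := by
      obtain ⟨n, hn1, hn2, hn3⟩ := co_G g y
      ext γ : 1
      have h2 := hn3 0 γ 1
      rw [sig_one] at h2
      have h3 : co (G g y 0) γ = ∑ j ∈ range n, co (cmp g y j) (γ - j * 0) *
          ((1 : ℕ) : Kx K) ^ j := h2
      rw [h3, sum_eq_single 0]
      · rw [pow_zero, mul_one, mul_zero, sub_zero]
      · intro j _ hj
        rw [hcon j (Nat.one_le_iff_ne_zero.mpr hj), co_zero, zero_mul]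
      · intro h
        exact absurd (mem_range.mpr hn1) h
    rw [cmp_zero, G_qm] at h1
    obtain ⟨d, hd⟩ := exists_fil (tr' y (qm K g))
    obtain ⟨r, hr⟩ := const_of_generic d _ hd ⟨_, h1⟩
    apply hf r
    rw [← tr'_tr' y (qm K g), hr, tr'_inc])
  exact ⟨x, by rw [← ev_qm, hx]⟩

end main

/-- one-variable closedness implies closedness -/
theorem closed_of_one {K : Type} [Field K] [CharZero K] [DD K]
    (h : ∀ N : MvPolynomial (ℕ × ℕ) K, N ∉ Set.range MvPolynomial.C →
      ∃ u : K, MvPolynomial.eval (fun ij : ℕ × ℕ => DE ij.1 ij.2 u) N = 0) : Closed K := by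
  classical
  intro F hF
  let M : ℕ := F.vars.sup (fun t => t.2.1) + 1
  have hM : ∀ t ∈ F.vars, t.2.1 < M := fun t ht =>
    Nat.lt_succ_of_le (Finset.le_sup (f := fun t : ℕ × ℕ × ℕ => t.2.1) ht)
  let e : ℕ × ℕ × ℕ → ℕ × ℕ := fun t => (M * t.1 + t.2.1, t.2.2)
  let g : ℕ × ℕ → ℕ × ℕ × ℕ := fun ab => (ab.1 / M, ab.1 % M, ab.2)
  have hge : ∀ t ∈ F.vars, g (e t) = t := by
    rintro ⟨j, m, n⟩ ht
    have hm : m < M := hM _ ht
    have h1 : (M * j + m) / M = j := by
      rw [Nat.mul_add_div (Nat.succ_pos _), Nat.div_eq_of_lt hm, add_zero]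
    have h2 : (M * j + m) % M = m := by
      rw [Nat.mul_add_mod, Nat.mod_eq_of_lt hm]
    change ((M * j + m) / M, (M * j + m) % M, n) = (j, m, n)
    rw [h1, h2]
  have hren : MvPolynomial.rename g (MvPolynomial.rename e F) = F := by
    rw [MvPolynomial.rename_rename]
    have := MvPolynomial.hom_congr_vars
      (f₁ := ((MvPolynomial.rename (g ∘ e) : Kx K →ₐ[K] Kx K) : Kx K →+* Kx K))
      (f₂ := RingHom.id (Kx K)) (p₁ := F) (p₂ := F) ?_ ?_ rfl
    · exact this
    · apply RingHom.ext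
      intro a
      exact MvPolynomial.rename_C _ _
    · intro t ht _
      change MvPolynomial.rename (g ∘ e) (MvPolynomial.X t) = MvPolynomial.X t
      rw [MvPolynomial.rename_X, Function.comp_apply, hge t ht]
  obtain ⟨u, hu⟩ := h (MvPolynomial.rename e F) (by
    rintro ⟨a, ha⟩
    apply hF
    refine ⟨a, ?_⟩
    rw [← hren, ← ha, MvPolynomial.rename_C])
  refine ⟨fun j => (DD.D (A := K))^[M * j] u, ?_⟩
  rw [MvPolynomial.eval_rename] at hu
  rw [← hu]
  change MvPolynomial.eval₂Hom (RingHom.id K) _ F = _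
  rw [MvPolynomial.eval]
  congr 2
  funext t
  change DE t.2.1 t.2.2 ((DD.D (A := K))^[M * t.1] u) = DE (M * t.1 + t.2.1) t.2.2 u
  rw [DE, DE, ← iter_comm', ← Function.iterate_add_apply, add_comm]

end Pool.Agent.LibStar
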