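import Pool.Agent.Lib_MP_4b1745_al.Ev
import Mathlib.Order.Zorn
import Mathlib.Algebra.CharP.Algebra
import Mathlib.Data.Rat.Floor

/-! # Newton polygon argument over `St K` -/

set_option autoImplicit false
set_option linter.unusedSectionVars false

namespace Pool.Agent.LibStar

open Finset St

section aux

variable {B : Type*} [CommRing B] [Algebra ℚ B] [DD B]

lemma natCast_mul_mono (t : ℕ) (s : ℚ) (a : B) : (t : St B) * mono s a = mono s ((t : B) * a) := by
  ext γ
  rw [(Nat.cast_commute t (mono s a)).eq, co_mul_natCast, co_mono, co_mono]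
  split_ifs
  · rw [mul_comm]
  · rw [zero_mul]

lemma central_nat_hs (t : ℕ) (s : ℚ) (a : St B) : Commute a ((t : St B) * hs s) :=
  Commute.mul_right (Nat.cast_commute t a).symm (hs_comm s a)

lemma central_hs (s : ℚ) (a : St B) : Commute a (hs s) := hs_comm s a

lemma co_mul_hs (x : St B) (s γ : ℚ) : co (x * hs s) γ = co x (γ - s) := by
  rw [hs_comm, co_hs_mul]

lemma co_mul_nat_hs_pow (x : St B) (t j : ℕ) (s γ : ℚ) :
    co (x * ((t : St B) * hs s) ^ j) γ = co x (γ - j * s) * (t : B) ^ j := by
  rw [Commute.mul_pow (Nat.cast_commute t (hs s)), ← mul_assoc, hs_pow, co_mul_hs, map_natCast_pow]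

end aux

section G

variable {K : Type*} [Field K] [CharZero K] [Algebra ℚ K] [DD K]

/-- the generic value around `x` at scale `s` -/
noncomputable def G (f : FA K) (x : ℕ → St K) (s : ℚ) : St (Kx K) :=
  ev (CC K) (fun i => St.map (CC K) (x i) + mono s (xi K i)) f

/-- homogeneous components -/
noncomputable def cmp (f : FA K) (x : ℕ → St K) (j : ℕ) : St (Kx K) :=
  (evL (CC K) (fun i => St.map (CC K) (x i)) (fun i => mono 0 (xi K i)) f).coeff j

/-- scaling of the unknowns -/
noncomputable def sig (K : Type*) [Field K] [CharZero K] [DD K] (t : ℕ) : DDHom (Kx K) (Kx K) :=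
  subst (CC K) (fun i => (t : Kx K) * xi K i)

/-- translation of the unknowns -/
noncomputable def tau (c : ℕ → K) : DDHom (Kx K) (Kx K) :=
  subst (CC K) (fun i => xi K i + MvPolynomial.C (c i))

lemma subst_comp_CC {B : Type*} [CommRing B] [DD B] (φ : DDHom K B) (b : ℕ → B) :
    (subst φ b).comp (CC K) = φ := by
  apply DDHom.ext'
  intro a
  exact subst_C φ b a

lemma sig_one : sig K 1 = DDHom.id _ := by
  apply Kx_hom_ext
  · intro a
    exact subst_C _ _ a
  · intro i
    rw [sig, subst_xi, Nat.cast_one, one_mul]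
    rfl

lemma co_G (f : FA K) (x : ℕ → St K) : ∃ n, 0 < n ∧ (∀ j, n ≤ j → cmp f x j = 0) ∧
    ∀ (s γ : ℚ) (t : ℕ), (sig K t).toRingHom (co (G f x s) γ) =
      ∑ j ∈ range n, co (cmp f x j) (γ - j * s) * (t : Kx K) ^ j := by
  refine ⟨(evL (CC K) (fun i => St.map (CC K) (x i)) (fun i => mono 0 (xi K i)) f).natDegree + 1,
    Nat.succ_pos _, ?_, ?_⟩
  · intro j hj
    exact Polynomial.coeff_eq_zero_of_natDegree_lt (Nat.lt_of_succ_le hj)
  · intro s γ t
    rw [← co_map, G, map_ev, sig, subst_comp_CC]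
    have e : (fun i => St.map (subst (CC K) fun i => (t : Kx K) * xi K i)
        (St.map (CC K) (x i) + mono s (xi K i))) =
        fun i => St.map (CC K) (x i) + mono 0 (xi K i) * ((t : St (Kx K)) * hs s) := by
      funext i
      rw [map_add, St.map_map, subst_comp_CC, St.map_mono, subst_xi,
        (central_nat_hs t s (mono 0 (xi K i))).eq, mul_assoc, hs_mul_mono, add_zero,
        natCast_mul_mono]
    rw [e, evL_sum (CC K) _ _ _ (central_nat_hs t s) f (Nat.lt_succ_self _), co_sum]
    apply sum_congr rfl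
    intro j _
    rw [co_mul_nat_hs_pow]
    rfl

lemma cmp_zero (f : FA K) (x : ℕ → St K) :
    cmp f x 0 = St.map (CC K) (ev (DDHom.id K) x f) := by
  rw [cmp, ← evL_zero, map_ev]
  rfl

lemma VG_G_iff (f : FA K) (x : ℕ → St K) (s w : ℚ) :
    VG (G f x s) w ↔ ∀ j : ℕ, VG (cmp f x j) (w - j * s) := by
  obtain ⟨n, _, hn2, hn3⟩ := co_G f x
  constructor
  · intro h j γ hγ
    by_cases hj : j < n
    · have h1 : ∀ t : ℕ, ∑ i ∈ range n, co (cmp f x i) (γ + j * s - i * s) * (t : Kx K) ^ i = 0 := by
        intro t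
        rw [← hn3, h _ (by linarith), map_zero]
      have h2 := vander h1 j hj
      simpa using h2
    · rw [hn2 j (not_lt.mp hj), co_zero]
  · intro h γ hγ
    have h1 := hn3 s γ 1
    rw [sig_one] at h1
    have h2 : co (G f x s) γ = ∑ j ∈ range n, co (cmp f x j) (γ - j * s) * ((1 : ℕ) : Kx K) ^ j := h1
    rw [h2]
    apply sum_eq_zero
    intro j _
    rw [h j _ (by linarith), zero_mul]

lemma co_G_const_iff (f : FA K) (x : ℕ → St K) (s w : ℚ) :
    co (G f x s) w ∈ Set.range (MvPolynomial.C : K → Kx K) ↔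
      ∀ j : ℕ, 1 ≤ j → co (cmp f x j) (w - j * s) = 0 := by
  obtain ⟨n, hn1, hn2, hn3⟩ := co_G f x
  constructor
  · rintro ⟨c, hc⟩ j hj
    by_cases hjn : j < n
    · have h1 : ∀ t : ℕ, ∑ i ∈ range n, (co (cmp f x i) (w - i * s) -
          if i = 0 then MvPolynomial.C c else 0) * (t : Kx K) ^ i = 0 := by
        intro t
        have h2 := hn3 s w t
        rw [← hc, sig, subst_C] at h2
        simp only [sub_mul, sum_sub_distrib]
        rw [← h2, sum_eq_single 0]
        · rw [if_pos rfl, pow_zero, mul_one]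
          exact sub_self _
        · intro b _ hb
          rw [if_neg hb, zero_mul]
        · intro h
          exact absurd (mem_range.mpr hn1) h
      have h2 := vander h1 j hjn
      rw [if_neg (by omega), sub_zero] at h2
      exact h2
    · rw [hn2 j (not_lt.mp hjn), co_zero]
  · intro h
    have h1 := hn3 s w 1
    rw [sig_one] at h1
    have h2 : co (G f x s) w = ∑ j ∈ range n, co (cmp f x j) (w - j * s) * ((1 : ℕ) : Kx K) ^ j := h1
    rw [h2, sum_eq_single 0]
    · rw [pow_zero, mul_one, cmp_zero, co_map]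
      exact ⟨_, rfl⟩
    · intro b _ hb
      rw [h b (by omega), zero_mul]
    · intro h
      exact absurd (mem_range.mpr hn1) h

lemma tau_comp_CC (c : ℕ → K) : (tau c).comp (CC K) = CC K := subst_comp_CC _ _

lemma tau_zero : tau (fun _ => (0 : K)) = DDHom.id _ := by
  apply Kx_hom_ext
  · intro a
    exact subst_C _ _ a
  · intro i
    rw [tau, subst_xi, map_zero, add_zero]
    rfl

lemma tau_tau (c c' : ℕ → K) : (tau c).comp (tau c') = tau (fun i => c i + c' i) := by
  apply Kx_hom_ext
  · intro a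
    change (tau c).toRingHom ((tau c').toRingHom (MvPolynomial.C a)) = _
    rw [tau, tau, tau, subst_C, subst_C]
    change (subst (CC K) _).toRingHom (MvPolynomial.C a) = _
    rw [subst_C]
  · intro i
    change (tau c).toRingHom ((tau c').toRingHom (xi K i)) = _
    rw [tau, tau, tau, subst_xi, subst_xi, map_add, subst_xi, subst_C]
    change _ + MvPolynomial.C (c' i) = _
    rw [map_add, add_assoc]

lemma tau_C (c : ℕ → K) (a : K) :
    (tau c).toRingHom (MvPolynomial.C a) = MvPolynomial.C a := subst_C (CC K) _ a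

lemma tau_const_iff (c : ℕ → K) (F : Kx K) :
    (tau c).toRingHom F ∈ Set.range (MvPolynomial.C : K → Kx K) ↔
      F ∈ Set.range (MvPolynomial.C : K → Kx K) := by
  constructor
  · rintro ⟨a, ha⟩
    refine ⟨a, ?_⟩
    have h1 : ((tau (fun i => - c i)).comp (tau c)).toRingHom F = F := by
      rw [tau_tau]
      have : (fun i => -c i + c i) = fun _ => (0 : K) := by
        funext i
        rw [neg_add_cancel]
      rw [this, tau_zero]
      rfl
    rw [← h1]
    change _ = (tau (fun i => - c i)).toRingHom ((tau c).toRingHom F)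
    rw [← ha]
    exact (tau_C _ a).symm
  · rintro ⟨a, rfl⟩
    exact ⟨a, (tau_C _ a).symm⟩

/-- translation at the same exponent -/
lemma G_trans_same (f : FA K) (x : ℕ → St K) (s : ℚ) (c : ℕ → K) :
    G f (fun i => x i + mono s (c i)) s = St.map (tau c) (G f x s) := by
  rw [G, G, map_ev, tau_comp_CC]
  congr 1
  congr 1
  funext i
  rw [map_add, map_add, St.map_map, tau_comp_CC, St.map_mono, St.map_mono, tau, subst_xi, mono_add,
    add_assoc, add_comm (mono s _) (mono s _)]
  rfl

/-- translation at a larger exponent -/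
lemma G_trans_gt (f : FA K) (x : ℕ → St K) {s a : ℚ} (hsa : s < a) (c : ℕ → K) {w : ℚ}
    (h : VG (G f x s) w) {γ : ℚ} (hγ : γ ≤ w) :
    co (G f (fun i => x i + mono a (c i)) s) γ = co (G f x s) γ := by
  obtain ⟨n, hn⟩ : ∃ n, (evL (CC K) (fun i => St.map (CC K) (x i) + mono s (xi K i))
    (fun i => mono s (MvPolynomial.C (c i))) f).natDegree < n := ⟨_, Nat.lt_succ_self _⟩
  have hn0 : 0 < n := Nat.pos_of_ne_zero (by rintro rfl; exact absurd hn (Nat.not_lt_zero _))
  set p := evL (CC K) (fun i => St.map (CC K) (x i) + mono s (xi K i))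
    (fun i => mono s (MvPolynomial.C (c i))) f with hp
  have h1 : ∀ t : ℕ, G f (fun i => x i + mono s ((t : K) * c i)) s =
      ∑ j ∈ range n, p.coeff j * (t : St (Kx K)) ^ j := by
    intro t
    rw [hp, ← evL_sum (CC K) _ _ _ (fun a => (Nat.cast_commute t a).symm) f hn, G]
    congr 1
    congr 1
    funext i
    rw [map_add, St.map_mono, ← (Nat.cast_commute t (mono s (MvPolynomial.C (c i)))).eq,
      natCast_mul_mono]
    change _ + mono s (MvPolynomial.C ((t : K) * c i)) + _ = _
    rw [map_mul, map_natCast, add_assoc, add_comm (mono s _) (mono s _), add_assoc]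
  have h2 : ∀ j < n, VG (p.coeff j) w := by
    intro j hj δ hδ
    refine vander (c := fun j => co (p.coeff j) δ) ?_ j hj
    intro t
    have h3 := congrArg (fun z => co z δ) (h1 t)
    simp only [co_sum, map_natCast_pow] at h3
    rw [← h3, G_trans_same, co_map, h δ hδ, map_zero]
  have h3 : G f (fun i => x i + mono a (c i)) s = ∑ j ∈ range n, p.coeff j * hs (a - s) ^ j := by
    rw [hp, ← evL_sum (CC K) _ _ _ (central_hs (a - s)) f hn, G]
    congr 1
    congr 1
    funext i
    rw [map_add, St.map_mono, (central_hs (a - s) (mono s (MvPolynomial.C (c i)))).eq,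
      hs_mul_mono, sub_add_cancel]
    change _ + mono a (MvPolynomial.C (c i)) + _ = _
    rw [add_assoc, add_comm (mono a _) (mono s _), add_assoc]
  have h4 : G f x s = p.coeff 0 := by rw [hp, ← evL_zero]; rfl
  rw [h3, co_sum, sum_eq_single 0]
  · rw [pow_zero, mul_one, h4]
  · intro j hj hj0
    rw [hs_pow, co_mul_hs]
    apply h2 j (mem_range.mp hj)
    have : (0 : ℚ) < j := by exact_mod_cast Nat.pos_of_ne_zero hj0
    have := mul_pos this (sub_pos.mpr hsa)
    linarith
  · intro h
    exact absurd (mem_range.mpr hn0) h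

lemma restr_map (φ : DDHom K (Kx K)) (Ψ : Set ℚ) (x : St K) :
    restr Ψ (St.map φ x) = St.map φ (restr Ψ x) := by
  ext γ
  by_cases h : γ ∈ Ψ
  · rw [co_restr_mem h, co_map, co_map, co_restr_mem h]
  · rw [co_restr_notMem h, co_map, co_restr_notMem h, map_zero]

lemma G_trans_finite (f : FA K) (x δ : ℕ → St K) {s w : ℚ} (h : VG (G f x s) w)
    (hδ : ∀ i, VG (δ i) s) (Φ : Finset ℚ) :
    VG (G f (fun i => x i + restr (Φ : Set ℚ) (δ i)) s) w ∧
      co (G f (fun i => x i + restr (Φ : Set ℚ) (δ i)) s) w =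
        (tau (fun i => co (restr (Φ : Set ℚ) (δ i)) s)).toRingHom (co (G f x s) w) := by
  classical
  induction Φ using Finset.induction_on with
  | empty =>
    have e : (fun i => x i + restr ((∅ : Finset ℚ) : Set ℚ) (δ i)) = x := by
      funext i
      rw [coe_empty, restr_empty, add_zero]
    have e2 : (fun i => co (restr ((∅ : Finset ℚ) : Set ℚ) (δ i)) s) = fun _ => (0 : K) := by
      funext i
      rw [coe_empty, restr_empty, co_zero]
    rw [e, e2, tau_zero]
    exact ⟨h, rfl⟩
  | insert a Φ ha ih =>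
    obtain ⟨ih1, ih2⟩ := ih
    have ha' : a ∉ (Φ : Set ℚ) := fun h => ha (mem_coe.mp h)
    have e : (fun i => x i + restr ((insert a Φ : Finset ℚ) : Set ℚ) (δ i)) =
        fun i => (x i + restr (Φ : Set ℚ) (δ i)) + mono a (co (δ i) a) := by
      funext i
      rw [coe_insert, restr_insert ha', add_assoc]
    have e2 : (fun i => co (restr ((insert a Φ : Finset ℚ) : Set ℚ) (δ i)) s) =
        fun i => co (restr (Φ : Set ℚ) (δ i)) s + if s = a then co (δ i) a else 0 := by
      funext i
      rw [coe_insert, restr_insert ha', co_add, co_mono]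
    rw [e, e2]
    rcases lt_trichotomy a s with hlt | heq | hgt
    · have e3 : ∀ i, co (δ i) a = 0 := fun i => hδ i a hlt
      simp only [e3, mono_zero, add_zero, ite_self]
      exact ⟨ih1, ih2⟩
    · subst heq
      simp only [if_true]
      rw [G_trans_same]
      refine ⟨VG_map _ ih1, ?_⟩
      rw [co_map, ih2]
      have := tau_tau (fun i => co (δ i) a) (fun i => co (restr (Φ : Set ℚ) (δ i)) a)
      have e4 : (fun i => co (restr (Φ : Set ℚ) (δ i)) a + co (δ i) a) =
          fun i => co (δ i) a + co (restr (Φ : Set ℚ) (δ i)) a := by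
        funext i
        rw [add_comm]
      rw [e4, ← this]
      rfl
    · simp only [if_neg (ne_of_lt hgt), add_zero]
      refine ⟨?_, ?_⟩
      · intro γ hγ
        rw [G_trans_gt f _ hgt _ ih1 hγ.le]
        exact ih1 γ hγ
      · rw [G_trans_gt f _ hgt _ ih1 (le_refl w)]
        exact ih2

/-- the translation principle -/
theorem G_trans (f : FA K) (x δ : ℕ → St K) {s w : ℚ} (h : VG (G f x s) w)
    (hδ : ∀ i, VG (δ i) s) :
    VG (G f (fun i => x i + δ i) s) w ∧
      co (G f (fun i => x i + δ i) s) w =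
        (tau (fun i => co (δ i) s)).toRingHom (co (G f x s) w) := by
  classical
  obtain ⟨_, _, _, hF⟩ := FD (CC K) (fun i => St.map (CC K) (x i) + mono s (xi K i))
    (fun i => St.map (CC K) (δ i)) f
  have key : ∀ γ, ∃ Φ : Finset ℚ, ∀ Ψ : Set ℚ, (Φ : Set ℚ) ⊆ Ψ →
      co (G f (fun i => x i + restr Ψ (δ i)) s) γ = co (G f (fun i => x i + δ i) s) γ := by
    intro γ
    obtain ⟨Φ, hΦ⟩ := hF γ
    refine ⟨Φ, fun Ψ hΨ => ?_⟩
    have h1 := hΦ Ψ hΨ
    have e : ∀ Ψ : Set ℚ, (fun i => St.map (CC K) (x i) + mono s (xi K i) +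
        restr Ψ (St.map (CC K) (δ i))) =
        fun i => St.map (CC K) (x i + restr Ψ (δ i)) + mono s (xi K i) := by
      intro Ψ
      funext i
      rw [restr_map, map_add]
      abel
    rw [e, e] at h1
    simp only [restr_univ] at h1
    exact h1
  constructor
  · intro γ hγ
    obtain ⟨Φ, hΦ⟩ := key γ
    rw [← hΦ Φ (subset_refl _)]
    exact (G_trans_finite f x δ h hδ Φ).1 γ hγ
  · obtain ⟨Φ, hΦ⟩ := key w
    rw [← hΦ ((insert s Φ : Finset ℚ) : Set ℚ) (by
      rw [coe_insert]; exact Set.subset_insert _ _)]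
    rw [(G_trans_finite f x δ h hδ (insert s Φ)).2]
    congr 3
    funext i
    rw [co_restr_mem]
    exact mem_coe.mpr (mem_insert_self _ _)

end G

end Pool.Agent.LibStar
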