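import Pool.Agent.Lib_MP_4b1745_al.Star

/-! # The ring `St A` of Hahn series with the star product -/

set_option autoImplicit false
set_option linter.unusedSectionVars false

namespace Pool.Agent.LibStar

open Finset HahnSeries

/-- Hahn series with the star product -/
def St (A : Type*) [CommRing A] := HahnSeries ℚ A

namespace St

section basic

variable {A : Type*} [CommRing A]

noncomputable instance : AddCommGroup (St A) := inferInstanceAs (AddCommGroup (HahnSeries ℚ A))

/-- the underlying Hahn series -/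
def toH (x : St A) : HahnSeries ℚ A := x

/-- the element with given underlying Hahn series -/
def ofH (x : HahnSeries ℚ A) : St A := x

/-- coefficient -/
noncomputable def co (x : St A) (γ : ℚ) : A := (toH x).coeff γ

/-- support -/
def supp (x : St A) : Set ℚ := {γ | co x γ ≠ 0}

lemma supp_pwo (x : St A) : (supp x).IsPWO := HahnSeries.isPWO_support x

/-- construct an element from a coefficient function -/
noncomputable def mk (f : ℚ → A) (h : {γ | f γ ≠ 0}.IsPWO) : St A := (⟨f, h⟩ : HahnSeries ℚ A)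

@[simp] lemma co_mk (f : ℚ → A) (h : {γ | f γ ≠ 0}.IsPWO) (γ : ℚ) : co (mk f h) γ = f γ := rfl

@[ext] lemma ext {x y : St A} (h : ∀ γ, co x γ = co y γ) : x = y :=
  HahnSeries.ext (funext h)

@[simp] lemma co_zero (γ : ℚ) : co (0 : St A) γ = 0 := rfl
@[simp] lemma co_add (x y : St A) (γ : ℚ) : co (x + y) γ = co x γ + co y γ := rfl
@[simp] lemma co_neg (x : St A) (γ : ℚ) : co (-x) γ = - co x γ := rfl
@[simp] lemma co_sub (x y : St A) (γ : ℚ) : co (x - y) γ = co x γ - co y γ := rfl

/-- coefficient as an additive map -/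
noncomputable def coHom (γ : ℚ) : St A →+ A where
  toFun x := co x γ
  map_zero' := rfl
  map_add' _ _ := rfl

lemma co_sum {ι : Type*} (s : Finset ι) (f : ι → St A) (γ : ℚ) :
    co (∑ i ∈ s, f i) γ = ∑ i ∈ s, co (f i) γ := map_sum (coHom γ) f s

/-- monomial -/
noncomputable def mono (s : ℚ) (a : A) : St A := (HahnSeries.single s a : HahnSeries ℚ A)

lemma co_mono (s : ℚ) (a : A) (γ : ℚ) : co (mono s a) γ = if γ = s then a else 0 := by
  change (HahnSeries.single s a).coeff γ = _
  by_cases h : γ = s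
  · rw [if_pos h, h, HahnSeries.coeff_single_same]
  · rw [if_neg h, HahnSeries.coeff_single_of_ne h]

@[simp] lemma co_mono_same (s : ℚ) (a : A) : co (mono s a) s = a := by
  rw [co_mono, if_pos rfl]

lemma co_mono_ne {s : ℚ} (a : A) {γ : ℚ} (h : γ ≠ s) : co (mono s a) γ = 0 := by
  rw [co_mono, if_neg h]

lemma mono_zero (s : ℚ) : mono s (0 : A) = 0 := by
  ext γ
  rw [co_mono]
  split_ifs <;> rfl

lemma mono_add (s : ℚ) (a b : A) : mono s (a + b) = mono s a + mono s b := by
  ext γ
  rw [co_add, co_mono, co_mono, co_mono]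
  split_ifs
  · rfl
  · rw [add_zero]

/-- vanishing below `w` -/
def VG (x : St A) (w : ℚ) : Prop := ∀ γ, γ < w → co x γ = 0

lemma VG.mono {x : St A} {w w' : ℚ} (h : VG x w) (hw : w' ≤ w) : VG x w' :=
  fun γ hγ => h γ (lt_of_lt_of_le hγ hw)

lemma VG_zero (w : ℚ) : VG (0 : St A) w := fun _ _ => rfl

lemma VG.add {x y : St A} {w : ℚ} (h : VG x w) (h' : VG y w) : VG (x + y) w :=
  fun γ hγ => by rw [co_add, h γ hγ, h' γ hγ, add_zero]

lemma VG.neg {x : St A} {w : ℚ} (h : VG x w) : VG (-x) w :=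
  fun γ hγ => by rw [co_neg, h γ hγ, neg_zero]

lemma VG.sub {x y : St A} {w : ℚ} (h : VG x w) (h' : VG y w) : VG (x - y) w :=
  fun γ hγ => by rw [co_sub, h γ hγ, h' γ hγ, sub_zero]

lemma VG.sum {ι : Type*} {s : Finset ι} {f : ι → St A} {w : ℚ}
    (h : ∀ i ∈ s, VG (f i) w) : VG (∑ i ∈ s, f i) w := fun γ hγ => by
  rw [co_sum]
  exact sum_eq_zero fun i hi => h i hi γ hγ

lemma exists_VG (x : St A) : ∃ w, VG x w := exists_Vge x

lemma VG_mono (γ : ℚ) (a : A) : VG (St.mono γ a) γ := Vge_single γ a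

/-- every non-zero element has a leading exponent -/
lemma exists_lead {x : St A} (hx : x ≠ 0) : ∃ w, VG x w ∧ co x w ≠ 0 :=
  ⟨HahnSeries.order (x : HahnSeries ℚ A), fun _ hγ => HahnSeries.coeff_eq_zero_of_lt_order hγ,
    fun h => hx (HahnSeries.coeff_order_eq_zero.mp h)⟩

end basic

section ring

variable {A : Type*} [CommRing A] [Algebra ℚ A] [DD A]

noncomputable instance : Mul (St A) := ⟨fun x y => ofH (star (toH x) (toH y))⟩

noncomputable instance : One (St A) := ⟨(1 : HahnSeries ℚ A)⟩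

lemma mul_def (x y : St A) : x * y = ofH (star (toH x) (toH y)) := rfl

lemma one_def : (1 : St A) = (1 : HahnSeries ℚ A) := rfl

noncomputable instance : Ring (St A) :=
  { (inferInstance : AddCommGroup (St A)), (inferInstance : Mul (St A)),
    (inferInstance : One (St A)) with
    left_distrib := fun x y z => star_add_right x y z
    right_distrib := fun x y z => star_add_left x y z
    zero_mul := fun x => star_zero_left x
    mul_zero := fun x => star_zero_right x
    mul_assoc := fun x y z => star_assoc x y z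
    one_mul := fun x => by
      change ofH (star (1 : HahnSeries ℚ A) (toH x)) = ofH (toH x)
      rw [star_const_left (Derivation.map_one_eq_zero _), one_mul]
    mul_one := fun x => by
      change ofH (star (toH x) (1 : HahnSeries ℚ A)) = ofH (toH x)
      rw [star_const_right (Derivation.map_one_eq_zero _), mul_one] }

lemma VG.mul {x y : St A} {w w' : ℚ} (h : VG x w) (h' : VG y w') : VG (x * y) (w + w') :=
  Vge_star h h'

lemma co_mul_lead {x y : St A} {w w' : ℚ} (h : VG x w) (h' : VG y w') :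
    co (x * y) (w + w') = co x w * co y w' := star_coeff_lead h h'

lemma co_mul_pwo {S T : Set ℚ} (hS : S.IsPWO) (hT : T.IsPWO) {w w' : ℚ} (hw : ∀ γ ∈ S, w ≤ γ)
    (hw' : ∀ γ ∈ T, w' ≤ γ) {x y : St A} (hx : supp x ⊆ S) (hy : supp y ⊆ T) {γ : ℚ} {M : ℕ}
    (hM : γ < M + w + w') :
    co (x * y) γ = ∑ n ∈ range M, ∑ ij ∈ Finset.antidiagonal hS hT (γ - n),
      bn n (co x ij.1) (co y ij.2) := by
  have h1 : Vge (toH x) w := fun δ hδ => by
    by_contra h
    exact absurd (hw δ (hx h)) (not_le.mpr hδ)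
  have h2 : Vge (toH y) w' := fun δ hδ => by
    by_contra h
    exact absurd (hw' δ (hy h)) (not_le.mpr hδ)
  change (star (toH x) (toH y)).coeff γ = _
  rw [star_coeff h1 h2 hM]
  exact sum_congr rfl fun n _ => bn_coeff hS hT hx hy n _

lemma pwo_bdd {S : Set ℚ} (hS : S.IsPWO) : ∃ w, ∀ γ ∈ S, w ≤ γ := by
  by_cases h : S.Nonempty
  · exact ⟨hS.isWF.min h, fun γ hγ => hS.isWF.min_le h hγ⟩
  · exact ⟨0, fun γ hγ => (h ⟨γ, hγ⟩).elim⟩

/-- the coefficient of a product depends on finitely many coefficients -/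
lemma mul_agree {S T : Set ℚ} (hS : S.IsPWO) (hT : T.IsPWO) (γ : ℚ) :
    ∃ P Q : Finset ℚ, ∀ x x' y y' : St A, supp x ⊆ S → supp x' ⊆ S → supp y ⊆ T → supp y' ⊆ T →
      (∀ i ∈ P, co x i = co x' i) → (∀ j ∈ Q, co y j = co y' j) →
      co (x * y) γ = co (x' * y') γ := by
  classical
  obtain ⟨w, hw⟩ := pwo_bdd hS
  obtain ⟨w', hw'⟩ := pwo_bdd hT
  obtain ⟨M, hM⟩ := exists_level γ (w + w')
  rw [← add_assoc] at hM
  refine ⟨(range M).biUnion fun n => (Finset.antidiagonal hS hT (γ - n)).image Prod.fst,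
    (range M).biUnion fun n => (Finset.antidiagonal hS hT (γ - n)).image Prod.snd, ?_⟩
  intro x x' y y' h1 h2 h3 h4 h5 h6
  rw [co_mul_pwo hS hT hw hw' h1 h3 hM, co_mul_pwo hS hT hw hw' h2 h4 hM]
  apply sum_congr rfl
  intro n hn
  apply sum_congr rfl
  intro ij hij
  rw [h5 ij.1 (mem_biUnion.mpr ⟨n, hn, mem_image_of_mem _ hij⟩),
    h6 ij.2 (mem_biUnion.mpr ⟨n, hn, mem_image_of_mem _ hij⟩)]

open Pointwise in
lemma supp_mul {S T : Set ℚ} {x y : St A} (hx : supp x ⊆ S) (hy : supp y ⊆ T) :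
    supp (x * y) ⊆ (S + T) + Set.range ((↑) : ℕ → ℚ) := by
  intro γ hγ
  change ∑ n ∈ range (lev (toH x) (toH y) γ), (bn n (toH x) (toH y)).coeff (γ - n) ≠ 0 at hγ
  obtain ⟨n, _, hn⟩ := exists_ne_zero_of_sum_ne_zero hγ
  rw [bn_coeff (supp_pwo x) (supp_pwo y) (le_refl _) (le_refl _)] at hn
  obtain ⟨ij, hij, _⟩ := exists_ne_zero_of_sum_ne_zero hn
  rw [Finset.mem_antidiagonal] at hij
  refine ⟨ij.1 + ij.2, ⟨ij.1, hx hij.1, ij.2, hy hij.2.1, rfl⟩, n, ⟨n, rfl⟩, ?_⟩
  have := hij.2.2
  change ij.1 + ij.2 + (n : ℚ) = γ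
  linarith

/-- the central element `h^s` -/
noncomputable def hs (s : ℚ) : St A := mono s 1

lemma hs_mul (s : ℚ) (x : St A) : hs s * x = ofH (hp s * toH x) :=
  star_const_left (D_hp s) (toH x)

lemma mul_hs (s : ℚ) (x : St A) : x * hs s = ofH (toH x * hp s) :=
  star_const_right (E_hp s) (toH x)

lemma hs_comm (s : ℚ) (x : St A) : x * hs s = hs s * x := by
  rw [hs_mul, mul_hs, mul_comm]

lemma co_hs_mul (s : ℚ) (x : St A) (γ : ℚ) : co (hs s * x) γ = co x (γ - s) := by
  rw [hs_mul]
  exact coeff_hp_mul s (toH x) γ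

lemma VG_hs_mul {x : St A} {w : ℚ} (h : VG x w) (s : ℚ) : VG (hs s * x) (s + w) := by
  intro γ hγ
  rw [co_hs_mul]
  exact h _ (by linarith)

lemma hs_mul_mono (s t : ℚ) (a : A) : hs s * mono t a = mono (s + t) a := by
  ext γ
  rw [co_hs_mul, co_mono, co_mono]
  congr 1
  rw [sub_eq_iff_eq_add, add_comm]

lemma hs_zero : (hs 0 : St A) = 1 := rfl

lemma hs_mul_hs (s t : ℚ) : (hs s * hs t : St A) = hs (s + t) := hs_mul_mono s t 1

lemma hs_pow (s : ℚ) (n : ℕ) : (hs s : St A) ^ n = hs (n * s) := by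
  induction n with
  | zero => rw [pow_zero, Nat.cast_zero, zero_mul, hs_zero]
  | succ n ih =>
    rw [pow_succ, ih, hs_mul_hs]
    congr 1
    push_cast
    ring

lemma VG_one : VG (1 : St A) 0 := VG_mono 0 1

lemma co_one_zero : co (1 : St A) 0 = 1 := co_mono_same 0 1

/-- elements with coefficients killed by `D` and `E` are central -/
lemma central_of_const {c : St A} (hD : ∀ γ, DD.D (co c γ) = 0) (hE : ∀ γ, DD.E (co c γ) = 0)
    (x : St A) : c * x = x * c := by
  have h1 : DD.D (toH c) = 0 := HahnSeries.ext (funext hD)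
  have h2 : DD.E (toH c) = 0 := HahnSeries.ext (funext hE)
  change ofH (star (toH c) (toH x)) = ofH (star (toH x) (toH c))
  rw [star_const_left h1, star_const_right h2, mul_comm]

instance [Nontrivial A] : Nontrivial (St A) :=
  inferInstanceAs (Nontrivial (HahnSeries ℚ A))

instance [IsDomain A] : NoZeroDivisors (St A) where
  eq_zero_or_eq_zero_of_mul_eq_zero := by
    intro x y hxy
    by_contra h
    rw [not_or] at h
    obtain ⟨w, hw1, hw2⟩ := exists_lead h.1
    obtain ⟨w', hw1', hw2'⟩ := exists_lead h.2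
    have := co_mul_lead hw1 hw1'
    rw [hxy, co_zero] at this
    exact mul_ne_zero hw2 hw2' this.symm

end ring

end St

/-- homomorphisms of rings with two commuting derivations -/
structure DDHom (A B : Type*) [CommRing A] [DD A] [CommRing B] [DD B] extends A →+* B where
  map_D : ∀ a, toRingHom (DD.D a) = DD.D (toRingHom a)
  map_E : ∀ a, toRingHom (DD.E a) = DD.E (toRingHom a)

section DDHom

variable {A B C : Type*} [CommRing A] [DD A] [CommRing B] [DD B] [CommRing C] [DD C]

/-- identity -/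
def DDHom.id (A : Type*) [CommRing A] [DD A] : DDHom A A where
  toRingHom := RingHom.id A
  map_D _ := rfl
  map_E _ := rfl

/-- composition -/
def DDHom.comp (ψ : DDHom B C) (φ : DDHom A B) : DDHom A C where
  toRingHom := ψ.toRingHom.comp φ.toRingHom
  map_D a := by
    rw [RingHom.comp_apply, φ.map_D, ψ.map_D, RingHom.comp_apply]
  map_E a := by
    rw [RingHom.comp_apply, φ.map_E, ψ.map_E, RingHom.comp_apply]

variable [Algebra ℚ A] [Algebra ℚ B] [Algebra ℚ C]

lemma map_iter_D (φ : DDHom A B) (n : ℕ) (a : A) :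
    φ.toRingHom ((DD.D (A := A))^[n] a) = (DD.D (A := B))^[n] (φ.toRingHom a) := by
  induction n generalizing a with
  | zero => rfl
  | succ n ih => rw [Function.iterate_succ_apply, ih, φ.map_D, Function.iterate_succ_apply]

lemma map_iter_E (φ : DDHom A B) (n : ℕ) (a : A) :
    φ.toRingHom ((DD.E (A := A))^[n] a) = (DD.E (A := B))^[n] (φ.toRingHom a) := by
  induction n generalizing a with
  | zero => rfl
  | succ n ih => rw [Function.iterate_succ_apply, ih, φ.map_E, Function.iterate_succ_apply]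

lemma map_bn (φ : DDHom A B) (n : ℕ) (a b : A) :
    φ.toRingHom (bn n a b) = bn n (φ.toRingHom a) (φ.toRingHom b) := by
  rw [bn, map_rat_smul, map_mul, dp, dp, map_rat_smul, map_rat_smul, map_iter_D, map_iter_E]
  rfl

namespace St

/-- functoriality of `St` -/
noncomputable def map (φ : DDHom A B) : St A →+* St B where
  toFun x := ofH (cmap φ.toRingHom.toAddMonoidHom (toH x))
  map_zero' := map_zero (cmap φ.toRingHom.toAddMonoidHom)
  map_add' x y := map_add (cmap φ.toRingHom.toAddMonoidHom) (toH x) (toH y)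
  map_one' := by
    ext γ
    change φ.toRingHom (co (mono 0 1) γ) = co (mono 0 1) γ
    rw [co_mono, co_mono]
    split_ifs
    · exact map_one _
    · exact map_zero _
  map_mul' x y := by
    ext γ
    obtain ⟨w, hw⟩ := pwo_bdd (supp_pwo x)
    obtain ⟨w', hw'⟩ := pwo_bdd (supp_pwo y)
    obtain ⟨M, hM⟩ := exists_level γ (w + w')
    rw [← add_assoc] at hM
    have h1 : supp (ofH (cmap φ.toRingHom.toAddMonoidHom (toH x))) ⊆ supp x := cmap_support _ _
    have h2 : supp (ofH (cmap φ.toRingHom.toAddMonoidHom (toH y))) ⊆ supp y := cmap_support _ _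
    change φ.toRingHom (co (x * y) γ) = _
    rw [co_mul_pwo (supp_pwo x) (supp_pwo y) hw hw' (le_refl _) (le_refl _) hM,
      co_mul_pwo (supp_pwo x) (supp_pwo y) hw hw' h1 h2 hM, map_sum]
    apply sum_congr rfl
    intro n _
    rw [map_sum]
    apply sum_congr rfl
    intro ij _
    rw [map_bn]
    rfl

@[simp] lemma co_map (φ : DDHom A B) (x : St A) (γ : ℚ) :
    co (map φ x) γ = φ.toRingHom (co x γ) := rfl

lemma map_mono (φ : DDHom A B) (s : ℚ) (a : A) : map φ (mono s a) = mono s (φ.toRingHom a) := by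
  ext γ
  rw [co_map, co_mono, co_mono]
  split_ifs
  · rfl
  · exact map_zero _

lemma map_hs (φ : DDHom A B) (s : ℚ) : map φ (hs s) = hs s := by
  rw [hs, map_mono, map_one]; rfl

lemma VG_map (φ : DDHom A B) {x : St A} {w : ℚ} (h : VG x w) : VG (map φ x) w := fun γ hγ => by
  rw [co_map, h γ hγ, map_zero]

lemma map_map (ψ : DDHom B C) (φ : DDHom A B) (x : St A) :
    map ψ (map φ x) = map (ψ.comp φ) x := rfl

lemma map_id (x : St A) : map (DDHom.id A) x = x := rfl

lemma map_injective {φ : DDHom A B} (h : Function.Injective φ.toRingHom) :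
    Function.Injective (map φ) := by
  intro x y hxy
  ext γ
  apply h
  rw [← co_map, ← co_map, hxy]

end St

end DDHom

end Pool.Agent.LibStar
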