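import Pool.Agent.Lib_MP_4b1745_al.DD
import Mathlib.RingTheory.HahnSeries.Multiplication
import Mathlib.Algebra.Order.Field.Rat
import Mathlib.Data.Rat.Floor
import Mathlib.Algebra.Order.Archimedean.Basic

/-! # The star product on Hahn series -/

set_option autoImplicit false
set_option linter.unusedSectionVars false

namespace Pool.Agent.LibStar

open Finset HahnSeries

section cmap

variable {A B C : Type*} [CommRing A] [CommRing B] [CommRing C]

/-- Hahn series vanishing below `w`. -/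
def Vge (x : HahnSeries ℚ A) (w : ℚ) : Prop := ∀ γ, γ < w → x.coeff γ = 0

/-- coefficientwise additive map -/
noncomputable def cmap (φ : A →+ B) : HahnSeries ℚ A →+ HahnSeries ℚ B where
  toFun x := x.map φ
  map_zero' := by ext γ; exact map_zero φ
  map_add' x y := by ext γ; exact map_add φ _ _

@[simp] lemma cmap_coeff (φ : A →+ B) (x : HahnSeries ℚ A) (γ : ℚ) :
    (cmap φ x).coeff γ = φ (x.coeff γ) := rfl

lemma cmap_support (φ : A →+ B) (x : HahnSeries ℚ A) : (cmap φ x).support ⊆ x.support := by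
  intro γ hγ
  rw [mem_support] at hγ ⊢
  intro h
  apply hγ
  rw [cmap_coeff, h, map_zero]

lemma coeff_mul_pwo {S T : Set ℚ} (hS : S.IsPWO) (hT : T.IsPWO) {x y : HahnSeries ℚ A}
    (hx : x.support ⊆ S) (hy : y.support ⊆ T) (γ : ℚ) :
    (x * y).coeff γ = ∑ ij ∈ Finset.antidiagonal hS hT γ, x.coeff ij.1 * y.coeff ij.2 := by
  rw [coeff_mul_left' hS hx]
  apply sum_subset
  · exact Finset.antidiagonal_mono_right hy
  · intro ij h1 h2
    rw [Finset.mem_antidiagonal] at h1 h2
    have : y.coeff ij.2 = 0 := by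
      by_contra h
      exact h2 ⟨h1.1, h, h1.2.2⟩
    rw [this, mul_zero]

/-- coefficientwise derivation -/
noncomputable def cder (d : Derivation ℤ A A) : Derivation ℤ (HahnSeries ℚ A) (HahnSeries ℚ A) :=
  Derivation.mk' (cmap (d : A →ₗ[ℤ] A).toAddMonoidHom).toIntLinearMap (by
    intro x y
    ext γ
    change d ((x * y).coeff γ) = (x • (cmap (d : A →ₗ[ℤ] A).toAddMonoidHom) y +
      y • (cmap (d : A →ₗ[ℤ] A).toAddMonoidHom) x).coeff γ
    have h1 : (cmap (d : A →ₗ[ℤ] A).toAddMonoidHom x).support ⊆ x.support := cmap_support _ _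
    have h2 : (cmap (d : A →ₗ[ℤ] A).toAddMonoidHom y).support ⊆ y.support := cmap_support _ _
    rw [coeff_mul, map_sum, coeff_add, smul_eq_mul, smul_eq_mul,
      coeff_mul_pwo x.isPWO_support y.isPWO_support (le_refl _) h2, mul_comm y,
      coeff_mul_pwo x.isPWO_support y.isPWO_support h1 (le_refl _), ← sum_add_distrib]
    apply sum_congr rfl
    intro ij _
    rw [Derivation.leibniz, smul_eq_mul, smul_eq_mul]
    change _ = x.coeff ij.1 * d (y.coeff ij.2) + d (x.coeff ij.1) * y.coeff ij.2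
    ring)

@[simp] lemma cder_coeff (d : Derivation ℤ A A) (x : HahnSeries ℚ A) (γ : ℚ) :
    (cder d x).coeff γ = d (x.coeff γ) := rfl

noncomputable instance [DD A] : DD (HahnSeries ℚ A) where
  D := cder DD.D
  E := cder DD.E
  comm x := by ext γ; exact DD.comm _

@[simp] lemma D_coeff [DD A] (x : HahnSeries ℚ A) (γ : ℚ) :
    (DD.D x).coeff γ = DD.D (x.coeff γ) := rfl

@[simp] lemma E_coeff [DD A] (x : HahnSeries ℚ A) (γ : ℚ) :
    (DD.E x).coeff γ = DD.E (x.coeff γ) := rfl

end cmap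

section Vge

variable {A : Type*} [CommRing A]

lemma Vge.mono {x : HahnSeries ℚ A} {w w' : ℚ} (h : Vge x w) (hw : w' ≤ w) : Vge x w' :=
  fun γ hγ => h γ (lt_of_lt_of_le hγ hw)

lemma Vge.zero (w : ℚ) : Vge (0 : HahnSeries ℚ A) w := fun _ _ => rfl

lemma Vge.add {x y : HahnSeries ℚ A} {w : ℚ} (h : Vge x w) (h' : Vge y w) : Vge (x + y) w :=
  fun γ hγ => by rw [coeff_add, h γ hγ, h' γ hγ, add_zero]

lemma Vge.neg {x : HahnSeries ℚ A} {w : ℚ} (h : Vge x w) : Vge (-x) w :=
  fun γ hγ => by rw [coeff_neg, h γ hγ, neg_zero]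

lemma Vge.sub {x y : HahnSeries ℚ A} {w : ℚ} (h : Vge x w) (h' : Vge y w) : Vge (x - y) w :=
  fun γ hγ => by rw [coeff_sub, h γ hγ, h' γ hγ, sub_zero]

lemma coeff_sum' {ι : Type*} (s : Finset ι) (f : ι → HahnSeries ℚ A) (γ : ℚ) :
    (∑ i ∈ s, f i).coeff γ = ∑ i ∈ s, (f i).coeff γ := by
  classical
  induction s using Finset.induction_on with
  | empty => rfl
  | insert a s ha ih => rw [sum_insert ha, sum_insert ha, coeff_add, ih]

lemma Vge.sum {ι : Type*} {s : Finset ι} {f : ι → HahnSeries ℚ A} {w : ℚ}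
    (h : ∀ i ∈ s, Vge (f i) w) : Vge (∑ i ∈ s, f i) w := fun γ hγ => by
  rw [coeff_sum']
  exact sum_eq_zero fun i hi => h i hi γ hγ

lemma exists_Vge (x : HahnSeries ℚ A) : ∃ w, Vge x w :=
  ⟨x.order, fun _ hγ => coeff_eq_zero_of_lt_order hγ⟩

lemma Vge_single (γ : ℚ) (a : A) : Vge (single γ a) γ := by
  intro δ hδ
  exact coeff_single_of_ne (ne_of_lt hδ)

lemma Vge.mul {x y : HahnSeries ℚ A} {w w' : ℚ} (h : Vge x w) (h' : Vge y w') :
    Vge (x * y) (w + w') := by
  intro γ hγ
  rw [coeff_mul]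
  apply sum_eq_zero
  intro ij hij
  rw [Finset.mem_antidiagonal] at hij
  by_cases h1 : ij.1 < w
  · rw [h _ h1, zero_mul]
  · have h2 : ij.2 < w' := by
      have := hij.2.2
      linarith
    rw [h' _ h2, mul_zero]

lemma coeff_mul_lead {x y : HahnSeries ℚ A} {w w' : ℚ} (h : Vge x w) (h' : Vge y w') :
    (x * y).coeff (w + w') = x.coeff w * y.coeff w' := by
  rw [coeff_mul]
  have key : ∀ ij ∈ Finset.antidiagonal x.isPWO_support y.isPWO_support (w + w'),
      ij ≠ (w, w') → x.coeff ij.1 * y.coeff ij.2 = 0 := by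
    intro ij hij hne
    rw [Finset.mem_antidiagonal] at hij
    have h3 := hij.2.2
    by_cases h1 : ij.1 < w
    · rw [h _ h1, zero_mul]
    · by_cases h2 : ij.2 < w'
      · rw [h' _ h2, mul_zero]
      · exfalso
        apply hne
        have e1 : ij.1 = w := by linarith
        have e2 : ij.2 = w' := by linarith
        exact Prod.ext e1 e2
  rw [sum_eq_single (w, w') key]
  intro hn
  rw [Finset.mem_antidiagonal] at hn
  by_cases h1 : x.coeff w = 0
  · rw [h1, zero_mul]
  · have h2 : y.coeff w' = 0 := by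
      by_contra h2
      exact hn ⟨h1, h2, rfl⟩
    rw [h2, mul_zero]

lemma Vge_smul [Algebra ℚ A] {x : HahnSeries ℚ A} {w : ℚ} (h : Vge x w) (q : ℚ) :
    Vge (q • x) w := fun γ hγ => by
  rw [coeff_smul, h γ hγ, smul_zero]

end Vge

section star

variable {A : Type*} [CommRing A] [Algebra ℚ A] [DD A]

lemma iter_D_coeff (n : ℕ) (x : HahnSeries ℚ A) (γ : ℚ) :
    ((DD.D (A := HahnSeries ℚ A))^[n] x).coeff γ = (DD.D (A := A))^[n] (x.coeff γ) := by
  induction n generalizing x with
  | zero => rfl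
  | succ n ih => rw [Function.iterate_succ_apply, ih, Function.iterate_succ_apply, D_coeff]

lemma iter_E_coeff (n : ℕ) (x : HahnSeries ℚ A) (γ : ℚ) :
    ((DD.E (A := HahnSeries ℚ A))^[n] x).coeff γ = (DD.E (A := A))^[n] (x.coeff γ) := by
  induction n generalizing x with
  | zero => rfl
  | succ n ih => rw [Function.iterate_succ_apply, ih, Function.iterate_succ_apply, E_coeff]

lemma dp_D_coeff (n : ℕ) (x : HahnSeries ℚ A) (γ : ℚ) :
    (dp (DD.D (A := HahnSeries ℚ A)) n x).coeff γ = dp DD.D n (x.coeff γ) := by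
  rw [dp, coeff_smul, iter_D_coeff, dp]

lemma dp_E_coeff (n : ℕ) (x : HahnSeries ℚ A) (γ : ℚ) :
    (dp (DD.E (A := HahnSeries ℚ A)) n x).coeff γ = dp DD.E n (x.coeff γ) := by
  rw [dp, coeff_smul, iter_E_coeff, dp]

lemma supp_dp_D (n : ℕ) (x : HahnSeries ℚ A) :
    (dp (DD.D (A := HahnSeries ℚ A)) n x).support ⊆ x.support := by
  intro γ hγ
  rw [mem_support] at hγ ⊢
  intro h
  apply hγ
  rw [dp_D_coeff, h, dp_zero_arg]

lemma supp_dp_E (n : ℕ) (x : HahnSeries ℚ A) :
    (dp (DD.E (A := HahnSeries ℚ A)) n x).support ⊆ x.support := by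
  intro γ hγ
  rw [mem_support] at hγ ⊢
  intro h
  apply hγ
  rw [dp_E_coeff, h, dp_zero_arg]

lemma Vge_dp_D {x : HahnSeries ℚ A} {w : ℚ} (h : Vge x w) (n : ℕ) :
    Vge (dp (DD.D (A := HahnSeries ℚ A)) n x) w := fun γ hγ => by
  rw [dp_D_coeff, h γ hγ, dp_zero_arg]

lemma Vge_dp_E {x : HahnSeries ℚ A} {w : ℚ} (h : Vge x w) (n : ℕ) :
    Vge (dp (DD.E (A := HahnSeries ℚ A)) n x) w := fun γ hγ => by
  rw [dp_E_coeff, h γ hγ, dp_zero_arg]

lemma bn_coeff {S T : Set ℚ} (hS : S.IsPWO) (hT : T.IsPWO) {x y : HahnSeries ℚ A}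
    (hx : x.support ⊆ S) (hy : y.support ⊆ T) (n : ℕ) (γ : ℚ) :
    (bn n x y).coeff γ = ∑ ij ∈ Finset.antidiagonal hS hT γ, bn n (x.coeff ij.1) (y.coeff ij.2) := by
  rw [bn, coeff_smul, coeff_mul_pwo hS hT ((supp_dp_D n x).trans hx) ((supp_dp_E n y).trans hy),
    smul_sum]
  apply sum_congr rfl
  intro ij _
  rw [dp_D_coeff, dp_E_coeff, bn]

lemma Vge_bn {x y : HahnSeries ℚ A} {w w' : ℚ} (h : Vge x w) (h' : Vge y w') (n : ℕ) :
    Vge (bn n x y) (w + w') :=
  Vge_smul ((Vge_dp_D h n).mul (Vge_dp_E h' n)) _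

/-- the truncation level -/
noncomputable def lev (x y : HahnSeries ℚ A) (γ : ℚ) : ℕ := ⌊γ - x.order - y.order⌋₊ + 1

/-- coefficient of the star product -/
noncomputable def starC (x y : HahnSeries ℚ A) (γ : ℚ) : A :=
  ∑ n ∈ range (lev x y γ), (bn n x y).coeff (γ - n)

lemma sum_trunc {x y : HahnSeries ℚ A} {w w' : ℚ} (h : Vge x w) (h' : Vge y w') {γ : ℚ} {M M' : ℕ}
    (hM : γ < M + w + w') (hMM : M ≤ M') :
    ∑ n ∈ range M, (bn n x y).coeff (γ - n) = ∑ n ∈ range M', (bn n x y).coeff (γ - n) := by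
  apply sum_subset (range_mono hMM)
  intro n _ hn2
  apply Vge_bn h h'
  rw [mem_range, not_lt] at hn2
  have : (M : ℚ) ≤ n := by exact_mod_cast hn2
  linarith

lemma starC_eq {x y : HahnSeries ℚ A} {w w' : ℚ} (h : Vge x w) (h' : Vge y w') {γ : ℚ} {M : ℕ}
    (hM : γ < M + w + w') : starC x y γ = ∑ n ∈ range M, (bn n x y).coeff (γ - n) := by
  have h1 : Vge x x.order := fun _ hγ => coeff_eq_zero_of_lt_order hγ
  have h2 : Vge y y.order := fun _ hγ => coeff_eq_zero_of_lt_order hγ
  have h3 : γ < lev x y γ + x.order + y.order := by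
    have := Nat.lt_floor_add_one (γ - x.order - y.order)
    rw [lev]
    push_cast
    linarith
  rw [starC, sum_trunc h1 h2 h3 (le_max_left _ M), sum_trunc h h' hM (le_max_right (lev x y γ) _)]

lemma isPWO_nat : (Set.range ((↑) : ℕ → ℚ)).IsPWO := by
  rw [← Set.image_univ]
  apply Set.IsPWO.image_of_monotone _ Nat.mono_cast
  exact Set.isPWO_of_wellQuasiOrderedLE _

/-- the star product -/
noncomputable def star (x y : HahnSeries ℚ A) : HahnSeries ℚ A where
  coeff := starC x y
  isPWO_support' := by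
    open Pointwise in
    apply ((x.isPWO_support.add y.isPWO_support).add isPWO_nat).mono
    intro γ hγ
    rw [Function.mem_support, starC] at hγ
    obtain ⟨n, _, hn⟩ := exists_ne_zero_of_sum_ne_zero hγ
    rw [bn_coeff x.isPWO_support y.isPWO_support (le_refl _) (le_refl _)] at hn
    obtain ⟨ij, hij, _⟩ := exists_ne_zero_of_sum_ne_zero hn
    rw [Finset.mem_antidiagonal] at hij
    refine ⟨ij.1 + ij.2, ⟨ij.1, hij.1, ij.2, hij.2.1, rfl⟩, n, ⟨n, rfl⟩, ?_⟩
    have := hij.2.2
    change ij.1 + ij.2 + (n : ℚ) = γ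
    linarith

lemma star_coeff {x y : HahnSeries ℚ A} {w w' : ℚ} (h : Vge x w) (h' : Vge y w') {γ : ℚ} {M : ℕ}
    (hM : γ < M + w + w') : (star x y).coeff γ = ∑ n ∈ range M, (bn n x y).coeff (γ - n) :=
  starC_eq h h' hM

lemma exists_level (γ c : ℚ) : ∃ M : ℕ, γ < M + c := by
  obtain ⟨M, hM⟩ := exists_nat_gt (γ - c)
  exact ⟨M, by linarith⟩

lemma Vge_star {x y : HahnSeries ℚ A} {w w' : ℚ} (h : Vge x w) (h' : Vge y w') :
    Vge (star x y) (w + w') := by
  intro γ hγ
  rw [star_coeff h h' (M := 0) (by push_cast; linarith), range_zero, sum_empty]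

lemma star_coeff_lead {x y : HahnSeries ℚ A} {w w' : ℚ} (h : Vge x w) (h' : Vge y w') :
    (star x y).coeff (w + w') = x.coeff w * y.coeff w' := by
  rw [star_coeff h h' (M := 1) (by push_cast; linarith), sum_range_one, bn_zero, Nat.cast_zero,
    sub_zero, coeff_mul_lead h h']

lemma star_add_left (x y z : HahnSeries ℚ A) : star (x + y) z = star x z + star y z := by
  ext γ
  obtain ⟨w1, h1⟩ := exists_Vge x
  obtain ⟨w2, h2⟩ := exists_Vge y
  obtain ⟨w3, h3⟩ := exists_Vge z
  have g1 := h1.mono (min_le_left w1 w2)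
  have g2 := h2.mono (min_le_right w1 w2)
  obtain ⟨M, hM⟩ := exists_level γ (min w1 w2 + w3)
  rw [← add_assoc] at hM
  rw [star_coeff (g1.add g2) h3 hM, coeff_add, star_coeff g1 h3 hM, star_coeff g2 h3 hM,
    ← sum_add_distrib]
  apply sum_congr rfl
  intro n _
  rw [bn_add_left, coeff_add]

lemma star_add_right (x y z : HahnSeries ℚ A) : star x (y + z) = star x y + star x z := by
  ext γ
  obtain ⟨w1, h1⟩ := exists_Vge y
  obtain ⟨w2, h2⟩ := exists_Vge z
  obtain ⟨w3, h3⟩ := exists_Vge x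
  have g1 := h1.mono (min_le_left w1 w2)
  have g2 := h2.mono (min_le_right w1 w2)
  obtain ⟨M, hM⟩ := exists_level γ (w3 + min w1 w2)
  rw [← add_assoc] at hM
  rw [star_coeff h3 (g1.add g2) hM, coeff_add, star_coeff h3 g1 hM, star_coeff h3 g2 hM,
    ← sum_add_distrib]
  apply sum_congr rfl
  intro n _
  rw [bn_add_right, coeff_add]

lemma star_zero_left (y : HahnSeries ℚ A) : star 0 y = 0 := by
  have := star_add_left 0 0 y
  rw [add_zero] at this
  exact left_eq_add.mp this

lemma star_zero_right (y : HahnSeries ℚ A) : star y 0 = 0 := by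
  have := star_add_right y 0 0
  rw [add_zero] at this
  exact left_eq_add.mp this

lemma star_sum_left {ι : Type*} (s : Finset ι) (f : ι → HahnSeries ℚ A) (z : HahnSeries ℚ A) :
    star (∑ i ∈ s, f i) z = ∑ i ∈ s, star (f i) z := by
  classical
  induction s using Finset.induction_on with
  | empty => rw [sum_empty, sum_empty, star_zero_left]
  | insert a s ha ih => rw [sum_insert ha, sum_insert ha, star_add_left, ih]

lemma star_sum_right {ι : Type*} (s : Finset ι) (f : ι → HahnSeries ℚ A) (z : HahnSeries ℚ A) :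
    star z (∑ i ∈ s, f i) = ∑ i ∈ s, star z (f i) := by
  classical
  induction s using Finset.induction_on with
  | empty => rw [sum_empty, sum_empty, star_zero_right]
  | insert a s ha ih => rw [sum_insert ha, sum_insert ha, star_add_right, ih]

lemma star_neg_left (x y : HahnSeries ℚ A) : star (-x) y = - star x y := by
  have := star_add_left x (-x) y
  rw [add_neg_cancel, star_zero_left] at this
  exact (neg_eq_of_add_eq_zero_right this.symm).symm

lemma star_neg_right (x y : HahnSeries ℚ A) : star x (-y) = - star x y := by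
  have := star_add_right x y (-y)
  rw [add_neg_cancel, star_zero_right] at this
  exact (neg_eq_of_add_eq_zero_right this.symm).symm

/-- the power of the central parameter -/
noncomputable def hp (s : ℚ) : HahnSeries ℚ A := single s 1

/-- the truncated star product, in the commutative ring of Hahn series -/
noncomputable def tr (M : ℕ) (x y : HahnSeries ℚ A) : HahnSeries ℚ A :=
  ∑ n ∈ range M, hp (n : ℚ) * bn n x y

lemma coeff_hp_mul (s : ℚ) (x : HahnSeries ℚ A) (γ : ℚ) :
    (hp s * x).coeff γ = x.coeff (γ - s) := by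
  rw [hp, coeff_single_mul, one_mul]

lemma tr_coeff (M : ℕ) (x y : HahnSeries ℚ A) (γ : ℚ) :
    (tr M x y).coeff γ = ∑ n ∈ range M, (bn n x y).coeff (γ - n) := by
  rw [tr, coeff_sum']
  exact sum_congr rfl fun n _ => coeff_hp_mul _ _ _

lemma star_sub_tr {x y : HahnSeries ℚ A} {w w' : ℚ} (h : Vge x w) (h' : Vge y w') (M : ℕ) :
    Vge (star x y - tr M x y) (M + w + w') := by
  intro γ hγ
  rw [coeff_sub, star_coeff h h' hγ, tr_coeff, sub_self]

lemma Vge_hp_mul {x : HahnSeries ℚ A} {w : ℚ} (h : Vge x w) (s : ℚ) : Vge (hp s * x) (s + w) := by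
  intro γ hγ
  rw [coeff_hp_mul]
  exact h _ (by linarith)

lemma Vge_tr {x y : HahnSeries ℚ A} {w w' : ℚ} (h : Vge x w) (h' : Vge y w') (M : ℕ) :
    Vge (tr M x y) (w + w') := by
  apply Vge.sum
  intro n _
  apply (Vge_hp_mul (Vge_bn h h' n) n).mono
  have : (0 : ℚ) ≤ n := Nat.cast_nonneg n
  linarith

lemma iter_const_mul (d : Derivation ℤ A A) {c : A} (hc : d c = 0) (n : ℕ) (a : A) :
    d^[n] (c * a) = c * d^[n] a := by
  induction n generalizing a with
  | zero => rfl
  | succ n ih =>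
    rw [Function.iterate_succ_apply, Derivation.leibniz, hc, smul_zero, add_zero, smul_eq_mul, ih,
      Function.iterate_succ_apply]

lemma dp_const_mul (d : Derivation ℤ A A) {c : A} (hc : d c = 0) (n : ℕ) (a : A) :
    dp d n (c * a) = c * dp d n a := by
  rw [dp, iter_const_mul d hc, dp, mul_smul_comm]

lemma bn_const_mul_left {c : A} (hc : DD.D c = 0) (n : ℕ) (a b : A) :
    bn n (c * a) b = c * bn n a b := by
  rw [bn, dp_const_mul _ hc, bn, mul_assoc, mul_smul_comm]

lemma bn_const_mul_right {c : A} (hc : DD.E c = 0) (n : ℕ) (a b : A) :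
    bn n a (c * b) = c * bn n a b := by
  rw [bn, dp_const_mul _ hc, bn, mul_left_comm, mul_smul_comm]

lemma D_hp (s : ℚ) : DD.D (hp s : HahnSeries ℚ A) = 0 := by
  ext γ
  rw [D_coeff, hp, coeff_single]
  split_ifs
  · rw [Derivation.map_one_eq_zero]; rfl
  · rw [map_zero]; rfl

lemma E_hp (s : ℚ) : DD.E (hp s : HahnSeries ℚ A) = 0 := by
  ext γ
  rw [E_coeff, hp, coeff_single]
  split_ifs
  · rw [Derivation.map_one_eq_zero]; rfl
  · rw [map_zero]; rfl

lemma hp_mul_hp (s t : ℚ) : (hp s * hp t : HahnSeries ℚ A) = hp (s + t) := by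
  rw [hp, hp, single_mul_single, one_mul, hp]

lemma hp_zero : (hp 0 : HahnSeries ℚ A) = 1 := rfl

lemma bn_sum_left {ι : Type*} (n : ℕ) (s : Finset ι) (f : ι → A) (z : A) :
    bn n (∑ i ∈ s, f i) z = ∑ i ∈ s, bn n (f i) z := by
  classical
  induction s using Finset.induction_on with
  | empty => rw [sum_empty, sum_empty, bn_zero_left]
  | insert a s ha ih => rw [sum_insert ha, sum_insert ha, bn_add_left, ih]

lemma bn_sum_right {ι : Type*} (n : ℕ) (s : Finset ι) (f : ι → A) (z : A) :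
    bn n z (∑ i ∈ s, f i) = ∑ i ∈ s, bn n z (f i) := by
  classical
  induction s using Finset.induction_on with
  | empty => rw [sum_empty, sum_empty, bn_zero_right]
  | insert a s ha ih => rw [sum_insert ha, sum_insert ha, bn_add_right, ih]

lemma tr_add_left (M : ℕ) (x y z : HahnSeries ℚ A) : tr M (x + y) z = tr M x z + tr M y z := by
  rw [tr, tr, tr, ← sum_add_distrib]
  exact sum_congr rfl fun n _ => by rw [bn_add_left, mul_add]

lemma tr_add_right (M : ℕ) (x y z : HahnSeries ℚ A) : tr M x (y + z) = tr M x y + tr M x z := by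
  rw [tr, tr, tr, ← sum_add_distrib]
  exact sum_congr rfl fun n _ => by rw [bn_add_right, mul_add]

/-- collecting a double sum by total degree modulo high order terms -/
lemma Vge_double (M : ℕ) (g : ℕ → ℕ → HahnSeries ℚ A) {w : ℚ} (hg : ∀ i j, Vge (g i j) w) :
    Vge (∑ i ∈ range M, ∑ j ∈ range M, hp ((i : ℚ) + j) * g i j -
      ∑ N ∈ range M, ∑ p ∈ HasAntidiagonal.antidiagonal N, hp (N : ℚ) * g p.1 p.2) (M + w) := by
  have h1 : ∑ N ∈ range M, ∑ p ∈ HasAntidiagonal.antidiagonal N, hp (N : ℚ) * g p.1 p.2 =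
      ∑ p ∈ (range M ×ˢ range M).filter (fun p => p.1 + p.2 < M),
        hp ((p.1 : ℚ) + p.2) * g p.1 p.2 := by
    rw [← sum_fiberwise_of_maps_to (s := (range M ×ˢ range M).filter (fun p => p.1 + p.2 < M))
      (t := range M) (g := fun p => p.1 + p.2)]
    · apply sum_congr rfl
      intro N hN
      rw [mem_range] at hN
      have h2 : HasAntidiagonal.antidiagonal N =
          ((range M ×ˢ range M).filter (fun p => p.1 + p.2 < M)).filter
            (fun p => p.1 + p.2 = N) := by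
        ext p
        rw [mem_filter, mem_filter, mem_product, mem_range, mem_range,
          HasAntidiagonal.mem_antidiagonal]
        omega
      rw [← h2]
      apply sum_congr rfl
      intro p hp
      rw [HasAntidiagonal.mem_antidiagonal] at hp
      rw [← hp]
      push_cast
      rfl
    · intro p hp
      rw [mem_filter] at hp
      exact mem_range.mpr hp.2
  rw [h1, ← sum_product' (s := range M) (t := range M)
    (f := fun i j => hp ((i : ℚ) + j) * g i j),
    ← sum_filter_add_sum_filter_not (range M ×ˢ range M) (fun p => p.1 + p.2 < M),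
    add_sub_cancel_left]
  apply Vge.sum
  intro p hp
  rw [mem_filter, not_lt] at hp
  apply (Vge_hp_mul (hg p.1 p.2) _).mono
  have : (M : ℚ) ≤ ((p.1 + p.2 : ℕ) : ℚ) := by exact_mod_cast hp.2
  push_cast at this
  linarith

lemma star_assoc_left {x y z : HahnSeries ℚ A} {w1 w2 w3 : ℚ} (h1 : Vge x w1) (h2 : Vge y w2)
    (h3 : Vge z w3) (M : ℕ) :
    Vge (star (star x y) z - ∑ N ∈ range M, hp (N : ℚ) *
      ∑ p ∈ HasAntidiagonal.antidiagonal N, bn p.1 (bn p.2 x y) z) (M + w1 + w2 + w3) := by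
  have e1 := star_sub_tr (Vge_star h1 h2) h3 M
  have e2 : Vge (tr M (star x y - tr M x y) z) (M + w1 + w2 + w3) :=
    Vge_tr (star_sub_tr h1 h2 M) h3 M
  have e3 : tr M (star x y - tr M x y) z = tr M (star x y) z - tr M (tr M x y) z := by
    rw [eq_sub_iff_add_eq, ← tr_add_left, sub_add_cancel]
  have e4 : tr M (tr M x y) z =
      ∑ i ∈ range M, ∑ j ∈ range M, hp ((i : ℚ) + j) * bn i (bn j x y) z := by
    rw [tr]
    apply sum_congr rfl
    intro i _
    rw [tr, bn_sum_left, mul_sum]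
    apply sum_congr rfl
    intro j _
    rw [bn_const_mul_left (D_hp _), ← mul_assoc, hp_mul_hp]
  have e5 := Vge_double M (fun i j => bn i (bn j x y) z) (w := w1 + w2 + w3)
    (fun i j => Vge_bn (Vge_bn h1 h2 j) h3 i)
  have e6 := ((e1.mono (w' := M + w1 + w2 + w3) (by linarith)).add e2).add
    (e5.mono (w' := M + w1 + w2 + w3) (by linarith))
  rw [e3, e4] at e6
  simp only [mul_sum]
  convert e6 using 1
  abel

lemma star_assoc_right {x y z : HahnSeries ℚ A} {w1 w2 w3 : ℚ} (h1 : Vge x w1) (h2 : Vge y w2)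
    (h3 : Vge z w3) (M : ℕ) :
    Vge (star x (star y z) - ∑ N ∈ range M, hp (N : ℚ) *
      ∑ p ∈ HasAntidiagonal.antidiagonal N, bn p.1 x (bn p.2 y z)) (M + w1 + w2 + w3) := by
  have e1 := star_sub_tr h1 (Vge_star h2 h3) M
  have e2 : Vge (tr M x (star y z - tr M y z)) (w1 + (M + w2 + w3)) :=
    Vge_tr h1 (star_sub_tr h2 h3 M) M
  have e3 : tr M x (star y z - tr M y z) = tr M x (star y z) - tr M x (tr M y z) := by
    rw [eq_sub_iff_add_eq, ← tr_add_right, sub_add_cancel]
  have e4 : tr M x (tr M y z) =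
      ∑ i ∈ range M, ∑ j ∈ range M, hp ((i : ℚ) + j) * bn i x (bn j y z) := by
    rw [tr]
    apply sum_congr rfl
    intro i _
    rw [tr, bn_sum_right, mul_sum]
    apply sum_congr rfl
    intro j _
    rw [bn_const_mul_right (E_hp _), ← mul_assoc, hp_mul_hp]
  have e5 := Vge_double M (fun i j => bn i x (bn j y z)) (w := w1 + (w2 + w3))
    (fun i j => Vge_bn h1 (Vge_bn h2 h3 j) i)
  have e6 := ((e1.mono (w' := M + w1 + w2 + w3) (by linarith)).add
    (e2.mono (w' := M + w1 + w2 + w3) (by linarith))).add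
    (e5.mono (w' := M + w1 + w2 + w3) (by linarith))
  rw [e3, e4] at e6
  simp only [mul_sum]
  convert e6 using 1
  abel

theorem star_assoc (x y z : HahnSeries ℚ A) : star (star x y) z = star x (star y z) := by
  obtain ⟨w1, h1⟩ := exists_Vge x
  obtain ⟨w2, h2⟩ := exists_Vge y
  obtain ⟨w3, h3⟩ := exists_Vge z
  ext γ
  obtain ⟨M, hM⟩ := exists_level γ (w1 + w2 + w3)
  have e1 := star_assoc_left h1 h2 h3 M γ (by linarith)
  have e2 := star_assoc_right h1 h2 h3 M γ (by linarith)
  rw [coeff_sub, sub_eq_zero] at e1 e2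
  rw [e1, e2]
  congr 1
  apply sum_congr rfl
  intro N _
  rw [bn_assoc]

/-- multiplication by an element killed by `D` on the left is the commutative product -/
lemma star_const_left {c : HahnSeries ℚ A} (hc : DD.D c = 0) (x : HahnSeries ℚ A) :
    star c x = c * x := by
  obtain ⟨w1, h1⟩ := exists_Vge c
  obtain ⟨w2, h2⟩ := exists_Vge x
  ext γ
  obtain ⟨M, hM⟩ := exists_level γ (w1 + w2)
  rw [← add_assoc] at hM
  have hM1 : γ < (M + 1 : ℕ) + w1 + w2 := by push_cast; linarith
  rw [star_coeff h1 h2 hM1, sum_range_succ', bn_zero, Nat.cast_zero, sub_zero, sum_eq_zero,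
    zero_add]
  intro n _
  have : dp DD.D (n + 1) c = 0 := by
    rw [dp, Function.iterate_succ_apply, hc, iter_zero, smul_zero]
  rw [bn, this, zero_mul, smul_zero]
  rfl

lemma star_const_right {c : HahnSeries ℚ A} (hc : DD.E c = 0) (x : HahnSeries ℚ A) :
    star x c = x * c := by
  obtain ⟨w1, h1⟩ := exists_Vge x
  obtain ⟨w2, h2⟩ := exists_Vge c
  ext γ
  obtain ⟨M, hM⟩ := exists_level γ (w1 + w2)
  rw [← add_assoc] at hM
  have hM1 : γ < (M + 1 : ℕ) + w1 + w2 := by push_cast; linarith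
  rw [star_coeff h1 h2 hM1, sum_range_succ', bn_zero, Nat.cast_zero, sub_zero, sum_eq_zero,
    zero_add]
  intro n _
  have : dp DD.E (n + 1) c = 0 := by
    rw [dp, Function.iterate_succ_apply, hc, iter_zero, smul_zero]
  rw [bn, this, mul_zero, smul_zero]
  rfl

end star

end Pool.Agent.LibStar
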