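import Pool.Agent.Lib_MP_4b1745_al.GPI
import Mathlib.LinearAlgebra.Dual.Lemmas

/-! # Generic values determine elements of the free product up to constants -/

set_option autoImplicit false
set_option linter.unusedSectionVars false

namespace Pool.Agent.LibStar

open Finset St

section density

variable {A : Type*} [CommRing A] [Algebra ℚ A] [DD A]

lemma sum_add_lin (L : List (St A × St A)) (y z : St A) :
    (L.map fun pq => pq.1 * ((y + z) * pq.2)).sum =
      (L.map fun pq => pq.1 * (y * pq.2)).sum + (L.map fun pq => pq.1 * (z * pq.2)).sum := by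
  induction L with
  | nil => simp
  | cons x L ih =>
    simp only [List.map_cons, List.sum_cons]
    rw [ih, add_mul, mul_add]
    abel

lemma sum_hs_lin (L : List (St A × St A)) (s : ℚ) (y : St A) :
    (L.map fun pq => pq.1 * ((hs s * y) * pq.2)).sum =
      hs s * (L.map fun pq => pq.1 * (y * pq.2)).sum := by
  induction L with
  | nil => simp
  | cons x L ih =>
    simp only [List.map_cons, List.sum_cons, ih, mul_add]
    congr 1
    rw [mul_assoc, ← mul_assoc, hs_comm, mul_assoc]

/-- an identity valid for coefficients is valid for all elements -/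
lemma density (L : List (St A × St A))
    (h : ∀ a : A, (L.map fun pq => pq.1 * (mono 0 a * pq.2)).sum = 0) (y : St A) :
    (L.map fun pq => pq.1 * (y * pq.2)).sum = 0 := by
  classical
  have hmono : ∀ (s : ℚ) (a : A), (L.map fun pq => pq.1 * (mono s a * pq.2)).sum = 0 := by
    intro s a
    have h1 := sum_hs_lin L s (mono 0 a)
    rw [h a, mul_zero, hs_mul_mono, add_zero] at h1
    exact h1
  have hfin : ∀ Φ : Finset ℚ,
      (L.map fun pq => pq.1 * (restr (Φ : Set ℚ) y * pq.2)).sum = 0 := by
    intro Φ
    induction Φ using Finset.induction_on with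
    | empty =>
      have h1 := hmono 0 0
      rw [mono_zero] at h1
      rw [coe_empty, restr_empty]
      exact h1
    | insert a Φ ha ih =>
      rw [coe_insert, restr_insert (fun h => ha (mem_coe.mp h)), sum_add_lin, ih, hmono, add_zero]
  let f : FA A := (L.map fun pq => FreeAlgebra.ι ℤ (Sum.inl pq.1) *
    (FreeAlgebra.ι ℤ (Sum.inr 0) * FreeAlgebra.ι ℤ (Sum.inl pq.2))).sum
  have hf : ∀ z : ℕ → St A, ev (DDHom.id A) z f =
      (L.map fun pq => pq.1 * (z 0 * pq.2)).sum := by
    intro z
    simp only [f]
    rw [map_list_sum, List.map_map]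
    congr 1
    apply List.map_congr_left
    intro pq _
    rw [Function.comp_apply, map_mul, map_mul, ev_inl, ev_inr, ev_inl, map_id, map_id]
  obtain ⟨_, _, _, hF⟩ := FD (DDHom.id A) (fun _ => 0) (fun _ => y) f
  ext γ
  obtain ⟨Φ, hΦ⟩ := hF γ
  have h1 := hΦ Φ (subset_refl _)
  rw [hf, hf] at h1
  simp only [zero_add, restr_univ] at h1
  rw [← h1, hfin]

end density

section GI

variable {K : Type} [Field K] [CharZero K] [Algebra ℚ K] [DD K] [hK : Fact (Closed K)]

/-- pairs of a linear generalised function and its symbol -/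
def GI (Φ : FractionRing (Kx K) → St (FractionRing (Kx K)))
    (w : (St (FractionRing (Kx K)) →ₗ[PK K] PK K) → St K) : Prop :=
  ∃ L : List (St (Kx K) × St (Kx K)),
    (∀ y, Φ y = (L.map fun pq => incl1 K pq.1 * (mono 0 y * incl1 K pq.2)).sum) ∧
    ∀ l, w l = (L.map fun pq => eps K pq.1 * ((l (incl1 K pq.2) : PK K) : St K)).sum

lemma GI_zero : GI (K := K) (fun _ => 0) (fun _ => 0) := ⟨[], by simp, by simp⟩

lemma GI_add {Φ Φ' : FractionRing (Kx K) → St (FractionRing (Kx K))}
    {w w' : (St (FractionRing (Kx K)) →ₗ[PK K] PK K) → St K} (h : GI Φ w) (h' : GI Φ' w') :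
    GI (fun y => Φ y + Φ' y) (fun l => w l + w' l) := by
  obtain ⟨L, h1, h2⟩ := h
  obtain ⟨L', h1', h2'⟩ := h'
  refine ⟨L ++ L', ?_, ?_⟩
  · intro y
    rw [List.map_append, List.sum_append, ← h1, ← h1']
  · intro l
    rw [List.map_append, List.sum_append, ← h2, ← h2']

lemma GI_sum {ι : Type*} (s : Finset ι) {Φ : ι → FractionRing (Kx K) → St (FractionRing (Kx K))}
    {w : ι → (St (FractionRing (Kx K)) →ₗ[PK K] PK K) → St K} (h : ∀ i ∈ s, GI (Φ i) (w i)) :
    GI (fun y => ∑ i ∈ s, Φ i y) (fun l => ∑ i ∈ s, w i l) := by
  classical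
  induction s using Finset.induction_on with
  | empty =>
    simp only [sum_empty]
    exact GI_zero
  | insert a s ha ih =>
    simp only [sum_insert ha]
    exact GI_add (h a (mem_insert_self _ _)) (ih fun i hi => h i (mem_insert_of_mem hi))

lemma GI_pair (p q : St (Kx K)) :
    GI (fun y => incl1 K p * (mono 0 y * incl1 K q))
      (fun l => eps K p * ((l (incl1 K q) : PK K) : St K)) :=
  ⟨[(p, q)], by simp, by simp⟩

lemma GI_left {Φ : FractionRing (Kx K) → St (FractionRing (Kx K))}
    {w : (St (FractionRing (Kx K)) →ₗ[PK K] PK K) → St K} (h : GI Φ w) (s : St (Kx K)) :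
    GI (fun y => incl1 K s * Φ y) (fun l => eps K s * w l) := by
  obtain ⟨L, h1, h2⟩ := h
  refine ⟨L.map fun pq => (s * pq.1, pq.2), ?_, ?_⟩
  · intro y
    dsimp only
    rw [h1, List.map_map, ← List.sum_map_mul_left]
    congr 1
    apply List.map_congr_left
    intro pq _
    rw [Function.comp_apply, map_mul, mul_assoc]
  · intro l
    dsimp only
    rw [h2, List.map_map, ← List.sum_map_mul_left]
    congr 1
    apply List.map_congr_left
    intro pq _
    rw [Function.comp_apply, map_mul, mul_assoc]

lemma GI_right {Φ : FractionRing (Kx K) → St (FractionRing (Kx K))}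
    {w : (St (FractionRing (Kx K)) →ₗ[PK K] PK K) → St K} (h : GI Φ w) (s : St (Kx K)) :
    ∃ w', GI (fun y => Φ y * incl1 K s) w' := by
  obtain ⟨L, h1, _⟩ := h
  refine ⟨_, L.map fun pq => (pq.1, pq.2 * s), ?_, fun l => rfl⟩
  intro y
  dsimp only
  rw [h1, List.map_map, ← List.sum_map_mul_right]
  congr 1
  apply List.map_congr_left
  intro pq _
  rw [Function.comp_apply, map_mul, mul_assoc, mul_assoc]

lemma GI_trivial {w : (St (FractionRing (Kx K)) →ₗ[PK K] PK K) → St K}
    (h : GI (fun _ => 0) w) (l : St (FractionRing (Kx K)) →ₗ[PK K] PK K) : w l = 0 := by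
  obtain ⟨L, h1, h2⟩ := h
  let L' : List (St (FractionRing (Kx K)) × St (FractionRing (Kx K))) :=
    L.map fun pq => (incl1 K pq.1, incl1 K pq.2)
  have h3 : ∀ y, (L'.map fun pq => pq.1 * (y * pq.2)).sum = 0 := by
    apply density
    intro a
    rw [List.map_map]
    exact (h1 a).symm
  have h4 := functional_identity (P := PK K) center_cond L' h3 l
  rw [List.map_map] at h4
  have h5 : incl1 K (L.map fun pq =>
      pq.1 * algebraMap (PK K) (St (Kx K)) (l (incl1 K pq.2))).sum = 0 := by
    rw [map_list_sum, List.map_map, ← h4]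
    congr 1
    apply List.map_congr_left
    intro pq _
    rw [Function.comp_apply, map_mul, AlgHom.commutes]
    rfl
  have h6 := incl1_inj (h5.trans (map_zero (incl1 K)).symm)
  have h7 := congrArg (fun z => eps K z) h6
  simp only [map_list_sum, List.map_map, map_zero] at h7
  rw [h2, ← h7]
  congr 1
  apply List.map_congr_left
  intro pq _
  rw [Function.comp_apply, map_mul, AlgHom.commutes]
  rfl

end GI

section del

variable {K : Type} [Field K] [CharZero K] [Algebra ℚ K] [DD K]

/-- the derivation replacing one copy of the `i`-th unknown by `y` -/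
noncomputable def delK (i : ℕ) (y : FractionRing (Kx K)) :
    Derivation K (Kx K) (FractionRing (Kx K)) :=
  MvPolynomial.mkDerivation K (fun t : ℕ × ℕ × ℕ => if t.1 = i then DE t.2.1 t.2.2 y else 0)

lemma delK_C (i : ℕ) (y : FractionRing (Kx K)) (a : K) :
    delK i y (MvPolynomial.C a) = 0 := MvPolynomial.derivation_C _ _

lemma delK_X (i : ℕ) (y : FractionRing (Kx K)) (t : ℕ × ℕ × ℕ) :
    delK i y (MvPolynomial.X t) = if t.1 = i then DE t.2.1 t.2.2 y else 0 :=
  MvPolynomial.mkDerivation_X _ _ _

/-- the same as a derivation compatible with the two derivations -/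
noncomputable def del (i : ℕ) (y : FractionRing (Kx K)) : DDer (FF (Kx K)) where
  fn := (delK i y).toLinearMap.toAddMonoidHom
  leib a b := by
    change delK i y (a * b) = algebraMap (Kx K) (FractionRing (Kx K)) a * delK i y b +
      delK i y a * algebraMap (Kx K) (FractionRing (Kx K)) b
    rw [Derivation.leibniz, Algebra.smul_def, Algebra.smul_def]
    ring
  map_D p := by
    change delK i y (DD.D p) = DD.D (delK i y p)
    induction p using MvPolynomial.induction_on with
    | C a => rw [D_C, delK_C, delK_C, map_zero]
    | add p q hp hq => simp only [map_add, hp, hq]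
    | mul_X p t hp =>
      have h1 : delK i y (DD.D (MvPolynomial.X t : Kx K)) =
          DD.D (delK i y (MvPolynomial.X t : Kx K)) := by
        rw [D_X, delK_X, delK_X]
        by_cases h : t.1 = i
        · rw [if_pos h, if_pos h, DE_D]
        · rw [if_neg h, if_neg h, map_zero]
      have h2 : ∀ q : Kx K, DD.D (algebraMap (Kx K) (FractionRing (Kx K)) q) =
          algebraMap (Kx K) (FractionRing (Kx K)) (DD.D q) := fun q => ((FF (Kx K)).map_D q).symm
      simp only [Derivation.leibniz, map_add, Algebra.smul_def, Algebra.algebraMap_self,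
        RingHom.id_apply, hp, h1, h2]
      ring
  map_E p := by
    change delK i y (DD.E p) = DD.E (delK i y p)
    induction p using MvPolynomial.induction_on with
    | C a => rw [E_C, delK_C, delK_C, map_zero]
    | add p q hp hq => simp only [map_add, hp, hq]
    | mul_X p t hp =>
      have h1 : delK i y (DD.E (MvPolynomial.X t : Kx K)) =
          DD.E (delK i y (MvPolynomial.X t : Kx K)) := by
        rw [E_X, delK_X, delK_X]
        by_cases h : t.1 = i
        · rw [if_pos h, if_pos h, DE_E]
        · rw [if_neg h, if_neg h, map_zero]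
      have h2 : ∀ q : Kx K, DD.E (algebraMap (Kx K) (FractionRing (Kx K)) q) =
          algebraMap (Kx K) (FractionRing (Kx K)) (DD.E q) := fun q => ((FF (Kx K)).map_E q).symm
      simp only [Derivation.leibniz, map_add, Algebra.smul_def, Algebra.algebraMap_self,
        RingHom.id_apply, hp, h1, h2]
      ring

lemma del_fn (i : ℕ) (y : FractionRing (Kx K)) (p : Kx K) : (del i y).fn p = delK i y p := rfl

lemma del_CC (i : ℕ) (y : FractionRing (Kx K)) (r : St K) :
    (del i y).ext (St.map (CC K) r) = 0 := by
  ext γ
  rw [DDer.co_ext, co_map, del_fn]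
  exact delK_C i y _

lemma del_xi (i : ℕ) (y : FractionRing (Kx K)) (j : ℕ) :
    (del i y).ext (mono 0 (xi K j)) = if j = i then mono 0 y else 0 := by
  rw [DDer.ext_mono, del_fn, xi, delK_X]
  split_ifs
  · rfl
  · exact mono_zero 0

end del

section main

variable {K : Type} [Field K] [CharZero K] [Algebra ℚ K] [DD K] [hK : Fact (Closed K)]

/-- the generic evaluation of the free product -/
noncomputable def evx (K : Type) [Field K] [CharZero K] [Algebra ℚ K] [DD K]
    [Fact (Closed K)] : FP (PK K) (St K) →ₐ[PK K] St (Kx K) :=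
  fpLift (inclS K) (fun i => mono 0 (xi K i))

lemma evx_inc (r : St K) : evx K (inc (PK K) (St K) r) = inclS K r := fpLift_inc _ _ _
lemma evx_var (i : ℕ) : evx K (var (PK K) (St K) i) = mono 0 (xi K i) := fpLift_var _ _ _

lemma exists_GI (i : ℕ) (g : FP (PK K) (St K)) :
    ∃ w, GI (fun y => (del i y).ext (evx K g)) w := by
  induction g using fp_induction with
  | hinc r =>
    refine ⟨fun _ => 0, ?_⟩
    have : (fun y => (del i y).ext (evx K (inc (PK K) (St K) r))) = fun _ => 0 := by
      funext y
      rw [evx_inc, inclS_apply, del_CC]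
    rw [this]
    exact GI_zero
  | hvar j =>
    by_cases h : j = i
    · have : (fun y => (del i y).ext (evx K (var (PK K) (St K) j))) =
          fun y => incl1 K 1 * (mono 0 y * incl1 K 1) := by
        funext y
        rw [evx_var, del_xi, if_pos h, map_one, one_mul, mul_one]
      rw [this]
      exact ⟨_, GI_pair 1 1⟩
    · refine ⟨fun _ => 0, ?_⟩
      have : (fun y => (del i y).ext (evx K (var (PK K) (St K) j))) = fun _ => 0 := by
        funext y
        rw [evx_var, del_xi, if_neg h]
      rw [this]
      exact GI_zero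
  | hmul a b ha hb =>
    obtain ⟨wa, hwa⟩ := ha
    obtain ⟨wb, hwb⟩ := hb
    obtain ⟨wa', hwa'⟩ := GI_right hwa (evx K b)
    have : (fun y => (del i y).ext (evx K (a * b))) = fun y =>
        incl1 K (evx K a) * (del i y).ext (evx K b) + (del i y).ext (evx K a) * incl1 K (evx K b) := by
      funext y
      rw [map_mul, DDer.ext_mul]
      rfl
    rw [this]
    exact ⟨_, GI_add (GI_left hwb (evx K a)) hwa'⟩
  | hadd a b ha hb =>
    obtain ⟨wa, hwa⟩ := ha
    obtain ⟨wb, hwb⟩ := hb
    have : (fun y => (del i y).ext (evx K (a + b))) = fun y =>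
        (del i y).ext (evx K a) + (del i y).ext (evx K b) := by
      funext y
      rw [map_add, map_add]
    rw [this]
    exact ⟨_, GI_add hwa hwb⟩

/-- an element of the free product whose generic value is a constant is itself constant -/
theorem const_of_generic (d : ℕ) : ∀ f ∈ fil (PK K) (St K) d, (∃ r, evx K f = inclS K r) →
    ∃ r, f = inc (PK K) (St K) r := by
  classical
  induction d with
  | zero =>
    rintro _ ⟨r, rfl⟩ _
    exact ⟨r, rfl⟩
  | succ d ih =>
    rintro f hf ⟨r0, hr0⟩
    obtain ⟨_, ⟨r, rfl⟩, _, ⟨g, hg, rfl⟩, rfl⟩ := Submodule.mem_sup.mp hf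
    have hterm : ∀ (i0 : ℕ) (t : ℕ × BI (PK K) (St K)),
        GI (fun y => (del i0 y).ext (evx K (inc (PK K) (St K) (bas (PK K) (St K) t.2) *
          var (PK K) (St K) t.1 * g t)))
          (fun l => if t.1 = i0 then bas (PK K) (St K) t.2 *
            ((l (incl1 K (evx K (g t))) : PK K) : St K) else 0) := by
      intro i0 t
      obtain ⟨w, hw⟩ := exists_GI i0 (g t)
      have h1 := GI_left hw (inclS K (bas (PK K) (St K) t.2) * mono 0 (xi K t.1))
      have h2 := GI_pair (inclS K (bas (PK K) (St K) t.2)) (evx K (g t))
      by_cases ht : t.1 = i0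
      · have h3 := GI_add h1 h2
        simp only [map_mul, eps_xi, eps_inclS, mul_zero, zero_mul, zero_add] at h3
        simp only [if_pos ht]
        convert h3 using 1
        funext y
        rw [map_mul (evx K), map_mul (evx K), evx_inc, evx_var, DDer.ext_mul, DDer.ext_mul, inclS_apply, del_CC,
          zero_mul, add_zero, del_xi, if_pos ht]
        simp only [incl1_apply, map_mul, mul_assoc]
      · simp only [map_mul, eps_xi, mul_zero, zero_mul] at h1
        simp only [if_neg ht]
        convert h1 using 1
        funext y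
        rw [map_mul (evx K), map_mul (evx K), evx_inc, evx_var, DDer.ext_mul, DDer.ext_mul, inclS_apply, del_CC,
          zero_mul, add_zero, del_xi, if_neg ht, mul_zero, zero_mul, add_zero]
        simp only [incl1_apply, map_mul, mul_assoc]
    have hzero : ∀ t, g t = 0 := by
      rintro ⟨i0, j0⟩
      have h1 := GI_sum g.support (fun t _ => hterm i0 t)
      have h2 : (fun y => ∑ t ∈ g.support, (del i0 y).ext (evx K
          (inc (PK K) (St K) (bas (PK K) (St K) t.2) * var (PK K) (St K) t.1 * g t))) =
          fun _ => 0 := by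
        funext y
        rw [← map_sum, ← map_sum]
        have h3 : ∑ t ∈ g.support, inc (PK K) (St K) (bas (PK K) (St K) t.2) *
            var (PK K) (St K) t.1 * g t = layer (PK K) (St K) g := by
          rw [layer_apply]
          rfl
        rw [h3]
        rw [map_add] at hr0
        have h4 : evx K ((inc (PK K) (St K)).toLinearMap r) = inclS K r := evx_inc r
        rw [h4] at hr0
        have h5 : evx K (layer (PK K) (St K) g) = inclS K (r0 - r) := by
          rw [map_sub, ← hr0]
          abel
        rw [h5, inclS_apply, del_CC]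
      rw [h2] at h1
      have h3 : ∀ l : St (FractionRing (Kx K)) →ₗ[PK K] PK K,
          l (incl1 K (evx K (g (i0, j0)))) = 0 := by
        intro l
        have h4 := GI_trivial h1 l
        have h5 := congrArg (fun z => (bas (PK K) (St K)).coord j0 z) h4
        simp only [map_sum, map_zero] at h5
        rw [sum_eq_single (i0, j0)] at h5
        · rw [if_pos rfl] at h5
          have h6 : bas (PK K) (St K) j0 * ((l (incl1 K (evx K (g (i0, j0)))) : PK K) : St K) =
              (l (incl1 K (evx K (g (i0, j0))))) • bas (PK K) (St K) j0 := by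
            rw [Algebra.smul_def, Algebra.commutes]
            rfl
          rw [h6, map_smul] at h5
          simpa using h5
        · rintro ⟨i, j⟩ _ hne
          by_cases hi : i = i0
          · subst hi
            have hj : j ≠ j0 := fun h => hne (by rw [h])
            rw [if_pos rfl]
            have h6 : bas (PK K) (St K) j * ((l (incl1 K (evx K (g (i, j)))) : PK K) : St K) =
                (l (incl1 K (evx K (g (i, j))))) • bas (PK K) (St K) j := by
              rw [Algebra.smul_def, Algebra.commutes]
              rfl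
            rw [h6, map_smul]
            simp [hj]
          · rw [if_neg hi, map_zero]
        · intro hns
          rw [Finsupp.notMem_support_iff.mp hns, map_zero, map_zero, map_zero]
          simp
      have h4 : incl1 K (evx K (g (i0, j0))) = 0 :=
        (Module.forall_dual_apply_eq_zero_iff (PK K) _).mp h3
      have h5 : evx K (g (i0, j0)) = 0 := incl1_inj (h4.trans (map_zero _).symm)
      obtain ⟨s, hs⟩ := ih (g (i0, j0)) (hg (i0, j0)) ⟨0, by rw [h5, map_zero]⟩
      rw [hs, evx_inc] at h5
      have h6 := congrArg (fun z => eps K z) h5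
      simp only [eps_inclS, map_zero] at h6
      rw [hs, h6, map_zero]
    have hg0 : g = 0 := Finsupp.ext hzero
    refine ⟨r, ?_⟩
    rw [hg0, map_zero, add_zero]
    rfl

end main

end Pool.Agent.LibStar
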