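import Pool.Agent.Lib_MP_4b1745_al.Newton

/-! # Transfinite improvement and the root theorem -/

set_option autoImplicit false
set_option linter.unusedSectionVars false

namespace Pool.Agent.LibStar

open Finset St

section zorn

variable {B : Type*} [CommRing B]

/-- the limit of a chain of approximations -/
lemma exists_limit {ι : Type*} (c : Set ((ι → St B) × ℚ))
    (hc : ∀ p ∈ c, ∀ q ∈ c, (∀ i, VG (q.1 i - p.1 i) p.2) ∨ (∀ i, VG (p.1 i - q.1 i) q.2)) :
    ∃ y : ι → St B, ∀ p ∈ c, ∀ i, VG (y i - p.1 i) p.2 := by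
  classical
  -- coefficients of the limit
  let g : ι → ℚ → B := fun i γ =>
    if h : ∃ p ∈ c, γ < p.2 then co (h.choose.1 i) γ else 0
  have hg : ∀ i γ, ∀ p ∈ c, γ < p.2 → g i γ = co (p.1 i) γ := by
    intro i γ p hp hγ
    have h : ∃ p ∈ c, γ < p.2 := ⟨p, hp, hγ⟩
    have e : g i γ = co (h.choose.1 i) γ := dif_pos h
    rw [e]
    obtain ⟨h1, h2⟩ := h.choose_spec
    rcases hc p hp _ h1 with h3 | h3
    · have := h3 i γ hγ
      rw [co_sub, sub_eq_zero] at this
      exact this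
    · have := h3 i γ h2
      rw [co_sub, sub_eq_zero] at this
      exact this.symm
  have hpwo : ∀ i, {γ | g i γ ≠ 0}.IsPWO := by
    intro i
    rw [Set.isPWO_iff_isWF, Set.isWF_iff_no_descending_seq]
    intro f hf hfS
    have h0 : g i (f 0) ≠ 0 := hfS 0
    by_cases h : ∃ p ∈ c, f 0 < p.2
    · obtain ⟨p, hp, hpf⟩ := h
      have hwf := (supp_pwo (p.1 i)).isWF
      rw [Set.isWF_iff_no_descending_seq] at hwf
      apply hwf f hf
      intro n
      have hn : f n < p.2 := lt_of_le_of_lt (hf.antitone (Nat.zero_le n)) hpf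
      have := hfS n
      rw [Set.mem_ofPred_eq, hg i (f n) p hp hn] at this
      exact this
    · exact h0 (dif_neg h)
  refine ⟨fun i => St.mk (g i) (hpwo i), ?_⟩
  intro p hp i γ hγ
  rw [co_sub, co_mk, hg i γ p hp hγ, sub_self]

/-- transfinite improvement is impossible -/
theorem no_improvement {ι : Type*} (adm : (ι → St B) → ℚ → Prop)
    (hne : ∃ x s, adm x s)
    (h1 : ∀ y, ∃ t, adm y t ∧ ∀ x s, adm x s → (∀ i, VG (y i - x i) s) → s ≤ t)
    (h2 : ∀ x s, adm x s → ∃ y t, adm y t ∧ s < t ∧ ∀ i, VG (y i - x i) s) : False := by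
  let X := {p : (ι → St B) × ℚ // adm p.1 p.2}
  let r : X → X → Prop := fun p q => p.1.2 ≤ q.1.2 ∧ ∀ i, VG (q.1.1 i - p.1.1 i) p.1.2
  have htrans : ∀ {a b c : X}, r a b → r b c → r a c := by
    intro a b c hab hbc
    refine ⟨hab.1.trans hbc.1, fun i => ?_⟩
    have := (hab.2 i).add ((hbc.2 i).mono hab.1)
    convert this using 1
    abel
  obtain ⟨x0, s0, hx0⟩ := hne
  obtain ⟨m, hm⟩ : ∃ m : X, ∀ a, r m a → r a m := by
    refine exists_maximal_of_chains_bounded (r := r) ?_ htrans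
    intro c hc
    by_cases hcne : c.Nonempty
    · obtain ⟨y, hy⟩ := exists_limit (ι := ι) (Subtype.val '' c) (by
        rintro _ ⟨p, hp, rfl⟩ _ ⟨q, hq, rfl⟩
        by_cases hpq : p = q
        · left
          intro i
          rw [hpq, sub_self]
          exact VG_zero _
        · rcases hc hp hq hpq with h | h
          · exact Or.inl h.2
          · exact Or.inr h.2)
      obtain ⟨t, ht1, ht2⟩ := h1 y
      refine ⟨⟨(y, t), ht1⟩, ?_⟩
      intro a ha
      have h3 := hy a.1 ⟨a, ha, rfl⟩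
      exact ⟨ht2 a.1.1 a.1.2 a.2 h3, h3⟩
    · refine ⟨⟨(x0, s0), hx0⟩, fun a ha => (hcne ⟨a, ha⟩).elim⟩
  obtain ⟨y, t, hy1, hy2, hy3⟩ := h2 m.1.1 m.1.2 m.2
  have h3 := hm ⟨(y, t), hy1⟩ ⟨hy2.le, hy3⟩
  exact absurd h3.1 (not_le.mpr hy2)

end zorn

section root

variable {K : Type*} [Field K] [CharZero K] [Algebra ℚ K] [DD K]

/-- every non-constant differential polynomial (in countably many unknowns) has a zero -/
def Closed (K : Type*) [Field K] [CharZero K] [DD K] : Prop :=
  ∀ F : Kx K, F ∉ Set.range (MvPolynomial.C : K → Kx K) →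
    ∃ c : ℕ → K, (subst (DDHom.id K) c).toRingHom F = 0

/-- admissible pairs -/
def Adm (f : FA K) (x : ℕ → St K) (s : ℚ) : Prop :=
  ∃ w, VG (G f x s) w ∧ co (ev (DDHom.id K) x f) w ≠ 0 ∧
    co (G f x s) w ∉ Set.range (MvPolynomial.C : K → Kx K)

lemma eval_zero_G (f : FA K) (x : ℕ → St K) (s : ℚ) :
    St.map (subst (DDHom.id K) (fun _ => 0)) (G f x s) = ev (DDHom.id K) x f := by
  rw [G, map_ev, subst_comp_CC]
  congr 1
  congr 1
  funext i
  rw [map_add, St.map_map, subst_comp_CC, St.map_mono, subst_xi, mono_zero, add_zero]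
  rfl

lemma exists_adm (f : FA K) (x : ℕ → St K) (h0 : ev (DDHom.id K) x f ≠ 0)
    (hj : ∃ j, 1 ≤ j ∧ cmp f x j ≠ 0) : ∃ s, Adm f x s := by
  classical
  obtain ⟨w, hw1, hw2⟩ := exists_lead h0
  obtain ⟨n, hn1, hn2, _⟩ := co_G f x
  have hv : ∀ j, cmp f x j ≠ 0 → ∃ v, VG (cmp f x j) v ∧ co (cmp f x j) v ≠ 0 :=
    fun j hj => exists_lead hj
  let v : ℕ → ℚ := fun j => if h : cmp f x j ≠ 0 then (hv j h).choose else 0
  have hv1 : ∀ j, cmp f x j ≠ 0 → VG (cmp f x j) (v j) ∧ co (cmp f x j) (v j) ≠ 0 := by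
    intro j h
    have e : v j = (hv j h).choose := dif_pos h
    rw [e]
    exact (hv j h).choose_spec
  let J := (range n).filter (fun j => 1 ≤ j ∧ cmp f x j ≠ 0)
  have hJ : J.Nonempty := by
    obtain ⟨j, hj1, hj2⟩ := hj
    refine ⟨j, mem_filter.mpr ⟨mem_range.mpr ?_, hj1, hj2⟩⟩
    by_contra hn
    exact hj2 (hn2 j (not_lt.mp hn))
  obtain ⟨e, he, hmax⟩ := exists_max_image J (fun j => (w - v j) / j) hJ
  obtain ⟨_, he1, he2⟩ := mem_filter.mp he
  have he0 : (0 : ℚ) < e := by exact_mod_cast he1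
  have hsv : w - e * ((w - v e) / e) = v e := by
    field_simp
    ring
  refine ⟨(w - v e) / e, w, ?_, hw2, ?_⟩
  · rw [VG_G_iff]
    intro j
    by_cases hj0 : j = 0
    · subst hj0
      rw [cmp_zero, Nat.cast_zero, zero_mul, sub_zero]
      exact VG_map _ hw1
    · by_cases hc : cmp f x j = 0
      · rw [hc]
        exact VG_zero _
      · have hjJ : j ∈ J := by
          refine mem_filter.mpr ⟨mem_range.mpr ?_, Nat.one_le_iff_ne_zero.mpr hj0, hc⟩
          by_contra hn
          exact hc (hn2 j (not_lt.mp hn))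
        have h3 := hmax j hjJ
        have hj0' : (0 : ℚ) < j := by exact_mod_cast Nat.pos_of_ne_zero hj0
        apply (hv1 j hc).1.mono
        rw [div_le_iff₀ hj0'] at h3
        linarith
  · rw [co_G_const_iff]
    intro h
    have := h e he1
    rw [hsv] at this
    exact (hv1 e he2).2 this

lemma adm_mono (f : FA K) {x y : ℕ → St K} {s t : ℚ} (hx : Adm f x s) (hy : Adm f y t)
    (hxy : ∀ i, VG (y i - x i) s) : s ≤ t := by
  obtain ⟨w, hw1, _, hw3⟩ := hx
  obtain ⟨u, hu1, hu2, _⟩ := hy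
  obtain ⟨g1, g2⟩ := G_trans f x (fun i => y i - x i) hw1 hxy
  have e : (fun i => x i + (y i - x i)) = y := by
    funext i
    abel
  rw [e] at g1 g2
  have g3 : co (G f y s) w ∉ Set.range (MvPolynomial.C : K → Kx K) := by
    rw [g2, tau_const_iff]
    exact hw3
  -- `w ≤ u`
  have hwu : w ≤ u := by
    by_contra h
    apply hu2
    rw [← eval_zero_G f y s, co_map, g1 u (not_le.mp h), map_zero]
  rw [co_G_const_iff] at g3
  push Not at g3
  obtain ⟨j, hj1, hj2⟩ := g3
  have h4 := (VG_G_iff f y t u).mp hu1 j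
  have h5 : u - j * t ≤ w - j * s := by
    by_contra h
    exact hj2 (h4 _ (not_le.mp h))
  have hj0 : (0 : ℚ) < j := by exact_mod_cast hj1
  have h6 : (j : ℚ) * s ≤ j * t := by linarith
  exact le_of_mul_le_mul_left h6 hj0

lemma adm_improve (hK : Closed K) (f : FA K) {x : ℕ → St K} {s : ℚ} (hx : Adm f x s)
    (h0 : ∀ y, ev (DDHom.id K) y f ≠ 0) (hj : ∀ y, ∃ j, 1 ≤ j ∧ cmp f y j ≠ 0) :
    ∃ y t, Adm f y t ∧ s < t ∧ ∀ i, VG (y i - x i) s := by
  obtain ⟨w, hw1, _, hw3⟩ := hx
  obtain ⟨c, hc⟩ := hK _ hw3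
  let y : ℕ → St K := fun i => x i + mono s (c i)
  have hG : G f y s = St.map (tau c) (G f x s) := G_trans_same f x s c
  have g1 : VG (G f y s) w := by
    rw [hG]
    exact VG_map _ hw1
  have g2 : co (ev (DDHom.id K) y f) w = 0 := by
    rw [← eval_zero_G f y s, hG, co_map, co_map]
    have : (subst (DDHom.id K) (fun _ => 0)).comp (tau c) = subst (DDHom.id K) c := by
      apply Kx_hom_ext
      · intro a
        change (subst (DDHom.id K) (fun _ => 0)).toRingHom ((tau c).toRingHom (MvPolynomial.C a)) =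
          (subst (DDHom.id K) c).toRingHom (MvPolynomial.C a)
        rw [tau_C, subst_C, subst_C]
      · intro i
        change (subst (DDHom.id K) (fun _ => 0)).toRingHom ((tau c).toRingHom (xi K i)) =
          (subst (DDHom.id K) c).toRingHom (xi K i)
        rw [tau, subst_xi, map_add, subst_xi, subst_C, subst_xi, zero_add]
        rfl
    change ((subst (DDHom.id K) (fun _ => 0)).comp (tau c)).toRingHom (co (G f x s) w) = 0
    rw [this, hc]
  have g3 : co (G f y s) w ∉ Set.range (MvPolynomial.C : K → Kx K) := by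
    rw [hG, co_map, tau_const_iff]
    exact hw3
  obtain ⟨t, ht⟩ := exists_adm f y (h0 y) (hj y)
  refine ⟨y, t, ht, ?_, ?_⟩
  · obtain ⟨u, hu1, hu2, _⟩ := ht
    have hwu : w < u := by
      by_contra h
      apply hu2
      rcases lt_or_eq_of_le (not_lt.mp h) with h' | h'
      · rw [← eval_zero_G f y s, co_map, g1 u h', map_zero]
      · rw [h', g2]
    rw [co_G_const_iff] at g3
    push Not at g3
    obtain ⟨j, hj1, hj2⟩ := g3
    have h4 := (VG_G_iff f y t u).mp hu1 j
    have h5 : u - j * t ≤ w - j * s := by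
      by_contra h
      exact hj2 (h4 _ (not_le.mp h))
    have hj0 : (0 : ℚ) < j := by exact_mod_cast hj1
    have h6 : (j : ℚ) * s < j * t := by linarith
    exact lt_of_mul_lt_mul_left h6 hj0.le
  · intro i
    have : y i - x i = mono s (c i) := by
      simp only [y]
      abel
    rw [this]
    exact VG_mono s _

/-- the root theorem -/
theorem exists_root (hK : Closed K) (f : FA K) (hj : ∀ y, ∃ j, 1 ≤ j ∧ cmp f y j ≠ 0) :
    ∃ x, ev (DDHom.id K) x f = 0 := by
  by_contra hcon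
  push Not at hcon
  apply no_improvement (B := K) (ι := ℕ) (Adm f)
  · obtain ⟨s, hs⟩ := exists_adm f (fun _ => 0) (hcon _) (hj _)
    exact ⟨_, s, hs⟩
  · intro y
    obtain ⟨t, ht⟩ := exists_adm f y (hcon _) (hj _)
    exact ⟨t, ht, fun x s hx hxy => adm_mono f hx ht hxy⟩
  · intro x s hx
    exact adm_improve hK f hx hcon hj

end root

end Pool.Agent.LibStar
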